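import Mathlib

set_option autoImplicit false
open Filter Topology Complex ComplexConjugate Asymptotics Bornology

namespace Pool.Agent.Q108.ZF

/-- removable singularities -/
lemma exists_entire_ext (f : ℂ → ℂ)
    (hf : ∀ z₀ : ℂ, ∃ F : ℂ → ℂ, (∀ᶠ z in 𝓝 z₀, DifferentiableAt ℂ F z) ∧
      ∀ᶠ z in 𝓝[≠] z₀, f z = F z) :
    ∃ h : ℂ → ℂ, Differentiable ℂ h ∧ ∀ z₀, ContinuousAt f z₀ → h z₀ = f z₀ := by
  refine ⟨fun z => limUnder (𝓝[≠] z) f, ?_, ?_⟩
  · intro z₀
    obtain ⟨F, hF, hfF⟩ := hf z₀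
    have hF0 : DifferentiableAt ℂ F z₀ := hF.self_of_nhds
    refine hF0.congr_of_eventuallyEq ?_
    rw [eventually_nhdsWithin_iff] at hfF
    have h2 := hfF.eventually_nhds
    filter_upwards [hF, h2] with z hz h2z
    apply Tendsto.limUnder_eq
    have h3 : Tendsto F (𝓝[≠] z) (𝓝 (F z)) := hz.continuousAt.tendsto.mono_left nhdsWithin_le_nhds
    refine h3.congr' ?_
    by_cases hzz : z = z₀
    · subst hzz
      filter_upwards [nhdsWithin_le_nhds h2z, self_mem_nhdsWithin] with w hw hw2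
      exact (hw hw2).symm
    · have : ∀ᶠ w in 𝓝 z, w ≠ z₀ := isOpen_ne.mem_nhds hzz
      filter_upwards [nhdsWithin_le_nhds h2z, nhdsWithin_le_nhds this] with w hw hw2
      exact (hw hw2).symm
  · intro z₀ hc
    apply Tendsto.limUnder_eq
    exact hc.tendsto.mono_left nhdsWithin_le_nhds

/-- an entire function of cubic growth is a polynomial -/
lemma poly_of_growth {h : ℂ → ℂ} (hd : Differentiable ℂ h) {K : ℝ}
    (hK : ∀ z, ‖h z‖ ≤ K * (1 + ‖z‖) ^ 3) :
    ∃ c : ℕ → ℂ, ∀ z, h z = ∑ j ∈ Finset.range 4, c j * z ^ j := by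
  have hK0 : 0 ≤ K := by
    have := (norm_nonneg _).trans (hK 0)
    simpa using this
  have hvan : ∀ n, 4 ≤ n → iteratedDeriv n h 0 = 0 := by
    intro n hn
    have key : ∀ R : ℝ, 1 ≤ R → ‖iteratedDeriv n h 0‖ ≤ (n.factorial * (8 * K)) / R := by
      intro R hR
      have hR0 : 0 < R := by linarith
      have h1 := Complex.norm_iteratedDeriv_le_of_forall_mem_sphere_norm_le (c := 0) (R := R)
        (C := 8 * K * R ^ 3) n hR0 hd.diffContOnCl (fun z hz => by
          rw [mem_sphere_zero_iff_norm] at hz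
          have := hK z
          rw [hz] at this
          calc ‖h z‖ ≤ K * (1 + R) ^ 3 := this
            _ ≤ K * (2 * R) ^ 3 := by gcongr; linarith
            _ = _ := by ring)
      refine h1.trans ?_
      rw [div_le_div_iff₀ (by positivity) hR0]
      obtain ⟨m, rfl⟩ := Nat.exists_eq_add_of_le hn
      have h2 : 1 ≤ R ^ m := one_le_pow₀ hR
      have h3 : R ^ (4 + m) = R ^ 3 * R * R ^ m := by ring
      rw [h3]
      have h4 : 0 ≤ ((4 + m).factorial : ℝ) * (8 * K) * (R ^ 3 * R) := by positivity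
      nlinarith
    have hlim : Tendsto (fun R : ℝ => (n.factorial * (8 * K)) / R) atTop (𝓝 0) :=
      tendsto_const_nhds.div_atTop tendsto_id
    have h0 : ‖iteratedDeriv n h 0‖ ≤ 0 :=
      ge_of_tendsto hlim (by filter_upwards [eventually_ge_atTop 1] with R hR using key R hR)
    exact norm_le_zero_iff.mp h0
  refine ⟨fun j => (j.factorial : ℂ)⁻¹ * iteratedDeriv j h 0, fun z => ?_⟩
  rw [← Complex.taylorSeries_eq_of_entire' 0 z hd]
  rw [tsum_eq_sum (s := Finset.range 4)]
  · refine Finset.sum_congr rfl fun j _ => ?_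
    simp
  · intro n hn
    rw [hvan n (by simpa using hn)]
    simp

/-- Phragmén–Lindelöf in a right angle -/
lemma sector {h : ℂ → ℂ} (hd : Differentiable ℂ h) {A B K : ℝ} {c : ℝ} (hc : c < 2)
    (hg : ∀ z, ‖h z‖ ≤ A * Real.exp (B * ‖z‖ ^ c)) {ω : ℂ} (hω : ‖ω‖ = 1)
    (h1 : ∀ x : ℝ, 0 ≤ x → ‖h (x * ω)‖ ≤ K * (1 + x) ^ 3)
    (h2 : ∀ x : ℝ, 0 ≤ x → ‖h (x * (I * ω))‖ ≤ K * (1 + x) ^ 3)
    {z : ℂ} (hz1 : 0 ≤ z.re) (hz2 : 0 ≤ z.im) : ‖h (z * ω)‖ ≤ 8 * K * (1 + ‖z‖) ^ 3 := by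
  have hK0 : 0 ≤ K := by
    have := (norm_nonneg _).trans (h1 0 le_rfl)
    simpa using this
  have hA0 : 0 ≤ A := by
    have h3 := (norm_nonneg _).trans (hg 0)
    have h4 := Real.exp_pos (B * ‖(0 : ℂ)‖ ^ c)
    nlinarith
  have hone : ∀ z : ℂ, 0 ≤ z.re → 1 ≤ ‖z + 1‖ := by
    intro z hz
    have := Complex.re_le_norm (z + 1)
    simp at this
    linarith
  set f : ℂ → ℂ := fun z => h (z * ω) / (z + 1) ^ 3 with hf
  have hcl : closure (Set.Ioi (0 : ℝ) ×ℂ Set.Ioi (0 : ℝ)) ⊆ {z : ℂ | 0 ≤ z.re} := by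
    rw [Complex.closure_reProdIm, closure_Ioi]
    intro z hz
    rw [Complex.mem_reProdIm] at hz
    exact hz.1
  have hfd : DiffContOnCl ℂ f (Set.Ioi 0 ×ℂ Set.Ioi 0) := by
    apply DifferentiableOn.diffContOnCl
    intro z hz
    have hz0 : 0 ≤ z.re := hcl hz
    have hne : (z + 1) ^ 3 ≠ 0 := by
      apply pow_ne_zero
      rw [← norm_pos_iff]
      linarith [hone z hz0]
    have e1 : DifferentiableAt ℂ (fun z => h (z * ω)) z :=
      DifferentiableAt.comp z (hd _) (by fun_prop)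
    have e2 : DifferentiableAt ℂ (fun z : ℂ => (z + 1) ^ 3) z := by fun_prop
    exact (e1.div e2 hne).differentiableWithinAt
  have hres := PhragmenLindelof.quadrant_I (C := 8 * K) hfd ⟨c, hc, B, ?_⟩ ?_ ?_ hz1 hz2
  · have h3 : h (z * ω) = f z * (z + 1) ^ 3 := by
      have hne : (z + 1) ^ 3 ≠ 0 := by
        apply pow_ne_zero
        rw [← norm_pos_iff]
        linarith [hone z hz1]
      rw [hf]; exact (div_mul_cancel₀ _ hne).symm
    rw [h3, norm_mul, norm_pow]
    have h4 : ‖z + 1‖ ≤ 1 + ‖z‖ := by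
      calc ‖z + 1‖ ≤ ‖z‖ + ‖(1 : ℂ)‖ := norm_add_le _ _
        _ = _ := by rw [norm_one]; ring
    calc ‖f z‖ * ‖z + 1‖ ^ 3 ≤ (8 * K) * (1 + ‖z‖) ^ 3 := by gcongr
      _ = _ := rfl
  · apply IsBigO.of_bound A
    apply mem_inf_of_right
    rw [mem_principal]
    intro z hz
    rw [Complex.mem_reProdIm] at hz
    have hz0 : 0 ≤ z.re := (Set.mem_Ioi.mp hz.1).le
    have h3 := hone z hz0
    have h4 : 1 ≤ ‖z + 1‖ ^ 3 := one_le_pow₀ h3
    have h5 := hg (z * ω)
    rw [norm_mul, hω, mul_one] at h5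
    show ‖f z‖ ≤ _
    simp only [hf]
    rw [norm_div, norm_pow, Real.norm_eq_abs, abs_of_pos (Real.exp_pos _)]
    exact (div_le_self (norm_nonneg _) h4).trans h5
  · intro x hx
    have h3 := h1 x hx
    simp only [hf]
    rw [norm_div, norm_pow]
    have h4 : ‖(x : ℂ) + 1‖ = 1 + x := by
      have : (x : ℂ) + 1 = ((1 + x : ℝ) : ℂ) := by push_cast; ring
      rw [this, Complex.norm_real, Real.norm_eq_abs, abs_of_pos (by linarith)]
    rw [h4, div_le_iff₀ (by positivity)]
    have : 0 ≤ K * (1 + x) ^ 3 := by positivity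
    linarith
  · intro x hx
    have h3 := h2 x hx
    simp only [hf]
    rw [norm_div, norm_pow]
    have h5 : 1 ≤ ‖(x : ℂ) * I + 1‖ := hone _ (by simp)
    have h6 : x ≤ ‖(x : ℂ) * I + 1‖ := by
      have := Complex.abs_im_le_norm ((x : ℂ) * I + 1)
      simp at this
      exact (le_abs_self x).trans this
    rw [div_le_iff₀ (by positivity)]
    have e : (x : ℂ) * I * ω = x * (I * ω) := by ring
    rw [e]
    refine h3.trans ?_
    calc K * (1 + x) ^ 3 ≤ K * (2 * ‖(x : ℂ) * I + 1‖) ^ 3 := by gcongr; linarith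
      _ = _ := by ring

/-- polynomial growth from growth on the positive ray and in a double cone -/
lemma growth_all {h : ℂ → ℂ} (hd : Differentiable ℂ h) {A B K : ℝ} {c : ℝ} (hc : c < 2)
    (hg : ∀ z, ‖h z‖ ≤ A * Real.exp (B * ‖z‖ ^ c))
    (hpos : ∀ x : ℝ, 0 ≤ x → ‖h x‖ ≤ K * (1 + x) ^ 3)
    (hcone : ∀ z : ℂ, z.re ≤ 0 → |z.re| ≤ |z.im| → ‖h z‖ ≤ K * (1 + ‖z‖) ^ 3) (z : ℂ) :
    ‖h z‖ ≤ 8 * K * (1 + ‖z‖) ^ 3 := by
  have hK0 : 0 ≤ K := by
    have := (norm_nonneg _).trans (hpos 0 le_rfl)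
    simpa using this
  have hcx : ∀ (x : ℝ) (v : ℂ), 0 ≤ x → ‖v‖ = 1 → v.re ≤ 0 → |v.re| ≤ |v.im| →
      ‖h (x * v)‖ ≤ K * (1 + x) ^ 3 := by
    intro x v hx hv h1 h2
    have := hcone (x * v) (by simp; exact mul_nonpos_of_nonneg_of_nonpos hx h1)
      (by simp [abs_mul]; gcongr)
    rwa [norm_mul, hv, mul_one, Complex.norm_real, Real.norm_eq_abs, abs_of_nonneg hx] at this
  rcases le_or_gt 0 z.re with hre | hre
  · rcases le_or_gt 0 z.im with him | him
    · have := sector (ω := 1) hd hc hg (by simp) (K := K) (by simpa using hpos)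
        (fun x hx => hcx x _ hx (by simp) (by simp) (by simp)) hre him
      simpa using this
    · have := sector (ω := -I) hd hc hg (by simp) (K := K)
        (fun x hx => hcx x _ hx (by simp) (by simp) (by simp))
        (by simpa using hpos) (z := z * I) (by simp; linarith) (by simpa using hre)
      have e : z * I * -I = z := by
        linear_combination (-z) * Complex.I_mul_I
      rw [e, norm_mul, Complex.norm_I, mul_one] at this
      exact this
  · by_cases hcase : |z.re| ≤ |z.im|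
    · refine (hcone z hre.le hcase).trans ?_
      have : 0 ≤ K * (1 + ‖z‖) ^ 3 := by positivity
      linarith
    · push Not at hcase
      -- the angle around the negative axis
      set s : ℝ := Real.sqrt 2 / 2 with hs
      have hs2 : s * s = 1 / 2 := by
        rw [hs]
        have := Real.mul_self_sqrt (show (0 : ℝ) ≤ 2 by norm_num)
        nlinarith
      have hs0 : 0 < s := by positivity
      set ω : ℂ := ⟨-s, s⟩ with hω
      have hωn : ‖ω‖ = 1 := by
        have h1 : ‖ω‖ ^ 2 = 1 := by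
          rw [← Complex.normSq_eq_norm_sq, Complex.normSq_apply]
          simp only [hω]; linarith
        have h2 := norm_nonneg ω
        nlinarith
      have hωc : conj ω * ω = 1 := by
        rw [← Complex.normSq_eq_conj_mul_self, Complex.normSq_eq_norm_sq, hωn]; norm_num
      rw [abs_of_neg hre, abs_lt] at hcase
      have := sector (ω := ω) hd hc hg hωn (K := K)
        (fun x hx => hcx x _ hx hωn (by simp [hω]; exact hs0.le) (by simp [hω]))
        (fun x hx => hcx x _ hx (by rw [norm_mul, Complex.norm_I, hωn, one_mul])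
          (by simp [hω]; exact hs0.le) (by simp [hω]))
        (z := z * conj ω) (by simp [hω]; nlinarith) (by simp [hω]; nlinarith)
      have e : z * conj ω * ω = z := by rw [mul_assoc, hωc, mul_one]
      rw [e, norm_mul, Complex.norm_conj, hωn, mul_one] at this
      exact this

end Pool.Agent.Q108.ZF
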