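import Mathlib

set_option autoImplicit false
open Complex

namespace Pool.Agent.Q108.ZF

/-- the angle of the rays: 75 degrees -/
noncomputable def al : ℝ := 5 * Real.pi / 12

/-- `exp (i al)` -/
noncomputable def e1 : ℂ := Complex.exp (al * I)

/-- `exp (2 i al)` -/
noncomputable def om : ℂ := ⟨-(Real.sqrt 3 / 2), 1 / 2⟩

lemma cos_two_al : Real.cos (2 * al) = -(Real.sqrt 3 / 2) := by
  have : 2 * al = Real.pi - Real.pi / 6 := by unfold al; ring
  rw [this, Real.cos_pi_sub, Real.cos_pi_div_six]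

lemma sin_two_al : Real.sin (2 * al) = 1 / 2 := by
  have : 2 * al = Real.pi - Real.pi / 6 := by unfold al; ring
  rw [this, Real.sin_pi_sub, Real.sin_pi_div_six]

lemma e1_re : e1.re = Real.cos al := by
  unfold e1; rw [Complex.exp_ofReal_mul_I_re]

lemma e1_im : e1.im = Real.sin al := by
  unfold e1; rw [Complex.exp_ofReal_mul_I_im]

lemma e1_sq : e1 ^ 2 = om := by
  unfold e1
  rw [← Complex.exp_nat_mul]
  have : ((2 : ℕ) : ℂ) * (al * I) = ((2 * al : ℝ) : ℂ) * I := by push_cast; ring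
  rw [this]
  apply Complex.ext
  · rw [Complex.exp_ofReal_mul_I_re, cos_two_al]; rfl
  · rw [Complex.exp_ofReal_mul_I_im, sin_two_al]; rfl

lemma norm_e1 : ‖e1‖ = 1 := by
  unfold e1; exact Complex.norm_exp_ofReal_mul_I al

lemma e1_ne : e1 ≠ 0 := by
  intro h; have := norm_e1; rw [h, norm_zero] at this; norm_num at this

lemma norm_om : ‖om‖ = 1 := by rw [← e1_sq, norm_pow, norm_e1, one_pow]

lemma sqrt3_pos : 0 < Real.sqrt 3 := Real.sqrt_pos.mpr (by norm_num)

lemma sqrt3_sq : Real.sqrt 3 * Real.sqrt 3 = 3 := Real.mul_self_sqrt (by norm_num)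

lemma sqrt3_lt : Real.sqrt 3 < 1.7321 := by
  rw [Real.sqrt_lt' (by norm_num)]; norm_num

lemma sqrt3_gt : 1.732 < Real.sqrt 3 := by
  rw [Real.lt_sqrt (by norm_num)]; norm_num

lemma ca_pos : 0 < Real.cos al := by
  apply Real.cos_pos_of_mem_Ioo
  constructor <;> unfold al <;> linarith [Real.pi_pos]

lemma sa_pos : 0 < Real.sin al := by
  apply Real.sin_pos_of_pos_of_lt_pi <;> unfold al <;> linarith [Real.pi_pos]

lemma ca_sq : Real.cos al ^ 2 = (2 - Real.sqrt 3) / 4 := by
  have := Real.cos_two_mul al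
  rw [cos_two_al] at this
  linarith

lemma sa_sq : Real.sin al ^ 2 = (2 + Real.sqrt 3) / 4 := by
  have := Real.sin_sq_add_cos_sq al
  rw [ca_sq] at this
  linarith

lemma ca_gt : 1 / 4 < Real.cos al := by
  have h := ca_sq
  have h3 := sqrt3_lt
  nlinarith [ca_pos]

lemma ca_lt : Real.cos al < 1 / 2 := by
  have h := ca_sq
  have h3 := sqrt3_gt
  nlinarith [ca_pos]

lemma sa_gt : 1 / 4 < Real.sin al := by
  have h := sa_sq
  have h3 := sqrt3_gt
  nlinarith [sa_pos]

lemma ca_sa : Real.cos al * Real.sin al = 1 / 4 := by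
  have := Real.sin_two_mul al
  rw [sin_two_al] at this
  linarith

/-- coefficient of the exponential factor -/
noncomputable def bb : ℝ := 4 * Real.cos al

lemma bb_sa : bb * Real.sin al = 1 := by
  unfold bb; have := ca_sa; linarith

lemma bb_pos : 0 < bb := by unfold bb; linarith [ca_pos]

lemma bb_lt : bb < 2 := by unfold bb; linarith [ca_lt]

/-- the phase function -/
noncomputable def w (s : ℝ) : ℝ := (Complex.log (1 - s * om) + s * om).im

lemma re_one_sub (s : ℝ) : (1 - (s : ℂ) * om).re = 1 + s * (Real.sqrt 3 / 2) := by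
  simp [om]

lemma im_one_sub (s : ℝ) : (1 - (s : ℂ) * om).im = -(s / 2) := by
  simp [om]; ring

lemma one_sub_mem (s : ℝ) (hs : 0 ≤ s) : (1 - (s : ℂ) * om) ∈ Complex.slitPlane := by
  left
  rw [re_one_sub]
  have := sqrt3_pos
  positivity

lemma normSq_one_sub (s : ℝ) : Complex.normSq (1 - (s : ℂ) * om) = 1 + Real.sqrt 3 * s + s ^ 2 := by
  rw [Complex.normSq_apply, re_one_sub, im_one_sub]
  have := sqrt3_sq
  nlinarith

lemma w_zero : w 0 = 0 := by simp [w]

lemma w_hasDerivAt (s : ℝ) (hs : 0 ≤ s) :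
    HasDerivAt w ((Real.sqrt 3 * s + s ^ 2) / (2 * (1 + Real.sqrt 3 * s + s ^ 2))) s := by
  have h1 : HasDerivAt (fun s : ℝ => (1 : ℂ) - (s : ℂ) * om) (-om) s := by
    have := ((Complex.ofRealCLM.hasDerivAt (x := s)).mul_const om).const_sub 1
    simpa using this
  have h2 : HasDerivAt (fun s : ℝ => Complex.log (1 - (s : ℂ) * om)) (-om / (1 - (s : ℂ) * om)) s :=
    h1.clog_real (one_sub_mem s hs)
  have h3 : HasDerivAt (fun s : ℝ => (s : ℂ) * om) om s := by
    have := ((Complex.ofRealCLM.hasDerivAt (x := s)).mul_const om)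
    simpa using this
  have h4 := h2.add h3
  have h5 : HasDerivAt w ((-om / (1 - (s : ℂ) * om) + om).im) s := by
    exact (Complex.imCLM.hasFDerivAt.comp_hasDerivAt s h4)
  refine h5.congr_deriv ?_
  have hn : 0 < 1 + Real.sqrt 3 * s + s ^ 2 := by
    have := sqrt3_pos; positivity
  rw [Complex.add_im, Complex.div_im, normSq_one_sub, re_one_sub, im_one_sub]
  simp only [om, Complex.neg_im, Complex.neg_re]
  have h33 := sqrt3_sq
  field_simp
  nlinarith

lemma w_deriv_nonneg (s : ℝ) (hs : 0 ≤ s) :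
    0 ≤ (Real.sqrt 3 * s + s ^ 2) / (2 * (1 + Real.sqrt 3 * s + s ^ 2)) := by
  have := sqrt3_pos; positivity

lemma w_continuousOn : ContinuousOn w (Set.Ici 0) :=
  fun s hs => (w_hasDerivAt s hs).continuousAt.continuousWithinAt

lemma w_mono : MonotoneOn w (Set.Ici 0) := by
  apply monotoneOn_of_deriv_nonneg (convex_Ici 0) w_continuousOn
  · intro s hs
    rw [interior_Ici] at hs
    exact (w_hasDerivAt s (le_of_lt hs)).differentiableAt.differentiableWithinAt
  · intro s hs
    rw [interior_Ici] at hs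
    rw [(w_hasDerivAt s (le_of_lt hs)).deriv]
    exact w_deriv_nonneg s (le_of_lt hs)

lemma w_nonneg (s : ℝ) (hs : 0 ≤ s) : 0 ≤ w s := by
  have := w_mono (Set.mem_Ici.mpr le_rfl) hs hs
  rwa [w_zero] at this

/-- comparison with a function with larger derivative -/
lemma w_le_aux (F F' : ℝ → ℝ) (hF : ∀ s, 0 ≤ s → HasDerivAt F (F' s) s)
    (h : ∀ s, 0 ≤ s → (Real.sqrt 3 * s + s ^ 2) / (2 * (1 + Real.sqrt 3 * s + s ^ 2)) ≤ F' s)
    (s t : ℝ) (hs : 0 ≤ s) (hst : s ≤ t) : w t - w s ≤ F t - F s := by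
  have hm : MonotoneOn (fun s => F s - w s) (Set.Ici 0) := by
    apply monotoneOn_of_deriv_nonneg (convex_Ici 0)
    · exact fun s hs => ((hF s hs).sub (w_hasDerivAt s hs)).continuousAt.continuousWithinAt
    · intro s hs
      rw [interior_Ici] at hs
      exact ((hF s (le_of_lt hs)).sub (w_hasDerivAt s (le_of_lt hs))).differentiableAt.differentiableWithinAt
    · intro s hs
      rw [interior_Ici] at hs
      have h1 : HasDerivAt (fun s => F s - w s) _ s :=
        (hF s (le_of_lt hs)).sub (w_hasDerivAt s (le_of_lt hs))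
      rw [h1.deriv]
      have := h s (le_of_lt hs)
      linarith
  have := hm hs (le_trans hs hst) hst
  simp only at this
  linarith

lemma w_le_half (s : ℝ) (hs : 0 ≤ s) : w s ≤ s / 2 := by
  have := w_le_aux (fun s => s / 2) (fun _ => 1 / 2) (fun s _ => (hasDerivAt_id s).div_const 2)
    (fun s hs => by
      have := sqrt3_pos
      rw [div_le_div_iff₀ (by positivity) (by norm_num)]; linarith) 0 s le_rfl hs
  simp only [w_zero] at this
  linarith

lemma w_deriv_le (s : ℝ) (hs : 0 ≤ s) :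
    (Real.sqrt 3 * s + s ^ 2) / (2 * (1 + Real.sqrt 3 * s + s ^ 2)) ≤ Real.sqrt 3 / 2 * s := by
  have h3 := sqrt3_pos
  have h33 := sqrt3_sq
  rw [div_le_iff₀ (by positivity)]
  have : Real.sqrt 3 / 2 * s * (2 * (1 + Real.sqrt 3 * s + s ^ 2)) =
      Real.sqrt 3 * s + (Real.sqrt 3 * Real.sqrt 3) * s ^ 2 + Real.sqrt 3 * s ^ 3 := by ring
  rw [this, h33]
  have : 0 ≤ Real.sqrt 3 * s ^ 3 := by positivity
  nlinarith [sq_nonneg s]

lemma w_sub_le (s t : ℝ) (hs : 0 ≤ s) (hst : s ≤ t) :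
    w t - w s ≤ Real.sqrt 3 / 4 * (t ^ 2 - s ^ 2) := by
  have := w_le_aux (fun s => Real.sqrt 3 / 4 * s ^ 2) (fun s => Real.sqrt 3 / 2 * s)
    (fun s _ => by
      have := ((hasDerivAt_id s).pow 2).const_mul (Real.sqrt 3 / 4)
      refine this.congr_deriv ?_
      simp; ring)
    w_deriv_le s t hs hst
  linarith

lemma w_le_sq (s : ℝ) (hs : 0 ≤ s) : w s ≤ Real.sqrt 3 / 4 * s ^ 2 := by
  have := w_sub_le 0 s le_rfl hs
  rw [w_zero] at this
  linarith

end Pool.Agent.Q108.ZF
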