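import Pool.Agent.Q108.ZF.Abs1
import Pool.Agent.Q108.ZF.Base

set_option autoImplicit false
open Filter Topology Complex ComplexConjugate Asymptotics Bornology

namespace Pool.Agent.Q108.ZF

variable {ι : Type*}

/-- terms of the partial fraction series -/
noncomputable def pf (lam : ι → ℂ) (b : ι → ℝ) (q : ℕ) (z : ℂ) (i : ι) : ℂ :=
  (b i : ℂ) * (z / lam i) ^ q / (z - lam i)

/-- the partial fraction series -/
noncomputable def SS (lam : ι → ℂ) (b : ι → ℝ) (q : ℕ) (z : ℂ) : ℂ := ∑' i, pf lam b q z i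

/-- the data of the interpolation -/
structure Dat (g : ℂ → ℂ) (lam : ι → ℂ) (a : ι → ℝ) : Prop where
  gdiff : Differentiable ℂ g
  zero_iff : ∀ z, g z = 0 ↔ z = 0 ∨ ∃ i, z = lam i
  d0 : HasDerivAt g 1 0
  dl : ∀ i, HasDerivAt g (((a i)⁻¹ : ℝ) : ℂ) (lam i)
  apos : ∀ i, 0 < a i
  inj : Function.Injective lam
  ge : ∀ i, 1 / 4 ≤ ‖lam i‖
  ray : ∀ i, lam i = ‖lam i‖ * e1 ∨ lam i = ‖lam i‖ * conj e1
  tend : Tendsto (fun i => ‖lam i‖) cofinite atTop
  sum : Summable (fun i => a i / ‖lam i‖ ^ 4)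

lemma pf_norm_le {lam : ι → ℂ} {b : ι → ℝ} {q : ℕ} {z : ℂ} {i : ι} {κ : ℝ} (hb : 0 ≤ b i)
    (hκ : 0 < κ) (hl : 0 < ‖lam i‖) (h : b i ≠ 0 → κ * ‖lam i‖ ≤ ‖z - lam i‖) :
    ‖pf lam b q z i‖ ≤ ‖z‖ ^ q / κ * (b i / ‖lam i‖ ^ (q + 1)) := by
  by_cases hb0 : b i = 0
  · unfold pf; simp [hb0]
  have h1 := h hb0
  unfold pf
  rw [norm_div, norm_mul, norm_pow, norm_div, Complex.norm_real, Real.norm_eq_abs, abs_of_nonneg hb]
  have h2 : 0 < κ * ‖lam i‖ := by positivity
  calc b i * (‖z‖ / ‖lam i‖) ^ q / ‖z - lam i‖ ≤ b i * (‖z‖ / ‖lam i‖) ^ q / (κ * ‖lam i‖) := by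
        gcongr
    _ = _ := by
        rw [div_pow, pow_succ ‖lam i‖ q]; field_simp

lemma exists_sep {lam : ι → ℂ} (tend : Tendsto (fun i => ‖lam i‖) cofinite atTop)
    (P : ι → Prop) (z₀ : ℂ) (hne : ∀ i, P i → z₀ ≠ lam i) (hpos : ∀ i, 0 < ‖lam i‖) :
    ∃ κ : ℝ, 0 < κ ∧ ∀ i, P i → κ * ‖lam i‖ ≤ ‖z₀ - lam i‖ := by
  classical
  have hev : ∀ᶠ i in cofinite, 2 * ‖z₀‖ ≤ ‖lam i‖ := tend.eventually_ge_atTop _
  rw [Filter.eventually_cofinite] at hev
  set F : Finset ι := hev.toFinset.filter P with hF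
  have hout : ∀ i, P i → i ∉ F → 1 / 2 * ‖lam i‖ ≤ ‖z₀ - lam i‖ := by
    intro i hi hiF
    have h1 : 2 * ‖z₀‖ ≤ ‖lam i‖ := by
      by_contra hcon
      apply hiF
      rw [hF, Finset.mem_filter, Set.Finite.mem_toFinset]
      exact ⟨hcon, hi⟩
    have h2 := norm_sub_norm_le (lam i) z₀
    rw [norm_sub_rev] at h2
    linarith
  by_cases hFe : F.Nonempty
  · obtain ⟨j, hj, hmin⟩ := F.exists_min_image (fun i => ‖z₀ - lam i‖ / ‖lam i‖) hFe
    have hPj : P j := (Finset.mem_filter.mp hj).2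
    have hd : 0 < ‖z₀ - lam j‖ := norm_pos_iff.mpr (sub_ne_zero.mpr (hne j hPj))
    refine ⟨min (1 / 2) (‖z₀ - lam j‖ / ‖lam j‖), by have := hpos j; positivity, ?_⟩
    intro i hi
    by_cases hiF : i ∈ F
    · have h1 := hmin i hiF
      have h2 := hpos i
      calc min (1 / 2) (‖z₀ - lam j‖ / ‖lam j‖) * ‖lam i‖
          ≤ (‖z₀ - lam i‖ / ‖lam i‖) * ‖lam i‖ := by
            gcongr; exact (min_le_right _ _).trans h1
        _ = _ := div_mul_cancel₀ _ h2.ne'
    · refine le_trans ?_ (hout i hi hiF)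
      gcongr
      exact min_le_left _ _
  · rw [Finset.not_nonempty_iff_eq_empty] at hFe
    refine ⟨1 / 2, by norm_num, fun i hi => hout i hi (by rw [hFe]; simp)⟩

lemma SS_diff_near {lam : ι → ℂ} {b : ι → ℝ} {q : ℕ}
    (tend : Tendsto (fun i => ‖lam i‖) cofinite atTop) (hb : ∀ i, 0 ≤ b i)
    (ge : ∀ i, 1 / 4 ≤ ‖lam i‖) (hs : Summable fun i => b i / ‖lam i‖ ^ (q + 1)) (z₀ : ℂ)
    (hne : ∀ i, b i ≠ 0 → z₀ ≠ lam i) :
    ∃ ε > 0, DifferentiableOn ℂ (SS lam b q) (Metric.ball z₀ ε) ∧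
      ∀ z ∈ Metric.ball z₀ ε, Summable (pf lam b q z) ∧ ∀ i, b i ≠ 0 → z ≠ lam i := by
  have hpos : ∀ i, 0 < ‖lam i‖ := fun i => by linarith [ge i]
  obtain ⟨κ, hκ, hsep⟩ := exists_sep tend (fun i => b i ≠ 0) z₀ hne hpos
  set ε := min 1 (κ / 8) with hε
  have hε0 : 0 < ε := by positivity
  have hsep2 : ∀ z ∈ Metric.ball z₀ ε, ∀ i, b i ≠ 0 → κ / 2 * ‖lam i‖ ≤ ‖z - lam i‖ := by
    intro z hz i hi
    rw [Metric.mem_ball, dist_eq_norm] at hz
    have h1 := hsep i hi
    have h2 : ‖z₀ - lam i‖ ≤ ‖z - lam i‖ + ‖z - z₀‖ := by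
      have : z₀ - lam i = (z - lam i) - (z - z₀) := by ring
      rw [this]; exact norm_sub_le _ _
    have h3 : ε ≤ κ / 8 := min_le_right _ _
    have h4 := ge i
    nlinarith
  have hbound : ∀ z ∈ Metric.ball z₀ ε, ∀ i, ‖pf lam b q z i‖ ≤
      (‖z₀‖ + 1) ^ q / (κ / 2) * (b i / ‖lam i‖ ^ (q + 1)) := by
    intro z hz i
    have h1 := pf_norm_le (q := q) (hb i) (by positivity : 0 < κ / 2) (hpos i) (hsep2 z hz i)
    refine h1.trans ?_
    rw [Metric.mem_ball, dist_eq_norm] at hz
    have h2 : ‖z‖ ≤ ‖z₀‖ + 1 := by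
      have h3 : ‖z‖ ≤ ‖z₀‖ + ‖z - z₀‖ := by
        calc ‖z‖ = ‖z₀ + (z - z₀)‖ := by congr 1; ring
          _ ≤ _ := norm_add_le _ _
      have h4 : ε ≤ 1 := min_le_left _ _
      linarith
    have h5 : 0 ≤ b i / ‖lam i‖ ^ (q + 1) := div_nonneg (hb i) (by positivity)
    gcongr
  have hsu : Summable (fun i => (‖z₀‖ + 1) ^ q / (κ / 2) * (b i / ‖lam i‖ ^ (q + 1))) :=
    hs.mul_left _
  refine ⟨ε, hε0, ?_, ?_⟩
  · apply differentiableOn_tsum_of_summable_norm hsu _ Metric.isOpen_ball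
    · intro i z hz
      exact hbound z hz i
    · intro i
      by_cases hbi : b i = 0
      · have : (fun w => pf lam b q w i) = fun _ => 0 := by funext w; simp [pf, hbi]
        rw [this]; exact differentiableOn_const _
      · intro z hz
        have h1 := hsep2 z hz i hbi
        have h2 : z - lam i ≠ 0 := by
          rw [← norm_pos_iff]
          have := hpos i
          have : 0 < κ / 2 * ‖lam i‖ := by positivity
          linarith
        have h3 : lam i ≠ 0 := norm_pos_iff.mp (hpos i)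
        unfold pf
        apply DifferentiableAt.differentiableWithinAt
        have e1 : DifferentiableAt ℂ (fun w : ℂ => (b i : ℂ) * (w / lam i) ^ q) z := by fun_prop
        have e2 : DifferentiableAt ℂ (fun w : ℂ => w - lam i) z := by fun_prop
        exact e1.div e2 h2
  · intro z hz
    refine ⟨Summable.of_norm_bounded hsu (hbound z hz), ?_⟩
    intro i hi heq
    have h1 := hsep2 z hz i hi
    rw [heq, sub_self, norm_zero] at h1
    have := hpos i
    have : 0 < κ / 2 * ‖lam i‖ := by positivity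
    linarith

/-- a simple pole of the reciprocal -/
lemma pole_local {g : ℂ → ℂ} (hg : Differentiable ℂ g) {l c : ℂ} (hc : c ≠ 0)
    (hd : HasDerivAt g c⁻¹ l) (h0 : g l = 0) :
    ∃ F : ℂ → ℂ, (∀ᶠ z in 𝓝 l, DifferentiableAt ℂ F z) ∧
      ∀ᶠ z in 𝓝[≠] l, (g z)⁻¹ - c / (z - l) = F z := by
  have hGd : Differentiable ℂ (dslope g l) := by
    rw [← differentiableOn_univ]
    rw [Complex.differentiableOn_dslope univ_mem]
    exact hg.differentiableOn
  have hGl : dslope g l l = c⁻¹ := by rw [dslope_same, hd.deriv]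
  have hGl0 : dslope g l l ≠ 0 := by rw [hGl]; exact inv_ne_zero hc
  set U : Set ℂ := {z | dslope g l z ≠ 0} with hU
  have hUo : IsOpen U := isOpen_ne_fun hGd.continuous continuous_const
  have hlU : l ∈ U := hGl0
  have hUn : U ∈ 𝓝 l := hUo.mem_nhds hlU
  set k : ℂ → ℂ := fun z => (dslope g l z)⁻¹ with hk
  have hkd : DifferentiableOn ℂ k U := fun z hz => ((hGd z).inv hz).differentiableWithinAt
  have hFd : DifferentiableOn ℂ (dslope k l) U := (Complex.differentiableOn_dslope hUn).mpr hkd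
  refine ⟨dslope k l, ?_, ?_⟩
  · filter_upwards [hUn] with z hz
    exact hFd.differentiableAt (hUo.mem_nhds hz)
  · filter_upwards [nhdsWithin_le_nhds hUn, self_mem_nhdsWithin] with z hz hz2
    have hz2' : z ≠ l := hz2
    have hzl : z - l ≠ 0 := sub_ne_zero.mpr hz2'
    have h1 : g z = (z - l) * dslope g l z := by
      have := sub_smul_dslope g l z
      rw [h0, sub_zero, smul_eq_mul] at this
      exact this.symm
    rw [dslope_of_ne _ hz2', slope_def_field, h1]
    simp only [hk]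
    rw [hGl, inv_inv, mul_inv]
    field_simp

/-- the entire difference -/
theorem Dat.ext {g : ℂ → ℂ} {lam : ι → ℂ} {a : ι → ℝ} (D : Dat g lam a) :
    ∃ h : ℂ → ℂ, Differentiable ℂ h ∧ ∀ z, z ≠ 0 → (∀ i, z ≠ lam i) →
      h z = (g z)⁻¹ - z⁻¹ - SS lam a 3 z := by
  classical
  have hpos : ∀ i, 0 < ‖lam i‖ := fun i => by linarith [D.ge i]
  have hlam0 : ∀ i, lam i ≠ 0 := fun i => norm_pos_iff.mp (hpos i)
  set f : ℂ → ℂ := fun z => (g z)⁻¹ - z⁻¹ - SS lam a 3 z with hf
  -- nearby regular points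
  have hreg : ∀ z₀, z₀ ≠ 0 → (∀ i, z₀ ≠ lam i) → ∀ᶠ z in 𝓝 z₀, DifferentiableAt ℂ f z := by
    intro z₀ h0 hne
    obtain ⟨ε, hε, hd, hnb⟩ := SS_diff_near (q := 3) D.tend (fun i => (D.apos i).le) D.ge
      (by simpa using D.sum) z₀ (fun i _ => hne i)
    have h1 : ∀ᶠ z in 𝓝 z₀, z ≠ 0 := isOpen_ne.mem_nhds h0
    filter_upwards [Metric.ball_mem_nhds z₀ hε, h1] with z hz hz0
    have hz1 := (hnb z hz).2
    have hg : g z ≠ 0 := by
      rw [Ne, D.zero_iff, not_or]
      refine ⟨hz0, ?_⟩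
      rintro ⟨i, hi⟩
      exact hz1 i (D.apos i).ne' hi
    have e1 : DifferentiableAt ℂ (fun z => (g z)⁻¹) z := (D.gdiff z).inv hg
    have e2 : DifferentiableAt ℂ (fun z : ℂ => z⁻¹) z := differentiableAt_inv hz0
    have e3 : DifferentiableAt ℂ (SS lam a 3) z := hd.differentiableAt (Metric.isOpen_ball.mem_nhds hz)
    exact (e1.sub e2).sub e3
  obtain ⟨h, hh, hval⟩ := exists_entire_ext f (by
    intro z₀
    by_cases h0 : z₀ = 0
    · subst h0
      obtain ⟨F, hF1, hF2⟩ := pole_local D.gdiff one_ne_zero (by simpa using D.d0)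
        ((D.zero_iff 0).mpr (Or.inl rfl))
      obtain ⟨ε, hε, hd, -⟩ := SS_diff_near (q := 3) D.tend (fun i => (D.apos i).le) D.ge
        (by simpa using D.sum) 0 (fun i _ => (hlam0 i).symm)
      refine ⟨fun z => F z - SS lam a 3 z, ?_, ?_⟩
      · filter_upwards [hF1, Metric.ball_mem_nhds 0 hε] with z hz1 hz2
        exact hz1.sub (hd.differentiableAt (Metric.isOpen_ball.mem_nhds hz2))
      · filter_upwards [hF2] with z hz
        simp only [hf]
        rw [← hz, sub_zero, one_div]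
    by_cases hl : ∃ j, z₀ = lam j
    · obtain ⟨j, rfl⟩ := hl
      have hcj : ((a j : ℝ) : ℂ) ≠ 0 := by exact_mod_cast (D.apos j).ne'
      obtain ⟨F, hF1, hF2⟩ := pole_local D.gdiff hcj
        (by have := D.dl j; push_cast at this; exact this)
        ((D.zero_iff (lam j)).mpr (Or.inr ⟨j, rfl⟩))
      set b : ι → ℝ := Function.update a j 0 with hb
      have hb0 : ∀ i, 0 ≤ b i := by
        intro i
        by_cases hij : i = j
        · subst hij; simp [hb]
        · rw [hb, Function.update_of_ne hij]; exact (D.apos i).le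
      have hba : ∀ i, b i ≤ a i := by
        intro i
        by_cases hij : i = j
        · subst hij; simp [hb, (D.apos _).le]
        · rw [hb, Function.update_of_ne hij]
      obtain ⟨ε, hε, hd, hsm⟩ := SS_diff_near (q := 3) (lam := lam) (b := b) D.tend hb0 D.ge
        (by
          refine Summable.of_nonneg_of_le (fun i => div_nonneg (hb0 i) (by positivity)) (fun i => ?_) D.sum
          have := hba i
          have := hpos i
          gcongr) (lam j) (by
          intro i hi heq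
          have : i = j := (D.inj heq).symm
          subst this
          simp [hb] at hi)
      refine ⟨fun z => F z - z⁻¹ - (a j / lam j) * ((z / lam j) ^ 2 + z / lam j + 1) - SS lam b 3 z,
        ?_, ?_⟩
      · have h1 : ∀ᶠ z in 𝓝 (lam j), z ≠ 0 := isOpen_ne.mem_nhds (hlam0 j)
        filter_upwards [hF1, Metric.ball_mem_nhds (lam j) hε, h1] with z hz1 hz2 hz3
        have e2 : DifferentiableAt ℂ (fun z : ℂ => z⁻¹) z := differentiableAt_inv hz3
        have e3 : DifferentiableAt ℂ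
          (fun z : ℂ => (a j / lam j) * ((z / lam j) ^ 2 + z / lam j + 1)) z := by fun_prop
        exact ((hz1.sub e2).sub e3).sub (hd.differentiableAt (Metric.isOpen_ball.mem_nhds hz2))
      · filter_upwards [hF2, nhdsWithin_le_nhds (Metric.ball_mem_nhds (lam j) hε),
          self_mem_nhdsWithin] with z hz1 hz2 hz3
        have hzj : z - lam j ≠ 0 := sub_ne_zero.mpr hz3
        have hsb := (hsm z hz2).1
        -- summability of the full series
        have heq : ∀ i, i ≠ j → pf lam b 3 z i = pf lam a 3 z i := by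
          intro i hij
          unfold pf
          rw [hb, Function.update_of_ne hij]
        have hbj : pf lam b 3 z j = 0 := by unfold pf; simp [hb]
        have hsa : Summable (pf lam a 3 z) := by
          have h2 : Summable (fun i => pf lam b 3 z i + if i = j then pf lam a 3 z j else 0) :=
            hsb.add (summable_of_ne_finset_zero (s := {j}) (fun i hi => by
              rw [Finset.mem_singleton] at hi; exact if_neg hi))
          refine h2.congr fun i => ?_
          by_cases hij : i = j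
          · subst hij; rw [if_pos rfl, hbj, zero_add]
          · rw [if_neg hij, add_zero, heq i hij]
        have hsplit : SS lam a 3 z = pf lam a 3 z j + SS lam b 3 z := by
          unfold SS
          rw [hsa.tsum_eq_add_tsum_ite j]
          congr 1
          refine tsum_congr fun i => ?_
          by_cases hij : i = j
          · subst hij; rw [if_pos rfl, hbj]
          · rw [if_neg hij, heq i hij]
        simp only [hf]
        rw [hsplit, ← hz1]
        have hpfj : pf lam a 3 z j = a j / (z - lam j) +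
            (a j / lam j) * ((z / lam j) ^ 2 + z / lam j + 1) := by
          unfold pf
          have := hlam0 j
          field_simp
          ring
        rw [hpfj]
        ring
    · push Not at hl
      exact ⟨f, hreg z₀ h0 hl, Eventually.of_forall fun _ => rfl⟩)
  refine ⟨h, hh, fun z hz0 hz1 => ?_⟩
  rw [hval z (hreg z hz0 hz1).self_of_nhds.continuousAt]

end Pool.Agent.Q108.ZF
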