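import Pool.Agent.Q108.ZF.Abs2

set_option autoImplicit false
open Filter Topology Complex ComplexConjugate Asymptotics Bornology

namespace Pool.Agent.Q108.ZF

variable {ι : Type*}

lemma norm_SS_le {lam : ι → ℂ} {a : ι → ℝ} {q : ℕ} {z : ℂ} {κ : ℝ} (ha : ∀ i, 0 ≤ a i)
    (hκ : 0 < κ) (hl : ∀ i, 0 < ‖lam i‖) (h : ∀ i, κ * ‖lam i‖ ≤ ‖z - lam i‖)
    (hs : Summable fun i => a i / ‖lam i‖ ^ (q + 1)) :
    ‖SS lam a q z‖ ≤ ‖z‖ ^ q / κ * ∑' i, a i / ‖lam i‖ ^ (q + 1) := by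
  unfold SS
  apply tsum_of_norm_bounded (hs.hasSum.mul_left _)
  intro i
  exact pf_norm_le (ha i) hκ (hl i) (fun _ => h i)

lemma summable_pf {lam : ι → ℂ} {a : ι → ℝ} {q : ℕ} {z : ℂ} {κ : ℝ} (ha : ∀ i, 0 ≤ a i)
    (hκ : 0 < κ) (hl : ∀ i, 0 < ‖lam i‖) (h : ∀ i, κ * ‖lam i‖ ≤ ‖z - lam i‖)
    (hs : Summable fun i => a i / ‖lam i‖ ^ (q + 1)) : Summable (pf lam a q z) :=
  Summable.of_norm_bounded (hs.mul_left _) (fun i => pf_norm_le (ha i) hκ (hl i) (fun _ => h i))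

lemma Dat.pos {g : ℂ → ℂ} {lam : ι → ℂ} {a : ι → ℝ} (D : Dat g lam a) (i : ι) : 0 < ‖lam i‖ := by
  linarith [D.ge i]

lemma Dat.re_ge {g : ℂ → ℂ} {lam : ι → ℂ} {a : ι → ℝ} (D : Dat g lam a) (i : ι) :
    1 / 4 * ‖lam i‖ ≤ (lam i).re := by
  have h1 := ca_gt
  have h2 := D.pos i
  have h3 : (lam i).re = ‖lam i‖ * Real.cos al := by
    rcases D.ray i with h | h
    · conv_lhs => rw [h]
      simp [e1_re, -Complex.ofReal_cos]
    · conv_lhs => rw [h]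
      simp [e1_re, -Complex.ofReal_cos]
  rw [h3]; nlinarith

lemma Dat.im_ge {g : ℂ → ℂ} {lam : ι → ℂ} {a : ι → ℝ} (D : Dat g lam a) (i : ι) :
    1 / 4 * ‖lam i‖ ≤ |(lam i).im| := by
  have h1 := sa_gt
  have h2 := D.pos i
  have h3 : |(lam i).im| = ‖lam i‖ * Real.sin al := by
    have h4 : 0 < ‖lam i‖ * Real.sin al := by have := sa_pos; positivity
    rcases D.ray i with h | h
    · conv_lhs => rw [h]
      simp only [Complex.mul_im, Complex.ofReal_re, Complex.ofReal_im, e1_im, zero_mul, add_zero]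
      exact abs_of_pos h4
    · conv_lhs => rw [h]
      simp only [Complex.mul_im, Complex.ofReal_re, Complex.ofReal_im, Complex.conj_im, e1_im,
        zero_mul, add_zero, mul_neg, abs_neg]
      exact abs_of_pos h4
  rw [h3]; nlinarith

lemma Dat.dist_of_re {g : ℂ → ℂ} {lam : ι → ℂ} {a : ι → ℝ} (D : Dat g lam a) {z : ℂ}
    (hz : z.re ≤ 0) (i : ι) : 1 / 4 * ‖lam i‖ ≤ ‖z - lam i‖ := by
  have h1 := D.re_ge i
  have h2 := Complex.abs_re_le_norm (z - lam i)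
  rw [Complex.sub_re] at h2
  have h3 := neg_abs_le (z.re - (lam i).re)
  linarith

lemma Dat.dist_of_real {g : ℂ → ℂ} {lam : ι → ℂ} {a : ι → ℝ} (D : Dat g lam a) (x : ℝ) (i : ι) :
    1 / 4 * ‖lam i‖ ≤ ‖(x : ℂ) - lam i‖ := by
  have h1 := D.im_ge i
  have h2 := Complex.abs_im_le_norm ((x : ℂ) - lam i)
  rw [Complex.sub_im, Complex.ofReal_im, zero_sub, abs_neg] at h2
  linarith

lemma Dat.ne_of_dist {g : ℂ → ℂ} {lam : ι → ℂ} {a : ι → ℝ} (D : Dat g lam a) {z : ℂ} {i : ι}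
    {κ : ℝ} (hκ : 0 < κ) (h : κ * ‖lam i‖ ≤ ‖z - lam i‖) : z ≠ lam i := by
  intro heq
  rw [heq, sub_self, norm_zero] at h
  have := D.pos i
  have : 0 < κ * ‖lam i‖ := by positivity
  linarith

/-- the circle hypothesis -/
def CircH (g : ℂ → ℂ) (lam : ι → ℂ) : Prop := ∃ B : ℝ, 1 ≤ B ∧ ∀ ρ : ℝ, 1 ≤ ρ →
    ∃ R : ℝ, ρ ≤ R ∧ R ≤ ρ + 8 ∧ (∀ i, (B * (1 + R))⁻¹ ≤ |R - ‖lam i‖|) ∧
      ∀ z : ℂ, ‖z‖ = R → ‖(g z)⁻¹‖ ≤ Real.exp (B * R ^ (9 / 5 : ℝ))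

/-- the decay on the positive axis -/
def PosH (g : ℂ → ℂ) : Prop := ∀ x : ℝ, 0 < x → ‖(g x)⁻¹‖ ≤ 1 / x

/-- the bound in the double cone -/
def ConeH (g : ℂ → ℂ) : Prop := ∃ C : ℝ, 0 ≤ C ∧ ∀ z : ℂ, 1 ≤ ‖z‖ → z.re ≤ 0 → |z.re| ≤ |z.im| →
  ‖(g z)⁻¹‖ ≤ C * ‖z‖

lemma rpow_le_pow {x : ℝ} (hx : 1 ≤ x) : x ≤ x ^ (9 / 5 : ℝ) := by
  conv_lhs => rw [← Real.rpow_one x]
  exact Real.rpow_le_rpow_of_exponent_le hx (by norm_num)

lemma rpow95_mul {x : ℝ} (hx : 0 ≤ x) : (9 * x) ^ (9 / 5 : ℝ) ≤ 81 * x ^ (9 / 5 : ℝ) := by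
  rw [Real.mul_rpow (by norm_num) hx]
  have : (9 : ℝ) ^ (9 / 5 : ℝ) ≤ 81 := by
    calc (9 : ℝ) ^ (9 / 5 : ℝ) ≤ 9 ^ (2 : ℝ) :=
          Real.rpow_le_rpow_of_exponent_le (by norm_num) (by norm_num)
      _ = 81 := by norm_num
  have h2 : 0 ≤ x ^ (9 / 5 : ℝ) := Real.rpow_nonneg hx _
  gcongr

lemma pow5_le_exp {x : ℝ} (hx : 0 ≤ x) : x ^ 5 ≤ 120 * Real.exp x := by
  have := Real.pow_div_factorial_le_exp x hx 5
  have h5 : ((5 : ℕ).factorial : ℝ) = 120 := by norm_num [Nat.factorial]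
  rw [h5, div_le_iff₀ (by norm_num)] at this
  linarith

/-- growth of the entire difference -/
theorem Dat.growth {g : ℂ → ℂ} {lam : ι → ℂ} {a : ι → ℝ} (D : Dat g lam a) (hc : CircH g lam)
    {h : ℂ → ℂ} (hd : Differentiable ℂ h) (hv : ∀ z, z ≠ 0 → (∀ i, z ≠ lam i) →
      h z = (g z)⁻¹ - z⁻¹ - SS lam a 3 z) :
    ∃ A B : ℝ, 0 ≤ A ∧ 0 ≤ B ∧ ∀ z, ‖h z‖ ≤ A * Real.exp (B * ‖z‖ ^ (9 / 5 : ℝ)) := by
  obtain ⟨B, hB, hcirc⟩ := hc
  set A4 := ∑' i, a i / ‖lam i‖ ^ 4 with hA4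
  have hA40 : 0 ≤ A4 := tsum_nonneg fun i => div_nonneg (D.apos i).le (by positivity)
  set A := 2 + 24000000 * B * A4 with hA
  have hA0 : 0 ≤ A := by positivity
  refine ⟨A * Real.exp (82 * B), 82 * B, by positivity, by positivity, ?_⟩
  intro z
  set ρ := max 1 ‖z‖ with hρ
  have hρ1 : 1 ≤ ρ := le_max_left _ _
  have hρz : ‖z‖ ≤ ρ := le_max_right _ _
  obtain ⟨R, hR1, hR2, hRd, hRg⟩ := hcirc ρ hρ1
  have hR0 : 0 < R := by linarith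
  have hR9 : R ≤ 9 * ρ := by linarith
  -- the bound on the circle
  have hcircle : ∀ w ∈ Metric.sphere (0 : ℂ) R, ‖h w‖ ≤ A * Real.exp (82 * B * ρ ^ (9 / 5 : ℝ)) := by
    intro w hw
    rw [mem_sphere_zero_iff_norm] at hw
    have hw0 : w ≠ 0 := by rw [← norm_pos_iff, hw]; exact hR0
    have hκ : 0 < (2 * B * (1 + R) ^ 2)⁻¹ := by positivity
    have hdist : ∀ i, (2 * B * (1 + R) ^ 2)⁻¹ * ‖lam i‖ ≤ ‖w - lam i‖ := by
      intro i
      have h1 : |R - ‖lam i‖| ≤ ‖w - lam i‖ := by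
        have := abs_norm_sub_norm_le w (lam i)
        rwa [hw] at this
      refine le_trans ?_ h1
      have hli := D.pos i
      rcases le_or_gt ‖lam i‖ (2 * R) with h2 | h2
      · refine le_trans ?_ (hRd i)
        calc (2 * B * (1 + R) ^ 2)⁻¹ * ‖lam i‖ ≤ (2 * B * (1 + R) ^ 2)⁻¹ * (2 * (1 + R)) := by
              gcongr; linarith
          _ = (B * (1 + R))⁻¹ := by
              field_simp
      · rw [abs_of_neg (by linarith)]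
        have h3 : (2 * B * (1 + R) ^ 2)⁻¹ ≤ 2⁻¹ := by
          apply inv_anti₀ (by norm_num)
          have : 1 ≤ (1 + R) ^ 2 := by nlinarith
          nlinarith
        have h4 : (2 * B * (1 + R) ^ 2)⁻¹ * ‖lam i‖ ≤ 2⁻¹ * ‖lam i‖ := by gcongr
        linarith
    have hne : ∀ i, w ≠ lam i := fun i => D.ne_of_dist hκ (hdist i)
    rw [hv w hw0 hne]
    have hS := norm_SS_le (q := 3) (fun i => (D.apos i).le) hκ D.pos hdist (by simpa using D.sum)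
    rw [hw] at hS
    have e3 : R ^ 3 / (2 * B * (1 + R) ^ 2)⁻¹ * A4 ≤ 2 * B * A4 * (1 + R) ^ 5 := by
      rw [div_inv_eq_mul]
      have : R ^ 3 ≤ (1 + R) ^ 3 := by gcongr; linarith
      calc R ^ 3 * (2 * B * (1 + R) ^ 2) * A4 ≤ (1 + R) ^ 3 * (2 * B * (1 + R) ^ 2) * A4 := by gcongr
        _ = _ := by ring
    have e4 : (1 + R) ^ 5 ≤ 12000000 * Real.exp (82 * B * ρ ^ (9 / 5 : ℝ)) := by
      have h1 : 1 + R ≤ 10 * ρ := by linarith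
      have h2 : ρ ≤ 82 * B * ρ ^ (9 / 5 : ℝ) := by
        have h5 := rpow_le_pow hρ1
        nlinarith
      calc (1 + R) ^ 5 ≤ (10 * ρ) ^ 5 := by gcongr
        _ = 100000 * ρ ^ 5 := by ring
        _ ≤ 100000 * (120 * Real.exp ρ) := by gcongr; exact pow5_le_exp (by linarith)
        _ ≤ 100000 * (120 * Real.exp (82 * B * ρ ^ (9 / 5 : ℝ))) := by gcongr
        _ = _ := by ring
    have e1 : ‖(g w)⁻¹‖ ≤ Real.exp (82 * B * ρ ^ (9 / 5 : ℝ)) := by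
      refine (hRg w hw).trans (Real.exp_le_exp.mpr ?_)
      have h1 : R ^ (9 / 5 : ℝ) ≤ (9 * ρ) ^ (9 / 5 : ℝ) := by gcongr
      have h2 := rpow95_mul (x := ρ) (by linarith)
      have h3 : 0 ≤ ρ ^ (9 / 5 : ℝ) := by positivity
      have h4 : R ^ (9 / 5 : ℝ) ≤ 81 * ρ ^ (9 / 5 : ℝ) := h1.trans h2
      nlinarith
    have e2 : ‖w⁻¹‖ ≤ Real.exp (82 * B * ρ ^ (9 / 5 : ℝ)) := by
      rw [norm_inv, hw]
      have : R⁻¹ ≤ 1 := inv_le_one_of_one_le₀ (by linarith)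
      refine this.trans (Real.one_le_exp (by positivity))
    have hE : 0 < Real.exp (82 * B * ρ ^ (9 / 5 : ℝ)) := Real.exp_pos _
    calc ‖(g w)⁻¹ - w⁻¹ - SS lam a 3 w‖ ≤ ‖(g w)⁻¹‖ + ‖w⁻¹‖ + ‖SS lam a 3 w‖ := by
          refine (norm_sub_le _ _).trans ?_
          gcongr
          exact norm_sub_le _ _
      _ ≤ Real.exp (82 * B * ρ ^ (9 / 5 : ℝ)) + Real.exp (82 * B * ρ ^ (9 / 5 : ℝ)) +
          2 * B * A4 * (12000000 * Real.exp (82 * B * ρ ^ (9 / 5 : ℝ))) := by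
          have h5 : 2 * B * A4 * (1 + R) ^ 5 ≤
              2 * B * A4 * (12000000 * Real.exp (82 * B * ρ ^ (9 / 5 : ℝ))) :=
            mul_le_mul_of_nonneg_left e4 (by positivity)
          have h6 : ‖SS lam a 3 w‖ ≤ 2 * B * A4 * (1 + R) ^ 5 := hS.trans e3
          linarith
      _ = _ := by rw [hA]; ring
  have hball := Complex.norm_le_of_forall_mem_frontier_norm_le (U := Metric.ball (0 : ℂ) R)
    Metric.isBounded_ball hd.diffContOnCl (C := A * Real.exp (82 * B * ρ ^ (9 / 5 : ℝ)))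
    (by
      intro w hw
      rw [frontier_ball (0 : ℂ) hR0.ne'] at hw
      exact hcircle w hw) (z := z) (by
      rw [closure_ball (0 : ℂ) hR0.ne']
      rw [Metric.mem_closedBall, dist_zero_right]
      linarith)
  refine hball.trans ?_
  rw [mul_assoc A, ← Real.exp_add]
  apply mul_le_mul_of_nonneg_left _ hA0
  apply Real.exp_le_exp.mpr
  have h1 : ρ ^ (9 / 5 : ℝ) ≤ 1 + ‖z‖ ^ (9 / 5 : ℝ) := by
    have h2 : 0 ≤ ‖z‖ ^ (9 / 5 : ℝ) := by positivity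
    rcases le_total ‖z‖ 1 with h3 | h3
    · rw [hρ, max_eq_left h3, Real.one_rpow]; linarith
    · rw [hρ, max_eq_right h3]; linarith
  nlinarith

/-- **first representation** -/
theorem Dat.rep3 {g : ℂ → ℂ} {lam : ι → ℂ} {a : ι → ℝ} (D : Dat g lam a) (hc : CircH g lam)
    (hp : PosH g) (hk : ConeH g) :
    ∃ c : ℕ → ℂ, ∀ z, z ≠ 0 → (∀ i, z ≠ lam i) →
      (g z)⁻¹ = z⁻¹ + ∑ j ∈ Finset.range 4, c j * z ^ j + SS lam a 3 z := by
  obtain ⟨h, hd, hv⟩ := D.ext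
  obtain ⟨A, B, hA, hB, hg⟩ := D.growth hc hd hv
  obtain ⟨C, hC, hk⟩ := hk
  set A4 := ∑' i, a i / ‖lam i‖ ^ 4 with hA4
  have hA40 : 0 ≤ A4 := tsum_nonneg fun i => div_nonneg (D.apos i).le (by positivity)
  set K := A * Real.exp B + C + 2 + 4 * A4 with hK
  have hAB : 0 ≤ A * Real.exp B := by positivity
  have hsmall : ∀ z : ℂ, ‖z‖ ≤ 1 → ‖h z‖ ≤ K * (1 + ‖z‖) ^ 3 := by
    intro z hz
    refine (hg z).trans ?_
    have h1 : ‖z‖ ^ (9 / 5 : ℝ) ≤ 1 := Real.rpow_le_one (norm_nonneg z) hz (by norm_num)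
    have h2 : A * Real.exp (B * ‖z‖ ^ (9 / 5 : ℝ)) ≤ A * Real.exp B := by
      gcongr
      nlinarith
    have h3 : 1 ≤ (1 + ‖z‖) ^ 3 := one_le_pow₀ (by linarith [norm_nonneg z])
    have h4 : A * Real.exp B ≤ K := by linarith
    have h5 : 0 ≤ K := by linarith
    nlinarith
  have hSb : ∀ z : ℂ, (∀ i, 1 / 4 * ‖lam i‖ ≤ ‖z - lam i‖) → ‖SS lam a 3 z‖ ≤ 4 * A4 * ‖z‖ ^ 3 := by
    intro z hz
    have := norm_SS_le (q := 3) (fun i => (D.apos i).le) (by norm_num : (0 : ℝ) < 1 / 4) D.pos hz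
      (by simpa using D.sum)
    calc ‖SS lam a 3 z‖ ≤ _ := this
      _ = _ := by rw [hA4]; ring
  have hlarge : ∀ z : ℂ, 1 ≤ ‖z‖ → (∀ i, 1 / 4 * ‖lam i‖ ≤ ‖z - lam i‖) →
      ‖(g z)⁻¹‖ ≤ (C + 1) * ‖z‖ → ‖h z‖ ≤ K * (1 + ‖z‖) ^ 3 := by
    intro z hz hdz hgz
    have hz0 : z ≠ 0 := by rw [← norm_pos_iff]; linarith
    have hne : ∀ i, z ≠ lam i := fun i => D.ne_of_dist (by norm_num : (0 : ℝ) < 1 / 4) (hdz i)
    rw [hv z hz0 hne]
    have h1 := hSb z hdz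
    have h2 : ‖z⁻¹‖ ≤ 1 := by rw [norm_inv]; exact inv_le_one_of_one_le₀ hz
    have h3 : ‖z‖ ≤ (1 + ‖z‖) ^ 3 := by nlinarith [norm_nonneg z, sq_nonneg ‖z‖]
    have h4 : ‖z‖ ^ 3 ≤ (1 + ‖z‖) ^ 3 := by gcongr; linarith
    have h5 : 1 ≤ (1 + ‖z‖) ^ 3 := one_le_pow₀ (by linarith [norm_nonneg z])
    calc ‖(g z)⁻¹ - z⁻¹ - SS lam a 3 z‖ ≤ ‖(g z)⁻¹‖ + ‖z⁻¹‖ + ‖SS lam a 3 z‖ := by
          refine (norm_sub_le _ _).trans ?_
          gcongr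
          exact norm_sub_le _ _
      _ ≤ (C + 1) * ‖z‖ + 1 + 4 * A4 * ‖z‖ ^ 3 := by linarith
      _ ≤ (C + 1) * (1 + ‖z‖) ^ 3 + (1 + ‖z‖) ^ 3 + 4 * A4 * (1 + ‖z‖) ^ 3 := by gcongr
      _ = (C + 2 + 4 * A4) * (1 + ‖z‖) ^ 3 := by ring
      _ ≤ _ := by
          apply mul_le_mul_of_nonneg_right _ (by positivity)
          rw [hK]; linarith
  have hall : ∀ z, ‖h z‖ ≤ 8 * K * (1 + ‖z‖) ^ 3 := by
    apply growth_all hd (by norm_num : (9 / 5 : ℝ) < 2) hg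
    · intro x hx
      have hn : ‖(x : ℂ)‖ = x := by rw [Complex.norm_real, Real.norm_eq_abs, abs_of_nonneg hx]
      rcases le_total x 1 with h1 | h1
      · have := hsmall x (by rw [hn]; exact h1)
        rwa [hn] at this
      · have := hlarge x (by rw [hn]; exact h1) (D.dist_of_real x) (by
          refine (hp x (by linarith)).trans ?_
          rw [hn]
          have : 1 / x ≤ 1 := by rw [div_le_one (by linarith)]; exact h1
          nlinarith)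
        rwa [hn] at this
    · intro z hre hcone
      rcases le_total ‖z‖ 1 with h1 | h1
      · exact hsmall z h1
      · refine hlarge z h1 (D.dist_of_re hre) ?_
        refine (hk z h1 hre hcone).trans ?_
        gcongr
        linarith
  obtain ⟨c, hc⟩ := poly_of_growth hd hall
  refine ⟨c, fun z h0 hne => ?_⟩
  have h1 := hv z h0 hne
  rw [hc z] at h1
  rw [h1]; ring

end Pool.Agent.Q108.ZF
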