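import Pool.Agent.Q108.ZF.Abs3

set_option autoImplicit false
open Filter Topology Complex ComplexConjugate Asymptotics Bornology

namespace Pool.Agent.Q108.ZF

variable {ι : Type*}

/-- representation of genus `q` -/
def Rep (g : ℂ → ℂ) (lam : ι → ℂ) (a : ι → ℝ) (q : ℕ) (c : ℕ → ℂ) : Prop :=
  ∀ z, z ≠ 0 → (∀ i, z ≠ lam i) →
    (g z)⁻¹ = z⁻¹ + ∑ j ∈ Finset.range (q + 1), c j * z ^ j + SS lam a q z

/-- a good direction -/
def Dir (lam : ι → ℂ) (d : ℂ) : Prop :=
  ‖d‖ = 1 ∧ ∀ x : ℝ, 0 < x → ∀ i, 1 / 4 * ‖lam i‖ ≤ ‖(x : ℂ) * d - lam i‖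

lemma Dir.ne_zero {lam : ι → ℂ} {d : ℂ} (h : Dir lam d) {x : ℝ} (hx : 0 < x) : (x : ℂ) * d ≠ 0 := by
  rw [← norm_pos_iff, norm_mul, h.1, mul_one, Complex.norm_real, Real.norm_eq_abs, abs_of_pos hx]
  exact hx

lemma Dir.norm {lam : ι → ℂ} {d : ℂ} (h : Dir lam d) {x : ℝ} (hx : 0 < x) : ‖(x : ℂ) * d‖ = x := by
  rw [norm_mul, h.1, mul_one, Complex.norm_real, Real.norm_eq_abs, abs_of_pos hx]

/-- the top coefficient vanishes -/
lemma top_zero {g : ℂ → ℂ} {lam : ι → ℂ} {a : ι → ℝ} (D : Dat g lam a) {q : ℕ} {c : ℕ → ℂ}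
    (hr : Rep g lam a q c) (hs : Summable fun i => a i / ‖lam i‖ ^ (q + 1)) {d : ℂ}
    (hd : Dir lam d) {K : ℝ} (hb : ∀ x : ℝ, 1 ≤ x → ‖(g (x * d))⁻¹‖ ≤ K * x ^ q / x) : c q = 0 := by
  have hd0 : d ≠ 0 := by rw [← norm_pos_iff, hd.1]; norm_num
  -- the normalised series tends to zero
  have t1 : Tendsto (fun x : ℝ => ∑' i, pf lam a q (x * d) i / (x : ℂ) ^ q) atTop (𝓝 (∑' _ : ι, (0 : ℂ))) := by
    apply tendsto_tsum_of_dominated_convergence (bound := fun i => 4 * (a i / ‖lam i‖ ^ (q + 1)))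
      (hs.mul_left 4)
    · intro i
      have hli := D.pos i
      -- each term is O(1/x)
      rw [tendsto_zero_iff_norm_tendsto_zero]
      have hev : ∀ᶠ x : ℝ in atTop, ‖pf lam a q (x * d) i / (x : ℂ) ^ q‖ ≤
          (a i / ‖lam i‖ ^ q) / (x - ‖lam i‖) := by
        filter_upwards [eventually_gt_atTop ‖lam i‖] with x hx
        have hx0 : 0 < x := hli.trans hx
        unfold pf
        rw [norm_div, norm_div, norm_mul, norm_pow, norm_div, hd.norm hx0, norm_pow,
          Complex.norm_real, Complex.norm_real, Real.norm_eq_abs, Real.norm_eq_abs,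
          abs_of_pos (D.apos i), abs_of_pos hx0]
        have h1 : x - ‖lam i‖ ≤ ‖(x : ℂ) * d - lam i‖ := by
          have := norm_sub_norm_le ((x : ℂ) * d) (lam i)
          rwa [hd.norm hx0] at this
        have h2 : 0 < x - ‖lam i‖ := by linarith
        have h3 : a i * (x / ‖lam i‖) ^ q / ‖(x : ℂ) * d - lam i‖ / x ^ q =
            (a i / ‖lam i‖ ^ q) / ‖(x : ℂ) * d - lam i‖ := by
          rw [div_pow]
          have : ‖(x : ℂ) * d - lam i‖ ≠ 0 := by linarith
          field_simp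
        rw [h3]
        have := D.apos i
        gcongr
      refine squeeze_zero' (Eventually.of_forall fun x => norm_nonneg _) hev ?_
      apply Tendsto.div_atTop tendsto_const_nhds
      exact tendsto_atTop_add_const_right _ _ tendsto_id
    · filter_upwards [eventually_gt_atTop 0] with x hx
      intro i
      have h1 := pf_norm_le (q := q) (D.apos i).le (by norm_num : (0 : ℝ) < 1 / 4) (D.pos i)
        (fun _ => hd.2 x hx i)
      rw [hd.norm hx] at h1
      rw [norm_div, norm_pow, Complex.norm_real, Real.norm_eq_abs, abs_of_pos hx,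
        div_le_iff₀ (by positivity)]
      refine h1.trans (le_of_eq ?_)
      field_simp
  rw [tsum_zero] at t1
  -- the left side
  have t0 : Tendsto (fun x : ℝ => (g (x * d))⁻¹ / (x : ℂ) ^ q) atTop (𝓝 0) := by
    rw [tendsto_zero_iff_norm_tendsto_zero]
    have hK : Tendsto (fun x : ℝ => K / x) atTop (𝓝 0) := tendsto_const_nhds.div_atTop tendsto_id
    refine squeeze_zero' (Eventually.of_forall fun x => norm_nonneg _) ?_ hK
    filter_upwards [eventually_ge_atTop 1] with x hx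
    have hx0 : 0 < x := by linarith
    rw [norm_div, norm_pow, Complex.norm_real, Real.norm_eq_abs, abs_of_pos hx0,
      div_le_iff₀ (by positivity)]
    refine (hb x hx).trans (le_of_eq ?_)
    ring
  have t2 : Tendsto (fun x : ℝ => ((x : ℂ) * d)⁻¹ / (x : ℂ) ^ q) atTop (𝓝 0) := by
    rw [tendsto_zero_iff_norm_tendsto_zero]
    have hK : Tendsto (fun x : ℝ => 1 / x) atTop (𝓝 0) := tendsto_const_nhds.div_atTop tendsto_id
    refine squeeze_zero' (Eventually.of_forall fun x => norm_nonneg _) ?_ hK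
    filter_upwards [eventually_ge_atTop 1] with x hx
    have hx0 : 0 < x := by linarith
    rw [norm_div, norm_inv, hd.norm hx0, norm_pow, Complex.norm_real, Real.norm_eq_abs,
      abs_of_pos hx0, one_div]
    exact div_le_self (by positivity) (one_le_pow₀ hx)
  have t3 : Tendsto (fun x : ℝ => ∑ j ∈ Finset.range q, c j * ((x : ℂ) * d) ^ j / (x : ℂ) ^ q)
      atTop (𝓝 (∑ j ∈ Finset.range q, (0 : ℂ))) := by
    apply tendsto_finsetSum
    intro j hj
    rw [Finset.mem_range] at hj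
    rw [tendsto_zero_iff_norm_tendsto_zero]
    have hK : Tendsto (fun x : ℝ => ‖c j‖ / x) atTop (𝓝 0) := tendsto_const_nhds.div_atTop tendsto_id
    refine squeeze_zero' (Eventually.of_forall fun x => norm_nonneg _) ?_ hK
    filter_upwards [eventually_ge_atTop 1] with x hx
    have hx0 : 0 < x := by linarith
    rw [norm_div, norm_mul, norm_pow, hd.norm hx0, norm_pow, Complex.norm_real, Real.norm_eq_abs,
      abs_of_pos hx0]
    obtain ⟨m, rfl⟩ := Nat.exists_eq_add_of_lt hj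
    rw [div_le_div_iff₀ (by positivity) hx0]
    have h1 : x ^ (j + m + 1) = x ^ j * x * x ^ m := by ring
    rw [h1]
    have h2 : 1 ≤ x ^ m := one_le_pow₀ hx
    have h3 : 0 ≤ ‖c j‖ * (x ^ j * x) := by positivity
    nlinarith
  rw [Finset.sum_const_zero] at t3
  have t4 : Tendsto (fun x : ℝ => (g (x * d))⁻¹ / (x : ℂ) ^ q - ((x : ℂ) * d)⁻¹ / (x : ℂ) ^ q -
      ∑ j ∈ Finset.range q, c j * ((x : ℂ) * d) ^ j / (x : ℂ) ^ q -
      ∑' i, pf lam a q (x * d) i / (x : ℂ) ^ q) atTop (𝓝 (0 - 0 - 0 - 0)) :=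
    ((t0.sub t2).sub t3).sub t1
  have t5 : Tendsto (fun _ : ℝ => c q * d ^ q) atTop (𝓝 (0 - 0 - 0 - 0)) := by
    refine t4.congr' ?_
    filter_upwards [eventually_ge_atTop 1] with x hx
    have hx0 : 0 < x := by linarith
    have hxc : (x : ℂ) ≠ 0 := by exact_mod_cast hx0.ne'
    have h1 := hr (x * d) (hd.ne_zero hx0)
      (fun i => D.ne_of_dist (by norm_num : (0 : ℝ) < 1 / 4) (hd.2 x hx0 i))
    rw [h1, tsum_div_const, ← Finset.sum_div, Finset.sum_range_succ]
    unfold SS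
    have h2 : c q * ((x : ℂ) * d) ^ q = c q * d ^ q * (x : ℂ) ^ q := by rw [mul_pow]; ring
    rw [h2]
    field_simp
    ring
  have h6 := tendsto_nhds_unique t5 tendsto_const_nhds
  simp only [sub_zero] at h6
  have h7 : c q * d ^ q = 0 := by rw [← h6]
  rcases mul_eq_zero.mp h7 with h | h
  · exact h
  · exact absurd h (pow_ne_zero _ hd0)

/-- the algebraic identity for the real part of a term -/
lemma term_identity (x : ℝ) (d l : ℂ) (hd : ‖d‖ = 1) (p : ℕ) (hl : l ≠ 0)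
    (hxl : (x : ℂ) * d - l ≠ 0) :
    conj d ^ p * (((x : ℂ) * d / l) ^ (p + 1) / ((x : ℂ) * d - l)) =
      (x ^ (p + 1) / (‖l‖ ^ (2 * (p + 1)) * ‖(x : ℂ) * d - l‖ ^ 2) : ℝ) *
        ((x : ℂ) * conj l ^ (p + 1) - d * conj l ^ (p + 2)) := by
  have h1 : conj d * d = 1 := by
    rw [← Complex.normSq_eq_conj_mul_self, Complex.normSq_eq_norm_sq, hd]; norm_num
  have h2 : (‖l‖ : ℂ) ^ 2 = conj l * l := by
    rw [← Complex.normSq_eq_conj_mul_self, Complex.normSq_eq_norm_sq]; push_cast; ring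
  have h3 : (‖(x : ℂ) * d - l‖ : ℂ) ^ 2 = ((x : ℂ) * conj d - conj l) * ((x : ℂ) * d - l) := by
    have : (x : ℂ) * conj d - conj l = conj ((x : ℂ) * d - l) := by simp
    rw [this, ← Complex.normSq_eq_conj_mul_self, Complex.normSq_eq_norm_sq]; push_cast; ring
  have hcl : conj l ≠ 0 := by simpa using hl
  have hcx : (x : ℂ) * conj d - conj l ≠ 0 := by
    have : (x : ℂ) * conj d - conj l = conj ((x : ℂ) * d - l) := by simp
    rw [this]; exact (map_ne_zero _).mpr hxl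
  push_cast
  rw [pow_mul, h2, h3]
  have h4 : (x : ℂ) * conj l ^ (p + 1) - d * conj l ^ (p + 2) =
      conj l ^ (p + 1) * d * ((x : ℂ) * conj d - conj l) := by
    have : (x : ℂ) * conj l ^ (p + 1) = (x : ℂ) * conj l ^ (p + 1) * (conj d * d) := by rw [h1, mul_one]
    rw [this]; ring
  rw [h4]
  have h5 : conj d ^ p * ((x : ℂ) * d / l) ^ (p + 1) = x ^ (p + 1) * d / l ^ (p + 1) := by
    rw [div_pow, mul_pow]
    have : conj d ^ p * (x ^ (p + 1) * d ^ (p + 1) / l ^ (p + 1)) =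
        (conj d * d) ^ p * (x ^ (p + 1) * d / l ^ (p + 1)) := by
      rw [mul_pow]; ring
    rw [this, h1, one_pow, one_mul]
  rw [← mul_div_assoc, h5, mul_pow]
  field_simp

/-- summability of the next order -/
lemma next_summable {g : ℂ → ℂ} {lam : ι → ℂ} {a : ι → ℝ} (D : Dat g lam a) {p : ℕ} {c : ℕ → ℂ}
    (hr : Rep g lam a (p + 1) c) (hc0 : c (p + 1) = 0)
    (hs : Summable fun i => a i / ‖lam i‖ ^ (p + 1 + 1)) {d : ℂ}
    (hd : Dir lam d) {K : ℝ} (hb : ∀ x : ℝ, 1 ≤ x → ‖(g (x * d))⁻¹‖ ≤ K * x ^ p)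
    {s c0 : ℝ} (hs1 : |s| ≤ 1) (hc : 0 < c0)
    (hsg1 : ∀ i, c0 * ‖lam i‖ ^ (p + 1) ≤ s * (conj (lam i) ^ (p + 1)).re)
    (hsg2 : ∀ i, s * (d * conj (lam i) ^ (p + 2)).re ≤ 0) :
    Summable fun i => a i / ‖lam i‖ ^ (p + 1) := by
  classical
  set K' := K + 1 + ∑ j ∈ Finset.range (p + 1), ‖c j‖ with hK'
  have hSb : ∀ x : ℝ, 1 ≤ x → ‖SS lam a (p + 1) (x * d)‖ ≤ K' * x ^ p := by
    intro x hx
    have hx0 : 0 < x := by linarith
    have h1 := hr (x * d) (hd.ne_zero hx0)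
      (fun i => D.ne_of_dist (by norm_num : (0 : ℝ) < 1 / 4) (hd.2 x hx0 i))
    rw [Finset.sum_range_succ, hc0, zero_mul, add_zero] at h1
    have h2 : SS lam a (p + 1) (x * d) = (g (x * d))⁻¹ - ((x : ℂ) * d)⁻¹ -
        ∑ j ∈ Finset.range (p + 1), c j * ((x : ℂ) * d) ^ j := by rw [h1]; ring
    rw [h2]
    have hxp : 1 ≤ x ^ p := one_le_pow₀ hx
    have h3 : ‖((x : ℂ) * d)⁻¹‖ ≤ x ^ p := by
      rw [norm_inv, hd.norm hx0]
      exact (inv_le_one_of_one_le₀ hx).trans hxp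
    have h4 : ‖∑ j ∈ Finset.range (p + 1), c j * ((x : ℂ) * d) ^ j‖ ≤
        (∑ j ∈ Finset.range (p + 1), ‖c j‖) * x ^ p := by
      refine (norm_sum_le _ _).trans ?_
      rw [Finset.sum_mul]
      apply Finset.sum_le_sum
      intro j hj
      rw [norm_mul, norm_pow, hd.norm hx0]
      have : x ^ j ≤ x ^ p := pow_le_pow_right₀ hx (by rw [Finset.mem_range] at hj; omega)
      gcongr
    calc _ ≤ ‖(g (x * d))⁻¹‖ + ‖((x : ℂ) * d)⁻¹‖ +
          ‖∑ j ∈ Finset.range (p + 1), c j * ((x : ℂ) * d) ^ j‖ := by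
          refine (norm_sub_le _ _).trans ?_
          gcongr
          exact norm_sub_le _ _
      _ ≤ K * x ^ p + x ^ p + (∑ j ∈ Finset.range (p + 1), ‖c j‖) * x ^ p := by
          have := hb x hx
          linarith
      _ = _ := by rw [hK']; ring
  refine summable_of_sum_le (c := 4 * K' / c0) (fun i => div_nonneg (D.apos i).le (by positivity)) ?_
  intro F
  -- choose a large x
  set x : ℝ := 1 + ∑ i ∈ F, ‖lam i‖ with hx
  have hx1 : 1 ≤ x := by
    have : 0 ≤ ∑ i ∈ F, ‖lam i‖ := Finset.sum_nonneg fun i _ => norm_nonneg _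
    linarith
  have hx0 : 0 < x := by linarith
  have hxF : ∀ i ∈ F, ‖lam i‖ ≤ x := by
    intro i hi
    have := Finset.single_le_sum (f := fun i => ‖lam i‖) (fun j _ => norm_nonneg _) hi
    linarith
  have hdist := hd.2 x hx0
  -- the real parts
  set T : ι → ℝ := fun i => s * (conj d ^ p * pf lam a (p + 1) (x * d) i).re with hT
  have hTval : ∀ i, c0 * (a i * (x ^ (p + 2) / (‖lam i‖ ^ (p + 1) * ‖(x : ℂ) * d - lam i‖ ^ 2))) ≤ T i := by
    intro i
    have hli := D.pos i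
    have hl0 : lam i ≠ 0 := norm_pos_iff.mp hli
    have hxl : (x : ℂ) * d - lam i ≠ 0 := by
      rw [← norm_pos_iff]
      have := hdist i
      linarith
    have hid := term_identity x d (lam i) hd.1 p hl0 hxl
    have e : conj d ^ p * pf lam a (p + 1) (x * d) i = ((a i * (x ^ (p + 1) /
        (‖lam i‖ ^ (2 * (p + 1)) * ‖(x : ℂ) * d - lam i‖ ^ 2)) : ℝ) : ℂ) *
        ((x : ℂ) * conj (lam i) ^ (p + 1) - d * conj (lam i) ^ (p + 2)) := by
      unfold pf
      rw [mul_div_assoc, ← mul_assoc, mul_comm (conj d ^ p), mul_assoc, hid]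
      push_cast; ring
    have hTi : T i = (a i * (x ^ (p + 1) / (‖lam i‖ ^ (2 * (p + 1)) * ‖(x : ℂ) * d - lam i‖ ^ 2))) *
        (x * (s * (conj (lam i) ^ (p + 1)).re) - s * (d * conj (lam i) ^ (p + 2)).re) := by
      rw [hT]
      simp only
      rw [e, Complex.re_ofReal_mul, Complex.sub_re, Complex.re_ofReal_mul]
      ring
    rw [hTi]
    have h1 := hsg1 i
    have h2 := hsg2 i
    have ha := D.apos i
    have hn : 0 < ‖(x : ℂ) * d - lam i‖ := norm_pos_iff.mpr hxl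
    have h3 : x * (c0 * ‖lam i‖ ^ (p + 1)) ≤
        x * (s * (conj (lam i) ^ (p + 1)).re) - s * (d * conj (lam i) ^ (p + 2)).re := by
      have := mul_le_mul_of_nonneg_left h1 hx0.le
      linarith
    calc c0 * (a i * (x ^ (p + 2) / (‖lam i‖ ^ (p + 1) * ‖(x : ℂ) * d - lam i‖ ^ 2)))
        = (a i * (x ^ (p + 1) / (‖lam i‖ ^ (2 * (p + 1)) * ‖(x : ℂ) * d - lam i‖ ^ 2))) *
          (x * (c0 * ‖lam i‖ ^ (p + 1))) := by
          have e1 : ‖lam i‖ ^ (2 * (p + 1)) = ‖lam i‖ ^ (p + 1) * ‖lam i‖ ^ (p + 1) := by ring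
          have e2 : x ^ (p + 2) = x ^ (p + 1) * x := by ring
          rw [e1, e2]
          field_simp
      _ ≤ _ := by gcongr
  have hTnn : ∀ i, 0 ≤ T i := by
    intro i
    refine le_trans ?_ (hTval i)
    have := D.apos i
    positivity
  have hpf : Summable (pf lam a (p + 1) (x * d)) :=
    summable_pf (fun i => (D.apos i).le) (by norm_num : (0 : ℝ) < 1 / 4) D.pos hdist hs
  have hTs : HasSum T (s * (conj d ^ p * SS lam a (p + 1) (x * d)).re) := by
    have h1 : HasSum (fun i => conj d ^ p * pf lam a (p + 1) (x * d) i)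
        (conj d ^ p * SS lam a (p + 1) (x * d)) := hpf.hasSum.mul_left _
    exact (Complex.hasSum_re h1).mul_left s
  have hTle : ∑ i ∈ F, T i ≤ K' * x ^ p := by
    have h1 : ∑ i ∈ F, T i ≤ s * (conj d ^ p * SS lam a (p + 1) (x * d)).re :=
      sum_le_hasSum F (fun i _ => hTnn i) hTs
    refine h1.trans ?_
    have h2 : s * (conj d ^ p * SS lam a (p + 1) (x * d)).re ≤
        |s| * ‖conj d ^ p * SS lam a (p + 1) (x * d)‖ := by
      refine (le_abs_self _).trans ?_
      rw [abs_mul]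
      gcongr
      exact Complex.abs_re_le_norm _
    have h3 : ‖conj d ^ p * SS lam a (p + 1) (x * d)‖ ≤ K' * x ^ p := by
      rw [norm_mul, norm_pow, Complex.norm_conj, hd.1, one_pow, one_mul]
      exact hSb x hx1
    have h4 := norm_nonneg (conj d ^ p * SS lam a (p + 1) (x * d))
    nlinarith [abs_nonneg s]
  have hlow : ∀ i ∈ F, c0 / 4 * x ^ p * (a i / ‖lam i‖ ^ (p + 1)) ≤ T i := by
    intro i hi
    refine le_trans ?_ (hTval i)
    have hli := D.pos i
    have ha := D.apos i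
    have h1 : ‖(x : ℂ) * d - lam i‖ ≤ 2 * x := by
      calc ‖(x : ℂ) * d - lam i‖ ≤ ‖(x : ℂ) * d‖ + ‖lam i‖ := norm_sub_le _ _
        _ ≤ x + x := by rw [hd.norm hx0]; linarith [hxF i hi]
        _ = _ := by ring
    have hn : 0 < ‖(x : ℂ) * d - lam i‖ := by linarith [hdist i]
    have h2 : ‖(x : ℂ) * d - lam i‖ ^ 2 ≤ 4 * x ^ 2 := by
      calc ‖(x : ℂ) * d - lam i‖ ^ 2 ≤ (2 * x) ^ 2 := by gcongr
        _ = _ := by ring
    calc c0 / 4 * x ^ p * (a i / ‖lam i‖ ^ (p + 1))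
        = c0 * (a i * (x ^ (p + 2) / (‖lam i‖ ^ (p + 1) * (4 * x ^ 2)))) := by
          have e2 : x ^ (p + 2) = x ^ p * x ^ 2 := by ring
          rw [e2]
          field_simp
      _ ≤ _ := by gcongr
  have hsum : c0 / 4 * x ^ p * ∑ i ∈ F, a i / ‖lam i‖ ^ (p + 1) ≤ K' * x ^ p := by
    rw [Finset.mul_sum]
    exact (Finset.sum_le_sum hlow).trans hTle
  have hxp : 0 < x ^ p := by positivity
  rw [le_div_iff₀ hc]
  have h5 : (c0 / 4 * ∑ i ∈ F, a i / ‖lam i‖ ^ (p + 1)) * x ^ p ≤ K' * x ^ p := by linarith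
  have h6 := le_of_mul_le_mul_right h5 hxp
  linarith

/-- lowering the genus -/
lemma lower {g : ℂ → ℂ} {lam : ι → ℂ} {a : ι → ℝ} (D : Dat g lam a) {p : ℕ} {c : ℕ → ℂ}
    (hr : Rep g lam a (p + 1) c) (hc0 : c (p + 1) = 0)
    (hs : Summable fun i => a i / ‖lam i‖ ^ (p + 1)) : ∃ c' : ℕ → ℂ, Rep g lam a p c' := by
  classical
  set S : ℂ := ∑' i, (a i : ℂ) / lam i ^ (p + 1) with hS
  have hsS : Summable fun i => (a i : ℂ) / lam i ^ (p + 1) := by
    refine Summable.of_norm_bounded hs (fun i => ?_)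
    rw [norm_div, norm_pow, Complex.norm_real, Real.norm_eq_abs, abs_of_pos (D.apos i)]
  refine ⟨Function.update c p (c p + S), ?_⟩
  intro z h0 hne
  rw [hr z h0 hne, Finset.sum_range_succ, hc0, zero_mul, add_zero, Finset.sum_range_succ,
    Finset.sum_range_succ, Function.update_self]
  have e1 : ∑ j ∈ Finset.range p, Function.update c p (c p + S) j * z ^ j =
      ∑ j ∈ Finset.range p, c j * z ^ j := by
    refine Finset.sum_congr rfl fun j hj => ?_
    rw [Function.update_of_ne (by rw [Finset.mem_range] at hj; omega)]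
  rw [e1]
  obtain ⟨κ, hκ, hsep⟩ := exists_sep D.tend (fun _ => True) z (fun i _ => hne i) D.pos
  have hsp : Summable (pf lam a p z) :=
    summable_pf (fun i => (D.apos i).le) hκ D.pos (fun i => hsep i trivial) hs
  have e2 : SS lam a (p + 1) z = SS lam a p z + S * z ^ p := by
    unfold SS
    rw [hS, ← tsum_mul_right, ← hsp.tsum_add (hsS.mul_right _)]
    refine tsum_congr fun i => ?_
    unfold pf
    have hl0 : lam i ≠ 0 := norm_pos_iff.mp (D.pos i)
    have hzl : z - lam i ≠ 0 := sub_ne_zero.mpr (hne i)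
    rw [div_pow, div_pow]
    field_simp
    ring
  rw [e2]
  ring

end Pool.Agent.Q108.ZF
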