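import Pool.Agent.Q108.ZF.Abs4

set_option autoImplicit false
open Filter Topology Complex ComplexConjugate Asymptotics Bornology

namespace Pool.Agent.Q108.ZF

variable {ι : Type*}

lemma e1_pow (n : ℕ) : e1 ^ n = Complex.exp (((n * al : ℝ) : ℂ) * I) := by
  unfold e1
  rw [← Complex.exp_nat_mul]
  congr 1; push_cast; ring

lemma e1_pow_re (n : ℕ) : (e1 ^ n).re = Real.cos (n * al) := by
  rw [e1_pow, Complex.exp_ofReal_mul_I_re]

lemma conj_e1_pow_re (n : ℕ) : (conj e1 ^ n).re = Real.cos (n * al) := by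
  rw [← map_pow, Complex.conj_re, e1_pow_re]

lemma Dat.conj_pow_re {g : ℂ → ℂ} {lam : ι → ℂ} {a : ι → ℝ} (D : Dat g lam a) (n : ℕ) (i : ι) :
    (conj (lam i) ^ n).re = ‖lam i‖ ^ n * Real.cos (n * al) := by
  rcases D.ray i with h | h
  · conv_lhs => rw [h]
    rw [map_mul, mul_pow, Complex.conj_ofReal, ← Complex.ofReal_pow, Complex.re_ofReal_mul,
      conj_e1_pow_re]
  · conv_lhs => rw [h]
    rw [map_mul, mul_pow, Complex.conj_ofReal, ← Complex.ofReal_pow, Complex.re_ofReal_mul,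
      Complex.conj_conj, e1_pow_re]

lemma sqrt2_gt : 1.4 < Real.sqrt 2 := by
  rw [Real.lt_sqrt (by norm_num)]; norm_num

lemma cos_three_al : Real.cos (3 * al) = -(Real.sqrt 2 / 2) := by
  have : 3 * al = Real.pi / 4 + Real.pi := by unfold al; ring
  rw [this, Real.cos_add_pi, Real.cos_pi_div_four]

lemma cos_four_al : Real.cos (4 * al) = 1 / 2 := by
  have : 4 * al = 2 * (2 * al) := by ring
  rw [this, Real.cos_two_mul, cos_two_al]
  have := sqrt3_sq
  nlinarith

/-- the second direction -/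
noncomputable def d2 : ℂ := Complex.exp (((3 * Real.pi / 4 : ℝ) : ℂ) * I)

lemma norm_d2 : ‖d2‖ = 1 := Complex.norm_exp_ofReal_mul_I _

lemma d2_re : d2.re = -(Real.sqrt 2 / 2) := by
  unfold d2
  rw [Complex.exp_ofReal_mul_I_re]
  have : 3 * Real.pi / 4 = Real.pi - Real.pi / 4 := by ring
  rw [this, Real.cos_pi_sub, Real.cos_pi_div_four]

lemma d2_im : d2.im = Real.sqrt 2 / 2 := by
  unfold d2
  rw [Complex.exp_ofReal_mul_I_im]
  have : 3 * Real.pi / 4 = Real.pi - Real.pi / 4 := by ring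
  rw [this, Real.sin_pi_sub, Real.sin_pi_div_four]

lemma d2_e1 : d2 * e1 ^ 3 = 1 := by
  rw [e1_pow, d2, ← Complex.exp_add]
  have : ((3 * Real.pi / 4 : ℝ) : ℂ) * I + (((3 : ℕ) * al : ℝ) : ℂ) * I = 2 * Real.pi * I := by
    unfold al; push_cast; ring
  rw [this, Complex.exp_two_pi_mul_I]

lemma d2_conj_e1 : (d2 * conj e1 ^ 3).re = 0 := by
  have h : conj e1 ^ 3 = Complex.exp ((-((3 : ℕ) * al) : ℝ) * I) := by
    rw [← map_pow, e1_pow, ← Complex.exp_conj]
    congr 1
    rw [map_mul, Complex.conj_ofReal, Complex.conj_I]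
    push_cast; ring
  rw [h, d2, ← Complex.exp_add]
  have : ((3 * Real.pi / 4 : ℝ) : ℂ) * I + ((-((3 : ℕ) * al) : ℝ) : ℂ) * I =
      ((-(Real.pi / 2) : ℝ) : ℂ) * I := by
    unfold al; push_cast; ring
  rw [this, Complex.exp_ofReal_mul_I_re, Real.cos_neg, Real.cos_pi_div_two]

/-- **the final representation** -/
theorem Dat.final {g : ℂ → ℂ} {lam : ι → ℂ} {a : ι → ℝ} (D : Dat g lam a) (hc : CircH g lam)
    (hp : PosH g) (hk : ConeH g) :
    Summable (fun i => a i / ‖lam i‖) ∧ ∀ z, z ≠ 0 → (∀ i, z ≠ lam i) →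
      (g z)⁻¹ = z⁻¹ + ∑' i, (a i : ℂ) / (z - lam i) := by
  have D1 : Dir lam 1 := ⟨norm_one, fun x _ i => by simpa using D.dist_of_real x i⟩
  have D2 : Dir lam d2 := ⟨norm_d2, fun x hx i => by
    apply D.dist_of_re
    rw [Complex.re_ofReal_mul, d2_re]
    have := sqrt2_gt
    nlinarith⟩
  have hpos : ∀ x : ℝ, 1 ≤ x → ‖(g (x * 1))⁻¹‖ ≤ 1 / x := by
    intro x hx
    rw [mul_one]
    exact hp x (by linarith)
  obtain ⟨C, hC, hk⟩ := hk
  have hcone : ∀ x : ℝ, 1 ≤ x → ‖(g (x * d2))⁻¹‖ ≤ C * x := by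
    intro x hx
    have hx0 : 0 < x := by linarith
    have h2 := sqrt2_gt
    have h1 := hk (x * d2) (by rw [D2.norm hx0]; exact hx)
      (by rw [Complex.re_ofReal_mul, d2_re]; nlinarith)
      (by rw [Complex.re_ofReal_mul, d2_re, Complex.im_ofReal_mul, d2_im, mul_neg, abs_neg])
    rwa [D2.norm hx0] at h1
  obtain ⟨c, hr3⟩ := D.rep3 hc hp ⟨C, hC, hk⟩
  have hs4 : Summable fun i => a i / ‖lam i‖ ^ (2 + 1 + 1) := by simpa using D.sum
  have hr3' : Rep g lam a (2 + 1) c := hr3
  -- q = 3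
  have c3 : c (2 + 1) = 0 := top_zero D hr3' hs4 D1 (K := 1) (by
    intro x hx
    refine (hpos x hx).trans ?_
    rw [one_mul]
    have : 1 ≤ x ^ (2 + 1) := one_le_pow₀ hx
    gcongr)
  have hs3 : Summable fun i => a i / ‖lam i‖ ^ (2 + 1) := by
    refine next_summable D hr3' c3 hs4 D1 (K := 1) (s := -1) (c0 := 1 / 2) ?_ (by norm_num)
      (by norm_num) ?_ ?_
    · intro x hx
      refine (hpos x hx).trans ?_
      rw [one_mul]
      have h1 : 1 ≤ x ^ 2 := one_le_pow₀ hx
      have h2 : 1 / x ≤ 1 := by rw [div_le_one (by linarith)]; exact hx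
      linarith
    · intro i
      rw [D.conj_pow_re]
      push_cast
      rw [cos_three_al]
      have h4 : 0 < ‖lam i‖ ^ 3 := by have := D.pos i; positivity
      have := sqrt2_gt
      nlinarith
    · intro i
      rw [one_mul, D.conj_pow_re]
      push_cast
      rw [cos_four_al]
      have h4 : 0 < ‖lam i‖ ^ 4 := by have := D.pos i; positivity
      nlinarith
  obtain ⟨c', hr2⟩ := lower D hr3' c3 hs3
  have hr2' : Rep g lam a (1 + 1) c' := hr2
  have hs3' : Summable fun i => a i / ‖lam i‖ ^ (1 + 1 + 1) := hs3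
  -- q = 2
  have c2 : c' (1 + 1) = 0 := top_zero D hr2' hs3' D2 (K := C) (by
    intro x hx
    refine (hcone x hx).trans (le_of_eq ?_)
    field_simp)
  have hs2 : Summable fun i => a i / ‖lam i‖ ^ (1 + 1) := by
    refine next_summable D hr2' c2 hs3' D2 (K := C) (s := -1) (c0 := 1 / 2) ?_ (by norm_num)
      (by norm_num) ?_ ?_
    · intro x hx
      simpa using hcone x hx
    · intro i
      rw [D.conj_pow_re]
      push_cast
      rw [cos_two_al]
      have h4 : 0 < ‖lam i‖ ^ 2 := by have := D.pos i; positivity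
      have := sqrt3_gt
      nlinarith
    · intro i
      have h4 : 0 < ‖lam i‖ ^ 3 := by have := D.pos i; positivity
      rcases D.ray i with h | h
      · have e : d2 * conj (lam i) ^ (1 + 2) = ((‖lam i‖ ^ 3 : ℝ) : ℂ) * (d2 * conj e1 ^ 3) := by
          conv_lhs => rw [h]
          rw [map_mul, Complex.conj_ofReal]
          push_cast; ring
        rw [e, Complex.re_ofReal_mul, d2_conj_e1]
        simp
      · have e : d2 * conj (lam i) ^ (1 + 2) = ((‖lam i‖ ^ 3 : ℝ) : ℂ) * (d2 * e1 ^ 3) := by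
          conv_lhs => rw [h]
          rw [map_mul, Complex.conj_ofReal, Complex.conj_conj]
          push_cast; ring
        rw [e, Complex.re_ofReal_mul, d2_e1, Complex.one_re]
        linarith
  obtain ⟨c'', hr1⟩ := lower D hr2' c2 hs2
  have hr1' : Rep g lam a (0 + 1) c'' := hr1
  have hs2' : Summable fun i => a i / ‖lam i‖ ^ (0 + 1 + 1) := hs2
  -- q = 1
  have c1 : c'' (0 + 1) = 0 := top_zero D hr1' hs2' D1 (K := 1) (by
    intro x hx
    refine (hpos x hx).trans ?_
    rw [one_mul]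
    have : 1 ≤ x ^ (0 + 1) := one_le_pow₀ hx
    gcongr)
  have hs1 : Summable fun i => a i / ‖lam i‖ ^ (0 + 1) := by
    refine next_summable D hr1' c1 hs2' D1 (K := 1) (s := 1) (c0 := 1 / 4) ?_ (by norm_num)
      (by norm_num) ?_ ?_
    · intro x hx
      refine (hpos x hx).trans ?_
      rw [one_mul, pow_zero, div_le_one (by linarith)]
      exact hx
    · intro i
      rw [D.conj_pow_re]
      push_cast
      rw [one_mul, one_mul al]
      have h4 : 0 < ‖lam i‖ ^ 1 := by have := D.pos i; positivity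
      have := ca_gt
      nlinarith
    · intro i
      rw [one_mul, one_mul, D.conj_pow_re]
      push_cast
      rw [cos_two_al]
      have h4 : 0 < ‖lam i‖ ^ 2 := by have := D.pos i; positivity
      have := sqrt3_gt
      nlinarith
  obtain ⟨k, hr0⟩ := lower D hr1' c1 hs1
  have k0 : k 0 = 0 := top_zero D hr0 hs1 D1 (K := 1) (by
    intro x hx
    refine (hpos x hx).trans ?_
    simp)
  refine ⟨by simpa using hs1, ?_⟩
  intro z h0 hne
  have := hr0 z h0 hne
  rw [this]
  simp only [zero_add, Finset.sum_range_one, k0, zero_mul, add_zero]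
  unfold SS pf
  simp

end Pool.Agent.Q108.ZF
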