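import Pool.Agent.Q108.ZF.Strip

set_option autoImplicit false
open Filter Topology Complex ComplexConjugate
open Pool.Agent.H574Leontev

namespace Pool.Agent.Q108.ZF

lemma uu_real (r : ℕ → ℝ) (m : ℕ) {ζ : ℂ} (h0 : ζ.im = 0) :
    uu r m ζ = ((Real.exp ζ.re / r m : ℝ) : ℂ) := by
  have : ζ = (ζ.re : ℂ) := Complex.ext (by simp) (by simp [h0])
  unfold uu
  conv_lhs => rw [this]
  push_cast; rfl

lemma LN_im_real {r : ℕ → ℝ} (N : ℕ) {ζ : ℂ} (h0 : ζ.im = 0) :
    (LN r N ζ).im = Real.exp ζ.re + ∑ m ∈ Finset.range N, w (Real.exp ζ.re / r m) +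
      ∑ m ∈ Finset.range N, (lm (1 - ((Real.exp ζ.re / r m : ℝ) : ℂ))).im := by
  set t := Real.exp ζ.re with ht
  have hz : Complex.exp ζ = (t : ℂ) := by
    have : ζ = (ζ.re : ℂ) := Complex.ext (by simp) (by simp [h0])
    rw [this, ht]; push_cast; rfl
  unfold LN nice
  rw [Complex.add_im, Complex.add_im, Complex.im_sum, Complex.im_sum, hz]
  have hb := bb_sa
  congr 1
  · congr 1
    · rw [Complex.im_ofReal_mul, Complex.im_mul_ofReal, e1_im]
      linear_combination t * hb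
    · refine Finset.sum_congr rfl fun m _ => ?_
      rw [uu_real r m h0, ← ht, Complex.add_im, Complex.ofReal_im, zero_add]
      rfl
  · refine Finset.sum_congr rfl fun m _ => ?_
    rw [uu_real r m h0]

lemma tsum_w_split {r : ℕ → ℝ} (h : Cls r) {t : ℝ} (ht : 0 ≤ t) (N : ℕ) :
    ∑ m ∈ Finset.range N, w (t / r m) + ∑' m, w (t / r (m + N)) = ∑' m, w (t / r m) :=
  (w_summable h ht).sum_add_tsum_nat_add N

lemma sum_lm {r : ℕ → ℝ} (h : Sol r) {t : ℝ} (ht : 0 < t) {N n : ℕ} (hn : ∀ m < n, r m < t)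
    (hn2 : t ≤ r n) (hnN : n ≤ N) (hne : ∀ m < N, t ≠ r m) :
    ∑ m ∈ Finset.range N, (lm (1 - ((t / r m : ℝ) : ℂ))).im = -(Real.pi * n) := by
  have hc := h.1
  have e : ∀ m ∈ Finset.range N, (lm (1 - ((t / r m : ℝ) : ℂ))).im = if m < n then -Real.pi else 0 := by
    intro m hm
    have hm0 := hc.pos m
    rw [Finset.mem_range] at hm
    split_ifs with hmn
    · have h1 : 0 < t / r m - 1 := by
        rw [sub_pos, lt_div_iff₀ hm0]; linarith [hn m hmn]
      have h2 : (1 : ℂ) - ((t / r m : ℝ) : ℂ) = -((t / r m - 1 : ℝ) : ℂ) := by push_cast; ring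
      rw [h2, lm_neg_real h1]
    · have h3 : t < r m := lt_of_le_of_ne (hn2.trans (h.strictMono.monotone (by omega))) (hne m hm)
      have h1 : 0 < 1 - t / r m := by
        rw [sub_pos, div_lt_iff₀ hm0]; linarith
      have h2 : (1 : ℂ) - ((t / r m : ℝ) : ℂ) = ((1 - t / r m : ℝ) : ℂ) := by push_cast; ring
      rw [h2, lm_pos_real h1]
  rw [Finset.sum_congr rfl e, ← Finset.sum_filter]
  have : Finset.filter (fun m => m < n) (Finset.range N) = Finset.range n := by
    ext m; simp; omega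
  rw [this]
  simp; ring

lemma bdry_im {r : ℕ → ℝ} (h : Sol r) {t : ℝ} (ht : 0 < t) {N n : ℕ} (hn : ∀ m < n, r m < t)
    (hn2 : t ≤ r n) (hnN : n ≤ N) (hne : ∀ m < N, t ≠ r m) :
    t + ∑ m ∈ Finset.range N, w (t / r m) +
      ∑ m ∈ Finset.range N, (lm (1 - ((t / r m : ℝ) : ℂ))).im ≤ Real.pi ∧
    -(t + ∑ m ∈ Finset.range N, w (t / r m) +
      ∑ m ∈ Finset.range N, (lm (1 - ((t / r m : ℝ) : ℂ))).im) ≤ ∑' m, w (t / r (m + N)) := by
  have hc := h.1
  rw [sum_lm h ht hn hn2 hnN hne]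
  have h1 := tsum_w_split hc ht.le N
  have h2 : 0 ≤ ∑' m, w (t / r (m + N)) := tsum_nonneg fun m => w_term_nonneg hc ht.le _
  have h3 : theta r t ≤ Real.pi * (n + 1) := (theta_mono hc ht.le hn2).trans_eq (h.2 n)
  have h4 : Real.pi * n ≤ theta r t := by
    rcases Nat.eq_zero_or_pos n with h0 | h0
    · subst h0; simp; exact ht.le.trans (theta_ge hc ht.le)
    · obtain ⟨k, rfl⟩ : ∃ k, n = k + 1 := ⟨n - 1, by omega⟩
      have := theta_mono hc (hc.pos k).le (hn k (by omega)).le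
      rw [h.2 k] at this
      push_cast; exact this
  unfold theta at h3 h4
  constructor <;> linarith

lemma lo_tendsto : Tendsto lo atTop atTop := by
  have h1 : Tendsto (fun n : ℕ => (n : ℝ) ^ ((1 : ℝ) / 3)) atTop atTop :=
    (tendsto_rpow_atTop (by norm_num)).comp tendsto_natCast_atTop_atTop
  have h2 : Tendsto (fun k => cb (k + 1)) atTop atTop := h1.comp (tendsto_add_atTop_nat 1)
  have h3 : Tendsto (fun k => cb (k + 1) ^ 2 / 4) atTop atTop :=
    ((tendsto_pow_atTop (by norm_num)).comp h2).atTop_div_const (by norm_num)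
  exact h3

lemma Cls.tendsto {r : ℕ → ℝ} (h : Cls r) : Tendsto r atTop atTop :=
  tendsto_atTop_mono h lo_tendsto

lemma exists_n {r : ℕ → ℝ} (h : Cls r) (t : ℝ) : ∃ n, (∀ m < n, r m < t) ∧ t ≤ r n := by
  classical
  have h1 : ∃ n, t ≤ r n := (h.tendsto.eventually_ge_atTop t).exists
  refine ⟨Nat.find h1, fun m hm => ?_, Nat.find_spec h1⟩
  have := Nat.find_min h1 hm
  push Not at this; exact this

lemma w_le_ps (s : ℝ) (hs : 0 ≤ s) : w s ≤ 16 * ps s := by
  rw [w_eq_im]
  have h1 := im_le_ps ((s : ℂ) * om) (Complex.log (1 - (s : ℂ) * om)) (fun _ => rfl) (by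
      rw [Complex.log_im]; exact Complex.abs_arg_le_pi _)
  rw [norm_mul, norm_om, mul_one, Complex.norm_real, Real.norm_eq_abs, abs_of_nonneg hs] at h1
  exact (le_abs_self _).trans h1

/-- tails of the sum of reciprocals -/
noncomputable def del (r : ℕ → ℝ) (N : ℕ) : ℝ := 16 * ∑' m, ps (1 / r (m + N))

lemma del_tendsto {r : ℕ → ℝ} : Tendsto (del r) atTop (𝓝 0) := by
  have h1 := tendsto_sum_nat_add (fun m => ps (1 / r m))
  have := h1.const_mul 16
  rw [mul_zero] at this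
  exact this

lemma tail_le {r : ℕ → ℝ} (h : Cls r) {t : ℝ} (ht : 0 ≤ t) (N : ℕ) :
    ∑' m, w (t / r (m + N)) ≤ del r N * ps t := by
  have hs : Summable fun m => ps (1 / r (m + N)) := (summable_nat_add_iff N).mpr h.summable_ps
  have e : del r N * ps t = ∑' m, (16 * ps t) * ps (1 / r (m + N)) := by
    rw [tsum_mul_left]; unfold del; ring
  rw [e]
  refine ((summable_nat_add_iff N).mpr (w_summable h ht)).tsum_le_tsum (fun m => ?_) (hs.mul_left _)
  have h1 := w_le_ps (t / r (m + N)) (div_nonneg ht (h.pos _).le)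
  have h2 : t / r (m + N) = t * (1 / r (m + N)) := by ring
  rw [h2, ps_mul ht (by have := h.pos (m + N); positivity)] at h1
  rw [h2]
  linarith

/-- the top boundary -/
lemma exp_top {ζ : ℂ} (h : ζ.im = be) : e1 * Complex.exp ζ = -((Real.exp ζ.re : ℝ) : ℂ) := by
  have h1 : ζ = (ζ.re : ℂ) + (be : ℂ) * I := by
    apply Complex.ext <;> simp [h]
  rw [h1, Complex.exp_add]
  unfold e1
  have h2 : Complex.exp (al * I) * Complex.exp (be * I) = -1 := by
    rw [← Complex.exp_add, ← Complex.exp_pi_mul_I]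
    congr 1
    unfold al be; push_cast; ring
  have h3 : Complex.exp (al * I) * (Complex.exp (ζ.re : ℂ) * Complex.exp (be * I)) =
      (Complex.exp (al * I) * Complex.exp (be * I)) * Complex.exp (ζ.re : ℂ) := by ring
  rw [h3, h2]
  simp

lemma uu_om_top {r : ℕ → ℝ} (m : ℕ) {ζ : ℂ} (h : ζ.im = be) :
    uu r m ζ * om = conj (uu r m ζ) := by
  have h1 := exp_top h
  have h2 : uu r m ζ * om = (e1 * Complex.exp ζ) * e1 / r m := by
    unfold uu; rw [← e1_mul_e1]; ring
  have h3 : conj (uu r m ζ) = conj (e1 * Complex.exp ζ) * e1 / r m := by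
    unfold uu
    rw [map_div₀, Complex.conj_ofReal, map_mul]
    have : conj e1 * e1 = 1 := by
      rw [← inv_e1]; exact inv_mul_cancel₀ e1_ne
    rw [show conj e1 * conj (Complex.exp ζ) * e1 = (conj e1 * e1) * conj (Complex.exp ζ) by ring, this,
      one_mul]
  rw [h2, h3, h1, map_neg, Complex.conj_ofReal]

lemma LN_im_top {r : ℕ → ℝ} (h : Cls r) (N : ℕ) {ζ : ℂ} (hζ : ζ.im = be) : (LN r N ζ).im = 0 := by
  have h0 : 0 ≤ ζ.im := by rw [hζ]; exact be_pos.le
  unfold LN nice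
  rw [Complex.add_im, Complex.add_im, Complex.im_sum, Complex.im_sum, exp_top hζ]
  have e1' : (((bb : ℝ) : ℂ) * -((Real.exp ζ.re : ℝ) : ℂ)).im = 0 := by
    rw [Complex.im_ofReal_mul, Complex.neg_im, Complex.ofReal_im]; ring
  rw [e1', zero_add, ← Finset.sum_add_distrib]
  refine Finset.sum_eq_zero fun m _ => ?_
  have h3 := one_sub_uu_om_re h m h0 hζ.le
  rw [uu_om_top m hζ] at h3 ⊢
  have h4 : 0 < (1 - uu r m ζ).re := by
    have : (1 - conj (uu r m ζ)).re = (1 - uu r m ζ).re := by simp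
    rw [← this]; exact h3
  have h5 : Complex.log (1 - conj (uu r m ζ)) = conj (Complex.log (1 - uu r m ζ)) := by
    rw [← Complex.log_conj _ (by
      have := Complex.abs_arg_lt_pi_div_two_iff.mpr (Or.inl h4)
      have := (abs_lt.mp this).2
      have := Real.pi_pos
      linarith)]
    simp
  rw [lm_eq_of_re h4, h5]
  simp only [Complex.add_im, Complex.conj_im]
  ring

end Pool.Agent.Q108.ZF
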