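import Pool.Agent.Q108.ZF.Strip

set_option autoImplicit false
open Filter Topology Complex ComplexConjugate
open Pool.Agent.H574Leontev

namespace Pool.Agent.Q108.ZF

/-- lower bound of the elementary factor -/
lemma gg_ge_ps {u : ℂ} {L : ℝ} (hL : 0 ≤ L)
    (h : 1 / 2 ≤ ‖u‖ → Real.exp (-L) ≤ |1 - ‖u‖|) : -(4 * L + 2) * ps ‖u‖ ≤ gg u := by
  have hp := ps_nonneg (norm_nonneg u)
  by_cases h0 : ‖u‖ ≤ 1 / 2
  · have h1 := norm_lE_le u h0
    have h2 : gg u = (lE u).re := by
      unfold gg lE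
      rw [Complex.add_re, Complex.log_re]
    have h3 := Complex.abs_re_le_norm (lE u)
    have h4 := sq_le_ps (norm_nonneg u) (by linarith)
    rw [h2]
    have := neg_abs_le (lE u).re
    nlinarith [mul_nonneg hL hp]
  · push Not at h0
    have h1 := h h0.le
    have h2 : |1 - ‖u‖| ≤ ‖1 - u‖ := by
      have := abs_norm_sub_norm_le (1 : ℂ) u
      rwa [norm_one] at this
    have h3 : -L ≤ Real.log ‖1 - u‖ := by
      rw [← Real.log_exp (-L)]
      exact Real.log_le_log (Real.exp_pos _) (h1.trans h2)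
    have h4 := neg_abs_le u.re
    have h5 := Complex.abs_re_le_norm u
    have h6 := one_le_ps h0.le
    have h7 := le_ps' h0.le
    unfold gg
    nlinarith [mul_nonneg hL hp]

lemma Sol.gap_le {r : ℕ → ℝ} (h : Sol r) (n : ℕ) : r (n + 1) - r n ≤ Real.pi := by
  have h1 := theta_sub_ge h.1 (h.1.pos n).le (h.strictMono (Nat.lt_succ_self n)).le
  rw [h.2, h.2] at h1
  push_cast at h1
  have e : Real.pi * ((n : ℝ) + 1 + 1) - Real.pi * ((n : ℝ) + 1) = Real.pi := by ring
  simp only [Nat.succ_eq_add_one] at h1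
  linarith

lemma Sol.zero_le {r : ℕ → ℝ} (h : Sol r) : r 0 ≤ Real.pi := by
  have h1 := theta_ge h.1 (h.1.pos 0).le
  rw [h.2] at h1
  simpa using h1

/-- the sum of the inverse squares -/
noncomputable def M2 (r : ℕ → ℝ) : ℝ := ∑' j, (r j ^ 2)⁻¹

lemma M2_nonneg (r : ℕ → ℝ) : 0 ≤ M2 r := tsum_nonneg fun j => by positivity

lemma Sol.gap_ge {r : ℕ → ℝ} (h : Sol r) (n : ℕ) :
    2 ≤ (r (n + 1) - r n) * (1 + M2 r * ((r n + r (n + 1)) / 2)) := by
  have h0 : r n ≤ r (n + 1) := (h.strictMono (Nat.lt_succ_self n)).le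
  have h1 := theta_sub_le h.1 (h.1.pos n).le h0
  rw [h.2, h.2] at h1
  push_cast at h1
  have e : Real.pi * ((n : ℝ) + 1 + 1) - Real.pi * ((n : ℝ) + 1) = Real.pi := by ring
  rw [e] at h1
  have hpi := Real.pi_gt_three
  have hM := M2_nonneg r
  have hM' : ∑' j, (r j ^ 2)⁻¹ = M2 r := rfl
  rw [hM'] at h1
  have h3 := sqrt3_lt
  have hs : 0 ≤ r n + r (n + 1) := by have := h.1.pos n; have := h.1.pos (n + 1); linarith
  have h5 : Real.sqrt 3 / 4 * (r (n + 1) ^ 2 - r n ^ 2) * M2 r ≤
      1 / 2 * (r (n + 1) ^ 2 - r n ^ 2) * M2 r := by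
    have : 0 ≤ r (n + 1) ^ 2 - r n ^ 2 := by
      have : r (n + 1) ^ 2 - r n ^ 2 = (r (n + 1) - r n) * (r n + r (n + 1)) := by ring
      rw [this]; exact mul_nonneg (by linarith) hs
    have h6 : Real.sqrt 3 / 4 ≤ 1 / 2 := by linarith
    exact mul_le_mul_of_nonneg_right (mul_le_mul_of_nonneg_right h6 this) hM
  nlinarith

/-- **the circles** -/
theorem circ {r : ℕ → ℝ} (h : Sol r) : ∃ B : ℝ, 1 ≤ B ∧ ∀ ρ : ℝ, 1 ≤ ρ →
    ∃ R : ℝ, ρ ≤ R ∧ R ≤ ρ + 8 ∧ (∀ i, (B * (1 + R))⁻¹ ≤ |R - r i|) ∧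
      ∀ z : ℂ, ‖z‖ = R → ‖(gg0 r z)⁻¹‖ ≤ Real.exp (B * R ^ (9 / 5 : ℝ)) := by
  have hM2 := M2_nonneg r
  have hM0 := M0_nonneg h.1
  have hbb := bb_pos
  set B := 1 + M2 r + (bb + 2 * M0 r * (58 + 16 * (1 + M2 r))) with hB
  have hBp : 0 ≤ bb + 2 * M0 r * (58 + 16 * (1 + M2 r)) := by positivity
  refine ⟨B, by linarith, ?_⟩
  intro ρ hρ
  have hpi := Real.pi_lt_d2
  -- choose n
  have hex : ∃ n, ρ ≤ r n ∧ r n ≤ ρ + Real.pi := by
    have hex1 : ∃ n, ρ ≤ r n := by
      by_contra hcon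
      push Not at hcon
      obtain ⟨N, hN⟩ := exists_nat_gt (ρ * (1 + M2 r * ρ))
      have key : ∀ n : ℕ, (n : ℝ) ≤ r n * (1 + M2 r * ρ) := by
        intro n
        induction n with
        | zero => simp; have := h.1.pos 0; positivity
        | succ n ih =>
          have h1 := h.gap_ge n
          have h2 := hcon n
          have h3 := hcon (n + 1)
          have h4 : 0 < r (n + 1) - r n := by
            have := h.strictMono (Nat.lt_succ_self n)
            simp only [Nat.succ_eq_add_one] at this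
            linarith
          have h5 : M2 r * ((r n + r (n + 1)) / 2) ≤ M2 r * ρ := by gcongr; linarith
          push_cast
          nlinarith
      have h1 := key N
      have h2 := hcon N
      have : r N * (1 + M2 r * ρ) ≤ ρ * (1 + M2 r * ρ) := by gcongr
      linarith
    classical
    have hf := Nat.find_spec hex1
    refine ⟨Nat.find hex1, hf, ?_⟩
    by_cases h0 : Nat.find hex1 = 0
    · rw [h0]; have := h.zero_le; linarith
    · obtain ⟨m, hm⟩ := Nat.exists_eq_succ_of_ne_zero h0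
      have h1 := Nat.find_min hex1 (m := m) (by omega)
      push Not at h1
      rw [hm]
      have := h.gap_le m
      simp only [Nat.succ_eq_add_one]
      linarith
  obtain ⟨n, hn1, hn2⟩ := hex
  have hgle := h.gap_le n
  have hgge := h.gap_ge n
  have hlt : r n < r (n + 1) := h.strictMono (Nat.lt_succ_self n)
  set R := (r n + r (n + 1)) / 2 with hR
  have hR1 : 1 ≤ R := by linarith
  have hRpos : 0 < R := by linarith
  have hcoef : 0 < 1 + M2 r * R := by positivity
  have hgap : (1 + M2 r * R)⁻¹ ≤ (r (n + 1) - r n) / 2 := by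
    rw [inv_le_iff_one_le_mul₀ hcoef]
    linarith
  have hgap2 : ((1 + M2 r) * (1 + R))⁻¹ ≤ (1 + M2 r * R)⁻¹ := by
    apply inv_anti₀ hcoef
    nlinarith
  have hall : ∀ i, ((1 + M2 r) * (1 + R))⁻¹ ≤ |R - r i| := by
    intro i
    refine (hgap2.trans hgap).trans ?_
    rcases le_or_gt i n with hi | hi
    · have h1 : r i ≤ r n := h.strictMono.monotone hi
      rw [abs_of_nonneg (by linarith)]
      linarith
    · have h1 : r (n + 1) ≤ r i := h.strictMono.monotone hi
      rw [abs_of_nonpos (by linarith)]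
      linarith
  refine ⟨R, by linarith, by linarith, ?_, ?_⟩
  · intro i
    refine le_trans ?_ (hall i)
    apply inv_anti₀ (by positivity)
    have : 1 + M2 r ≤ B := by linarith
    gcongr
  · intro z hz
    -- the logarithm of the gap
    set L := Real.log (2 * R * ((1 + M2 r) * (1 + R))) with hL
    have hbig : 1 ≤ 2 * R * ((1 + M2 r) * (1 + R)) := by
      have h1 : 1 ≤ (1 + M2 r) * (1 + R) := by nlinarith
      nlinarith
    have hL0 : 0 ≤ L := Real.log_nonneg hbig
    have hexpL : Real.exp (-L) = (2 * R * ((1 + M2 r) * (1 + R)))⁻¹ := by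
      rw [Real.exp_neg, hL, Real.exp_log (by linarith)]
    have key : ∀ (i : ℕ) (lam : ℂ), ‖lam‖ = r i → -(4 * L + 2) * ps (R / r i) ≤ gg (z / lam) ∧
        z / lam ≠ 1 := by
      intro i lam hlam
      have hri := h.1.pos i
      have hn : ‖z / lam‖ = R / r i := by rw [norm_div, hz, hlam]
      have hdist := hall i
      have hpos : 0 < ((1 + M2 r) * (1 + R))⁻¹ := by positivity
      constructor
      · rw [← hn]
        apply gg_ge_ps hL0
        intro hh
        rw [hn] at hh ⊢
        rw [hexpL]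
        have h1 : r i ≤ 2 * R := by
          rw [le_div_iff₀ hri] at hh
          linarith
        have h2 : |1 - R / r i| = |R - r i| / r i := by
          have : 1 - R / r i = -(R - r i) / r i := by field_simp; ring
          rw [this, abs_div, abs_neg, abs_of_pos hri]
        rw [h2, le_div_iff₀ hri]
        calc (2 * R * ((1 + M2 r) * (1 + R)))⁻¹ * r i
            ≤ (2 * R * ((1 + M2 r) * (1 + R)))⁻¹ * (2 * R) := by gcongr
          _ = ((1 + M2 r) * (1 + R))⁻¹ := by
              rw [mul_inv]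
              have : (2 * R) ≠ 0 := by positivity
              field_simp
          _ ≤ _ := hdist
      · intro hc
        have h1 : R / r i = 1 := by rw [← hn, hc, norm_one]
        rw [div_eq_one_iff_eq hri.ne'] at h1
        rw [h1, sub_self, abs_zero] at hdist
        rw [h1] at hpos
        linarith
    have hU := fun i => key i (zU r i) (norm_zU h.1 i)
    have hLo := fun i => key i (zL r i) (norm_zL h.1 i)
    have hps : ∀ i, ps (R / r i) = ps R * ps (1 / r i) := by
      intro i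
      rw [← ps_mul hRpos.le (by have := h.1.pos i; positivity)]
      congr 1; ring
    have hsum : Summable (fun i => -(4 * L + 2) * ps (R / r i)) := by
      have := (h.1.summable_ps.mul_left (ps R)).mul_left (-(4 * L + 2))
      exact this.congr fun i => by rw [hps]
    have hval : ∑' i, -(4 * L + 2) * ps (R / r i) = -(4 * L + 2) * (ps R * M0 r) := by
      rw [tsum_mul_left]
      congr 1
      unfold M0
      rw [← tsum_mul_left]
      exact tsum_congr hps
    have sU : -(4 * L + 2) * (ps R * M0 r) ≤ ∑' i, gg (z / zU r i) := by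
      rw [← hval]
      exact hsum.tsum_le_tsum (fun i => (hU i).1) (summable_gg (sqU h.1) z (fun i => (hU i).2))
    have sL : -(4 * L + 2) * (ps R * M0 r) ≤ ∑' i, gg (z / zL r i) := by
      rw [← hval]
      exact hsum.tsum_le_tsum (fun i => (hLo i).1) (summable_gg (sqL h.1) z (fun i => (hLo i).2))
    have hnorm : Real.exp (-(bb * R) - 2 * (4 * L + 2) * (ps R * M0 r)) ≤ ‖gg0 r z‖ := by
      unfold gg0 g1
      rw [norm_mul, norm_mul, norm_mul, norm_WW (sqU h.1) z (fun i => (hU i).2),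
        norm_WW (sqL h.1) z (fun i => (hLo i).2), Complex.norm_exp, hz, ← Real.exp_add,
        ← Real.exp_add]
      have h1 : -(bb * R) ≤ (((bb : ℝ) : ℂ) * z).re := by
        simp only [Complex.mul_re, Complex.ofReal_re, Complex.ofReal_im, zero_mul, sub_zero]
        have h2 := neg_abs_le z.re
        have h3 := Complex.abs_re_le_norm z
        rw [hz] at h3
        nlinarith
      calc Real.exp (-(bb * R) - 2 * (4 * L + 2) * (ps R * M0 r))
          ≤ Real.exp ((((bb : ℝ) : ℂ) * z).re + ∑' i, gg (z / zU r i) + ∑' i, gg (z / zL r i)) := by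
            apply Real.exp_le_exp.mpr
            linarith
        _ ≤ _ := by
            have := Real.exp_pos ((((bb : ℝ) : ℂ) * z).re + ∑' i, gg (z / zU r i) + ∑' i, gg (z / zL r i))
            nlinarith
    have hL2 : 4 * L + 2 ≤ (58 + 16 * (1 + M2 r)) * R ^ (1 / 5 : ℝ) := by
      have hR5 : 1 ≤ R ^ (1 / 5 : ℝ) := Real.one_le_rpow hR1 (by norm_num)
      have h1 : L ≤ Real.log (4 * (1 + M2 r)) + 2 * Real.log R := by
        have e : Real.log (4 * (1 + M2 r)) + 2 * Real.log R = Real.log (4 * (1 + M2 r) * R ^ 2) := by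
          rw [Real.log_mul (x := 4 * (1 + M2 r)) (by positivity) (by positivity), Real.log_pow]; norm_num
        rw [e, hL]
        apply Real.log_le_log (by linarith)
        have : 1 + R ≤ 2 * R := by linarith
        calc 2 * R * ((1 + M2 r) * (1 + R)) ≤ 2 * R * ((1 + M2 r) * (2 * R)) := by gcongr
          _ = _ := by ring
      have h2 : Real.log (4 * (1 + M2 r)) ≤ 4 * (1 + M2 r) := Real.log_le_self (by positivity)
      have h3 : Real.log R ≤ R ^ (1 / 5 : ℝ) / (1 / 5 : ℝ) := Real.log_le_rpow_div hRpos.le (by norm_num)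
      have h4 : 4 * (1 + M2 r) ≤ 4 * (1 + M2 r) * R ^ (1 / 5 : ℝ) := by
        have : 0 ≤ 4 * (1 + M2 r) := by positivity
        nlinarith
      nlinarith
    have h95 : ps R * R ^ (1 / 5 : ℝ) = R ^ (9 / 5 : ℝ) := by
      unfold ps
      rw [← Real.rpow_add hRpos]; norm_num
    have hR95 : R ≤ R ^ (9 / 5 : ℝ) := by
      conv_lhs => rw [← Real.rpow_one R]
      exact Real.rpow_le_rpow_of_exponent_le hR1 (by norm_num)
    have hfin : bb * R + 2 * (4 * L + 2) * (ps R * M0 r) ≤ B * R ^ (9 / 5 : ℝ) := by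
      have hpsR := ps_nonneg hRpos.le
      have f1 : bb * R ≤ bb * R ^ (9 / 5 : ℝ) := mul_le_mul_of_nonneg_left hR95 hbb.le
      have f2 : 2 * (4 * L + 2) * (ps R * M0 r) ≤
          2 * ((58 + 16 * (1 + M2 r)) * R ^ (1 / 5 : ℝ)) * (ps R * M0 r) :=
        mul_le_mul_of_nonneg_right (mul_le_mul_of_nonneg_left hL2 (by norm_num))
          (mul_nonneg hpsR hM0)
      have f3 : bb * R ^ (9 / 5 : ℝ) + 2 * ((58 + 16 * (1 + M2 r)) * R ^ (1 / 5 : ℝ)) * (ps R * M0 r) =
          (bb + 2 * M0 r * (58 + 16 * (1 + M2 r))) * R ^ (9 / 5 : ℝ) := by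
        rw [← h95]; ring
      have f4 : (bb + 2 * M0 r * (58 + 16 * (1 + M2 r))) * R ^ (9 / 5 : ℝ) ≤ B * R ^ (9 / 5 : ℝ) :=
        mul_le_mul_of_nonneg_right (by rw [hB]; linarith) (Real.rpow_nonneg hRpos.le _)
      calc bb * R + 2 * (4 * L + 2) * (ps R * M0 r)
          ≤ bb * R ^ (9 / 5 : ℝ) + 2 * ((58 + 16 * (1 + M2 r)) * R ^ (1 / 5 : ℝ)) * (ps R * M0 r) :=
            add_le_add f1 f2
        _ ≤ _ := f3.trans_le f4
    rw [norm_inv]
    calc ‖gg0 r z‖⁻¹ ≤ (Real.exp (-(bb * R) - 2 * (4 * L + 2) * (ps R * M0 r)))⁻¹ :=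
          inv_anti₀ (Real.exp_pos _) hnorm
      _ = Real.exp (bb * R + 2 * (4 * L + 2) * (ps R * M0 r)) := by
          rw [← Real.exp_neg]; congr 1; ring
      _ ≤ _ := Real.exp_le_exp.mpr hfin

end Pool.Agent.Q108.ZF
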