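import Pool.Agent.Q108.ZF.Bdry

set_option autoImplicit false
open Filter Topology Complex ComplexConjugate
open Pool.Agent.H574Leontev

namespace Pool.Agent.Q108.ZF

lemma X53_nonneg (x : ℝ) : 0 ≤ (Real.exp x) ^ (5 / 3 : ℝ) := Real.rpow_nonneg (Real.exp_pos _).le _

/-- values at points of the strip where a factor vanishes or not -/
lemma norm_FF_le {r : ℕ → ℝ} {ε s : ℝ} (N : ℕ) (ζ : ℂ) {C : ℝ}
    (hC : (∀ m < N, 1 - uu r m ζ ≠ 0) →
      ε * (LN r N ζ).re + s * (LN r N ζ).im - ε * (KK ζ).re ≤ C) :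
    ‖FF r (ε - s * I) ε N ζ‖ ≤ Real.exp C := by
  by_cases h : ∀ m < N, 1 - uu r m ζ ≠ 0
  · rw [norm_FF ε s N ζ h]
    exact Real.exp_le_exp.mpr (hC h)
  · push Not at h
    obtain ⟨m, hm, h0⟩ := h
    rw [FF_zero _ ε N ζ hm h0, norm_zero]
    exact (Real.exp_pos _).le

/-- the bound on the real line, upper sign -/
lemma low_bdry {r : ℕ → ℝ} (h : Sol r) {ε s M : ℝ} (hε : 0 < ε) (hε1 : ε ≤ 1) (hs : s = 1 ∨ s = -1)
    (hM : ∀ X, 0 ≤ X → 2 * DD r * (1 + ps X) ≤ ka * X ^ (5 / 3 : ℝ) + M)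
    {X₁ : ℝ} (hX₁ : ∀ X, X₁ ≤ X → 2 * DD r * (1 + ps X) ≤ ε * ka * X ^ (5 / 3 : ℝ))
    (hM0 : 0 ≤ M)
    {N : ℕ} (hN : X₁ ≤ r N) (hN2 : del r N ≤ ε * DD r) {ζ : ℂ} (h0 : ζ.im = 0)
    (hne : ∀ m < N, 1 - uu r m ζ ≠ 0) :
    ε * (LN r N ζ).re + s * (LN r N ζ).im - ε * (KK ζ).re ≤
      (if s = 1 then Real.pi else 0) + ε * M := by
  have hc := h.1
  have hbe := be_pos
  set t := Real.exp ζ.re with ht
  have ht0 : 0 < t := Real.exp_pos _
  have hD := DD_pos hc
  have hka := ka_pos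
  have hre : (LN r N ζ).re ≤ DD r * (1 + ps t) := LN_re_le hc N ζ
  have him : |(LN r N ζ).im| ≤ DD r * (1 + ps t) := LN_im_le hc N (by rw [h0]) (by rw [h0]; exact hbe.le)
  have hK : ka * t ^ (5 / 3 : ℝ) ≤ (KK ζ).re := KK_re_ge (by rw [h0]) (by rw [h0]; exact hbe.le)
  have hps := ps_nonneg ht0.le
  have hne' : ∀ m < N, t ≠ r m := by
    intro m hm heq
    apply hne m hm
    rw [uu_real r m h0, ← ht, heq, div_self (hc.pos m).ne']
    simp
  obtain ⟨n, hn, hn2⟩ := exists_n hc t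
  have hpi := Real.pi_pos
  have hif : 0 ≤ (if s = 1 then Real.pi else 0) := by split_ifs <;> linarith
  have hKe : ε * (ka * t ^ (5 / 3 : ℝ)) ≤ ε * (KK ζ).re := by gcongr
  have hRe : ε * (LN r N ζ).re ≤ ε * (DD r * (1 + ps t)) := by gcongr
  by_cases hnN : n ≤ N
  · have hb := bdry_im h ht0 hn hn2 hnN hne'
    rw [← LN_im_real N h0] at hb
    have hMt := hM t ht0.le
    have hMt' : ε * (2 * DD r * (1 + ps t)) ≤ ε * (ka * t ^ (5 / 3 : ℝ) + M) := by gcongr
    have hDp : 0 ≤ ε * (DD r * (1 + ps t)) := by positivity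
    rcases hs with rfl | rfl
    · simp only [if_true]
      nlinarith [hb.1]
    · have h1 : ¬ ((-1 : ℝ) = 1) := by norm_num
      rw [if_neg h1]
      have h2 := tail_le hc ht0.le N
      have h3 : del r N * ps t ≤ ε * DD r * ps t := by gcongr
      have h4 : ε * DD r * ps t ≤ ε * (DD r * (1 + ps t)) := by nlinarith [mul_pos hε hD]
      nlinarith [hb.2]
  · push Not at hnN
    have hbig : r N < t := hn N hnN
    have h5 := hX₁ t (hN.trans hbig.le)
    have h6 : s * (LN r N ζ).im ≤ DD r * (1 + ps t) := by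
      have : |s * (LN r N ζ).im| ≤ DD r * (1 + ps t) := by
        rw [abs_mul]
        rcases hs with rfl | rfl <;> simpa using him
      exact (le_abs_self _).trans this
    have h7 : ε * (DD r * (1 + ps t)) ≤ 1 * (DD r * (1 + ps t)) := by gcongr
    have h8 : 0 ≤ ε * M := by positivity
    nlinarith

lemma top_bdry {r : ℕ → ℝ} (h : Sol r) {ε s M : ℝ} (hε : 0 < ε) 
    (hM : ∀ X, 0 ≤ X → 2 * DD r * (1 + ps X) ≤ ka * X ^ (5 / 3 : ℝ) + M)
    {N : ℕ} {ζ : ℂ} (h0 : ζ.im = be) :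
    ε * (LN r N ζ).re + s * (LN r N ζ).im - ε * (KK ζ).re ≤
      (if s = 1 then Real.pi else 0) + ε * M := by
  have hc := h.1
  have hbe := be_pos
  set t := Real.exp ζ.re with ht
  have ht0 : 0 < t := Real.exp_pos _
  have hD := DD_pos hc
  have hre : (LN r N ζ).re ≤ DD r * (1 + ps t) := LN_re_le hc N ζ
  have hK : ka * t ^ (5 / 3 : ℝ) ≤ (KK ζ).re := KK_re_ge (by rw [h0]; exact hbe.le) (by rw [h0])
  have hps := ps_nonneg ht0.le
  have hpi := Real.pi_pos
  have hif : 0 ≤ (if s = 1 then Real.pi else 0) := by split_ifs <;> linarith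
  rw [LN_im_top hc N h0]
  have hMt := hM t ht0.le
  have h1 : (LN r N ζ).re - (KK ζ).re ≤ M := by nlinarith [mul_pos hD (show (0:ℝ) < 1 + ps t by linarith)]
  have h2 : ε * ((LN r N ζ).re - (KK ζ).re) ≤ ε * M := by gcongr
  nlinarith

/-- the bound in the strip -/
lemma strip_bound {r : ℕ → ℝ} (h : Sol r) {ε s M : ℝ} (hε : 0 < ε) (hε1 : ε ≤ 1) (hs : s = 1 ∨ s = -1)
    (hM : ∀ X, 0 ≤ X → 2 * DD r * (1 + ps X) ≤ ka * X ^ (5 / 3 : ℝ) + M)
    {X₁ : ℝ} (hX₁ : ∀ X, X₁ ≤ X → 2 * DD r * (1 + ps X) ≤ ε * ka * X ^ (5 / 3 : ℝ))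
    (hM0 : 0 ≤ M)
    {N : ℕ} (hN : X₁ ≤ r N) (hN2 : del r N ≤ ε * DD r) {ζ : ℂ} (h0 : 0 ≤ ζ.im) (h1 : ζ.im ≤ be) :
    ‖FF r (ε - s * I) ε N ζ‖ ≤ Real.exp ((if s = 1 then Real.pi else 0) + ε * M) := by
  have hc := h.1
  have hs1 : |s| ≤ 1 := by rcases hs with rfl | rfl <;> simp
  have hD := DD_pos hc
  refine PhragmenLindelof.horizontal_strip (a := 0) (b := be) (FF_diffContOnCl hc hε hs1 N) ?_ ?_ ?_ h0 h1
  · refine ⟨8 / 5, ?_, 4 * DD r, ?_⟩
    · rw [sub_zero]
      unfold be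
      rw [lt_div_iff₀ (by have := Real.pi_pos; positivity)]
      have := Real.pi_pos
      linarith
    · refine Asymptotics.IsBigO.of_bound 1 ?_
      rw [Filter.eventually_inf_principal]
      refine Eventually.of_forall fun z hz => ?_
      have hz0 : 0 ≤ z.im := hz.1.le
      have hz1 : z.im ≤ be := hz.2.le
      rw [one_mul, Real.norm_eq_abs, abs_of_pos (Real.exp_pos _)]
      apply norm_FF_le
      intro _
      set t := Real.exp z.re with ht
      have ht0 : 0 < t := Real.exp_pos _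
      have hre : (LN r N z).re ≤ DD r * (1 + ps t) := LN_re_le hc N z
      have him : |(LN r N z).im| ≤ DD r * (1 + ps t) := LN_im_le hc N hz0 hz1
      have hK : ka * t ^ (5 / 3 : ℝ) ≤ (KK z).re := KK_re_ge hz0 hz1
      have h53 := X53_nonneg z.re
      rw [← ht] at h53
      have hka := ka_pos
      have hK0 : 0 ≤ (KK z).re := le_trans (by positivity) hK
      have h6 : s * (LN r N z).im ≤ DD r * (1 + ps t) := by
        have : |s * (LN r N z).im| ≤ DD r * (1 + ps t) := by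
          rw [abs_mul]
          rcases hs with rfl | rfl <;> simpa using him
        exact (le_abs_self _).trans this
      have hps := ps_nonneg ht0.le
      have h7 : ε * (LN r N z).re ≤ 1 * (DD r * (1 + ps t)) := by
        have : ε * (LN r N z).re ≤ ε * (DD r * (1 + ps t)) := by gcongr
        refine this.trans ?_
        gcongr
      have h8 : 0 ≤ ε * (KK z).re := by positivity
      have hpt : ps t ≤ Real.exp (8 / 5 * |z.re|) := by
        unfold ps
        rw [ht, ← Real.exp_mul]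
        apply Real.exp_le_exp.mpr
        have := le_abs_self z.re
        linarith
      have h9 : 1 ≤ Real.exp (8 / 5 * |z.re|) := Real.one_le_exp (by positivity)
      nlinarith
  · intro z hz
    exact norm_FF_le N z (fun hne => low_bdry h hε hε1 hs hM hX₁ hM0 hN hN2 hz hne)
  · intro z hz
    exact norm_FF_le N z (fun _ => top_bdry h hε hM hz)

/-- the full logarithm -/
noncomputable def LL (r : ℕ → ℝ) (z : ℂ) : ℂ :=
  bb * z + ∑' m, lE (z / zU r m) + ∑' m, lE (z / zL r m)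

lemma LN_tendsto {r : ℕ → ℝ} (h : Cls r) {ζ : ℂ} (h0 : 0 < ζ.im) (h1 : ζ.im < be) :
    Tendsto (fun N => LN r N ζ) atTop (𝓝 (LL r (e1 * Complex.exp ζ))) := by
  set z := e1 * Complex.exp ζ with hz
  have hU : ∀ m, uu r m ζ = z / zU r m := by
    intro m
    unfold uu zU
    rw [hz, mul_comm (r m : ℂ) e1, mul_div_mul_left _ _ e1_ne]
  have hL : ∀ m, uu r m ζ * om = z / zL r m := by
    intro m
    unfold uu zL
    rw [hz, ← e1_mul_e1, div_mul_eq_div_div_swap, div_eq_mul_inv _ (conj e1), inv_conj_e1]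
    ring
  have e : ∀ N, LN r N ζ = bb * z + ∑ m ∈ Finset.range N, lE (z / zU r m) +
      ∑ m ∈ Finset.range N, lE (z / zL r m) := by
    intro N
    unfold LN nice
    rw [← hz, add_assoc, ← Finset.sum_add_distrib, add_assoc, ← Finset.sum_add_distrib]
    congr 1
    refine Finset.sum_congr rfl fun m _ => ?_
    have h2 : (1 - uu r m ζ).im < 0 := by
      have := uu_im_pos h m h0 h1.le
      rw [Complex.sub_im, Complex.one_im]; linarith
    rw [lm_eq_of_im h2, ← hL, ← hU]
    unfold lE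
    ring
  simp only [e]
  exact (tendsto_const_nhds.add (summable_lE (sqU h) z).hasSum.tendsto_sum_nat).add
    (summable_lE (sqL h) z).hasSum.tendsto_sum_nat

lemma LL_im {r : ℕ → ℝ} (h : Sol r) {ζ : ℂ} (h0 : 0 < ζ.im) (h1 : ζ.im < be) {s : ℝ}
    (hs : s = 1 ∨ s = -1) :
    s * (LL r (e1 * Complex.exp ζ)).im ≤ (if s = 1 then Real.pi else 0) := by
  have hc := h.1
  have hD := DD_pos hc
  have hka := ka_pos
  obtain ⟨M, hM0, hM⟩ := growth_bdd (A := 2 * DD r) (η := ka) (by positivity) hka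
  set L := LL r (e1 * Complex.exp ζ) with hL
  have hlim := LN_tendsto hc h0 h1
  rw [← hL] at hlim
  have hre : Tendsto (fun N => (LN r N ζ).re) atTop (𝓝 L.re) :=
    (Complex.continuous_re.tendsto L).comp hlim
  have him : Tendsto (fun N => (LN r N ζ).im) atTop (𝓝 L.im) :=
    (Complex.continuous_im.tendsto L).comp hlim
  have key : ∀ ε : ℝ, 0 < ε → ε ≤ 1 →
      ε * L.re + s * L.im - ε * (KK ζ).re ≤ (if s = 1 then Real.pi else 0) + ε * M := by
    intro ε hε hε1
    obtain ⟨X₁, _, hX₁⟩ := growth_cmp (A := 2 * DD r) (η := ε * ka) (by positivity) (by positivity)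
    have ht : Tendsto (fun N => ε * (LN r N ζ).re + s * (LN r N ζ).im - ε * (KK ζ).re) atTop
        (𝓝 (ε * L.re + s * L.im - ε * (KK ζ).re)) :=
      ((hre.const_mul ε).add (him.const_mul s)).sub_const _
    refine le_of_tendsto ht ?_
    have hd : ∀ᶠ N in atTop, del r N < ε * DD r :=
      del_tendsto.eventually_lt_const (by positivity)
    filter_upwards [hd, hc.tendsto.eventually_ge_atTop X₁] with N hN2 hN
    have h2 := strip_bound h hε hε1 hs hM hX₁ hM0 hN hN2.le h0.le h1.le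
    have hne : ∀ m < N, 1 - uu r m ζ ≠ 0 := by
      intro m _ hcon
      have h3 := uu_im_pos hc m h0 h1.le
      have h4 := congrArg Complex.im hcon
      simp only [Complex.sub_im, Complex.one_im, Complex.zero_im] at h4
      linarith
    rw [norm_FF ε s N ζ hne] at h2
    exact Real.exp_le_exp.mp h2
  by_contra hcon
  push Not at hcon
  set P := (if s = 1 then Real.pi else 0) with hP
  set Q := |M| + |(KK ζ).re| + |L.re| + 1 with hQ
  have hQ0 : 0 < Q := by positivity
  have hk := key (min 1 ((s * L.im - P) / (2 * Q))) (by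
    apply lt_min zero_lt_one
    apply div_pos <;> linarith) (min_le_left _ _)
  set ε := min 1 ((s * L.im - P) / (2 * Q)) with hε
  have hε0 : 0 < ε := by
    apply lt_min zero_lt_one
    apply div_pos <;> linarith
  have h2 : ε ≤ (s * L.im - P) / (2 * Q) := min_le_right _ _
  rw [le_div_iff₀ (by positivity)] at h2
  have h3 : ε * M + ε * (KK ζ).re - ε * L.re ≤ ε * Q := by
    have : M + (KK ζ).re - L.re ≤ Q := by
      have := le_abs_self M
      have := le_abs_self (KK ζ).re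
      have := neg_abs_le L.re
      linarith
    calc ε * M + ε * (KK ζ).re - ε * L.re = ε * (M + (KK ζ).re - L.re) := by ring
      _ ≤ ε * Q := by gcongr
  nlinarith

/-- **the function maps the left part of the upper half-plane into the upper half-plane** -/
theorem g1_im_nonneg {r : ℕ → ℝ} (h : Sol r) {ζ : ℂ} (h0 : 0 < ζ.im) (h1 : ζ.im < be) :
    0 ≤ (g1 r (e1 * Complex.exp ζ)).im := by
  have hc := h.1
  have a1 := LL_im h h0 h1 (s := 1) (Or.inl rfl)
  have a2 := LL_im h h0 h1 (s := -1) (Or.inr rfl)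
  rw [if_pos rfl, one_mul] at a1
  rw [if_neg (by norm_num)] at a2
  set z := e1 * Complex.exp ζ with hz
  have hU : ∀ m, z / zU r m ≠ 1 := by
    intro m hm
    have h3 := uu_im_pos hc m h0 h1.le
    have : uu r m ζ = z / zU r m := by
      unfold uu zU
      rw [hz, mul_comm (r m : ℂ) e1, mul_div_mul_left _ _ e1_ne]
    rw [this, hm] at h3
    simp at h3
  have hL : ∀ m, z / zL r m ≠ 1 := by
    intro m hm
    have h3 := uu_om_re hc m h0.le h1.le
    have : uu r m ζ * om = z / zL r m := by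
      unfold uu zL
      rw [hz, ← e1_mul_e1, div_mul_eq_div_div_swap, div_eq_mul_inv _ (conj e1), inv_conj_e1]
      ring
    rw [this, hm] at h3
    norm_num at h3
  have e : g1 r z = Complex.exp (LL r z) := by
    unfold g1 LL
    rw [WW_eq_exp (sqU hc) z hU, WW_eq_exp (sqL hc) z hL, Complex.exp_add, Complex.exp_add]
  rw [e, Complex.exp_im]
  apply mul_nonneg (Real.exp_pos _).le
  apply Real.sin_nonneg_of_nonneg_of_le_pi <;> linarith

end Pool.Agent.Q108.ZF
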