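import Pool.Agent.Q108.ZF.Prod

set_option autoImplicit false
open Filter Topology Complex ComplexConjugate
open Pool.Agent.H574Leontev

namespace Pool.Agent.Q108.ZF

/-- the logarithm continuous on the closed lower half-plane -/
noncomputable def lm (v : ℂ) : ℂ := Complex.log (I * v) - (Real.pi / 2 : ℝ) * I

lemma I_mul_ne {v : ℂ} (hv : v ≠ 0) : I * v ≠ 0 := mul_ne_zero I_ne_zero hv

lemma lm_re (v : ℂ) : (lm v).re = Real.log ‖v‖ := by
  unfold lm
  simp [Complex.log_re]

lemma lm_im (v : ℂ) : (lm v).im = Complex.arg (I * v) - Real.pi / 2 := by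
  unfold lm
  simp [Complex.log_im]

lemma exp_lm {v : ℂ} (hv : v ≠ 0) : Complex.exp (lm v) = v := by
  unfold lm
  rw [Complex.exp_sub, Complex.exp_log (I_mul_ne hv)]
  push_cast
  rw [Complex.exp_pi_div_two_mul_I]
  field_simp

lemma arg_I_mul {v : ℂ} (hv : v.im ≤ 0) : |Complex.arg (I * v)| ≤ Real.pi / 2 := by
  rw [Complex.abs_arg_le_pi_div_two_iff]
  simpa using hv

lemma lm_im_nonpos {v : ℂ} (hv : v.im ≤ 0) : (lm v).im ≤ 0 := by
  have := arg_I_mul hv
  rw [abs_le] at this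
  rw [lm_im]; linarith

lemma lm_im_ge {v : ℂ} (hv : v.im ≤ 0) : -Real.pi ≤ (lm v).im := by
  have := arg_I_mul hv
  rw [abs_le] at this
  rw [lm_im]; linarith

lemma lm_eq_log {v : ℂ} (hv : v ≠ 0) (h : Complex.arg v ≤ Real.pi / 2) :
    lm v = Complex.log v := by
  unfold lm
  rw [(Complex.log_mul_eq_add_log_iff I_ne_zero hv).mpr, Complex.log_I]
  · push_cast; ring
  · rw [Complex.arg_I]
    constructor
    · have := Complex.neg_pi_lt_arg v; have := Real.pi_pos; linarith
    · linarith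

lemma lm_eq_of_re {v : ℂ} (hv : 0 < v.re) : lm v = Complex.log v := by
  apply lm_eq_log
  · rintro rfl; simp at hv
  · have := Complex.abs_arg_le_pi_div_two_iff.mpr hv.le
    exact (abs_le.mp this).2

lemma lm_eq_of_im {v : ℂ} (hv : v.im < 0) : lm v = Complex.log v := by
  apply lm_eq_log
  · rintro rfl; simp at hv
  · have := Complex.arg_neg_iff.mpr hv
    have := Real.pi_pos; linarith

lemma lm_neg_real {a : ℝ} (ha : 0 < a) : (lm (-(a : ℂ))).im = -Real.pi := by
  rw [lm_im]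
  have : I * -(a : ℂ) = (a : ℝ) * (-I) := by ring
  rw [this, Complex.arg_real_mul _ ha, Complex.arg_neg_I]
  ring

lemma lm_pos_real {a : ℝ} (ha : 0 < a) : (lm (a : ℂ)).im = 0 := by
  rw [lm_eq_of_re (by simpa using ha), Complex.log_im, Complex.arg_ofReal_of_nonneg ha.le]

lemma I_mul_mem {v : ℂ} (hv : v ≠ 0) (h : v.im ≤ 0) : I * v ∈ Complex.slitPlane := by
  rw [Complex.mem_slitPlane_iff]
  by_cases him : v.im = 0
  · right
    simp only [Complex.mul_im, Complex.I_re, Complex.I_im, zero_mul, one_mul, zero_add]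
    intro hre
    exact hv (Complex.ext hre him)
  · left
    simp only [Complex.mul_re, Complex.I_re, Complex.I_im, zero_mul, one_mul, zero_sub]
    have := lt_of_le_of_ne h him
    linarith

/-- power of the logarithm, extended by zero -/
noncomputable def phi (c : ℂ) (v : ℂ) : ℂ := if v = 0 then 0 else Complex.exp (c * lm v)

lemma phi_zero (c : ℂ) : phi c 0 = 0 := if_pos rfl

lemma phi_of_ne (c : ℂ) {v : ℂ} (hv : v ≠ 0) : phi c v = Complex.exp (c * lm v) := if_neg hv

lemma lm_continuousWithinAt {v : ℂ} (hv : v ≠ 0) (h : v.im ≤ 0) : ContinuousAt lm v := by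
  unfold lm
  have h1 : ContinuousAt (fun v : ℂ => Complex.log (I * v)) v :=
    ContinuousAt.clog (by fun_prop) (I_mul_mem hv h)
  exact h1.sub continuousAt_const

lemma lm_differentiableAt {v : ℂ} (hv : v ≠ 0) (h : v.im ≤ 0) : DifferentiableAt ℂ lm v := by
  unfold lm
  have h1 : DifferentiableAt ℂ (fun v : ℂ => Complex.log (I * v)) v :=
    DifferentiableAt.clog (by fun_prop) (I_mul_mem hv h)
  exact h1.sub_const _

lemma norm_phi_le {ε s : ℝ} (hs : |s| ≤ 1) {v : ℂ} (h : v.im ≤ 0) (hv : v ≠ 0) :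
    ‖phi (ε - s * I) v‖ ≤ ‖v‖ ^ ε * Real.exp Real.pi := by
  rw [phi_of_ne _ hv, Complex.norm_exp]
  have e : (((ε : ℂ) - s * I) * lm v).re = ε * Real.log ‖v‖ + s * (lm v).im := by
    simp [lm_re]
  rw [e, Real.exp_add, Real.rpow_def_of_pos (norm_pos_iff.mpr hv)]
  rw [mul_comm ε]
  gcongr
  have h1 := lm_im_nonpos h
  have h2 := lm_im_ge h
  have h3 : |s * (lm v).im| ≤ 1 * Real.pi := by
    rw [abs_mul]
    apply mul_le_mul hs _ (abs_nonneg _) zero_le_one
    rw [abs_le]; constructor <;> linarith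
  have := le_abs_self (s * (lm v).im)
  linarith

lemma phi_continuousOn {ε s : ℝ} (hε : 0 < ε) (hs : |s| ≤ 1) :
    ContinuousOn (phi (ε - s * I)) {v : ℂ | v.im ≤ 0} := by
  intro v hv
  by_cases h0 : v = 0
  · subst h0
    unfold ContinuousWithinAt
    rw [phi_zero, tendsto_zero_iff_norm_tendsto_zero]
    have h1 : Tendsto (fun v : ℂ => ‖v‖ ^ ε * Real.exp Real.pi) (𝓝[{v : ℂ | v.im ≤ 0}] 0) (𝓝 0) := by
      have h2 : Tendsto (fun v : ℂ => ‖v‖ ^ ε * Real.exp Real.pi) (𝓝 0)
          (𝓝 (‖(0 : ℂ)‖ ^ ε * Real.exp Real.pi)) := by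
        apply Tendsto.mul_const
        exact (continuous_norm.tendsto 0).rpow_const (Or.inr hε.le)
      rw [norm_zero, Real.zero_rpow hε.ne', zero_mul] at h2
      exact h2.mono_left nhdsWithin_le_nhds
    refine squeeze_zero' (Eventually.of_forall fun v => norm_nonneg _) ?_ h1
    filter_upwards [self_mem_nhdsWithin] with v hv
    by_cases hv0 : v = 0
    · subst hv0; rw [phi_zero, norm_zero]; positivity
    · exact norm_phi_le hs hv hv0
  · have h1 : ContinuousAt (fun v => Complex.exp (((ε : ℂ) - s * I) * lm v)) v :=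
      (continuousAt_const.mul (lm_continuousWithinAt h0 hv)).cexp
    refine (h1.congr ?_).continuousWithinAt
    filter_upwards [isOpen_ne.mem_nhds h0] with u hu
    exact (phi_of_ne _ hu).symm

lemma phi_differentiableOn (c : ℂ) : DifferentiableOn ℂ (phi c) {v : ℂ | v.im < 0} := by
  intro v hv
  have h0 : v ≠ 0 := by rintro rfl; simp at hv
  have h1 : DifferentiableAt ℂ (fun v => Complex.exp (c * lm v)) v :=
    ((lm_differentiableAt h0 (le_of_lt hv)).const_mul c).cexp
  refine (h1.congr_of_eventuallyEq ?_).differentiableWithinAt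
  filter_upwards [isOpen_ne.mem_nhds h0] with u hu
  exact phi_of_ne _ hu

/-- exponent function -/
noncomputable def ps (x : ℝ) : ℝ := x ^ (8 / 5 : ℝ)

lemma ps_nonneg {x : ℝ} (hx : 0 ≤ x) : 0 ≤ ps x := Real.rpow_nonneg hx _

lemma sq_le_ps {x : ℝ} (hx : 0 ≤ x) (h : x ≤ 1) : x ^ 2 ≤ ps x := by
  unfold ps
  rcases hx.eq_or_lt with rfl | hx
  · simp
  · rw [← Real.rpow_natCast]
    exact Real.rpow_le_rpow_of_exponent_ge hx h (by norm_num)

lemma le_ps {x : ℝ} (h : 1 ≤ x) : x ≤ ps x := by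
  unfold ps
  conv_lhs => rw [← Real.rpow_one x]
  exact Real.rpow_le_rpow_of_exponent_le h (by norm_num)

lemma ps_mul {x y : ℝ} (hx : 0 ≤ x) (hy : 0 ≤ y) : ps (x * y) = ps x * ps y :=
  Real.mul_rpow hx hy

lemma ps_two : ps 2 ≤ 4 := by
  unfold ps
  calc (2 : ℝ) ^ (8 / 5 : ℝ) ≤ 2 ^ (2 : ℝ) :=
        Real.rpow_le_rpow_of_exponent_le (by norm_num) (by norm_num)
    _ = 4 := by norm_num

lemma ps_one : ps 1 = 1 := by simp [ps]

/-- for `x ≥ 1/2`: `1 ≤ 4 ps x` and `x ≤ 2 ps x` -/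
lemma one_le_ps {x : ℝ} (h : 1 / 2 ≤ x) : 1 ≤ 4 * ps x := by
  have h1 : (1 : ℝ) ≤ ps (2 * x) := by
    have := le_ps (x := 2 * x) (by linarith)
    linarith
  rw [ps_mul (by norm_num) (by linarith)] at h1
  have := ps_two
  have h2 := ps_nonneg (x := x) (by linarith)
  nlinarith

lemma le_ps' {x : ℝ} (h : 1 / 2 ≤ x) : x ≤ 2 * ps x := by
  have h1 := le_ps (x := 2 * x) (by linarith)
  rw [ps_mul (by norm_num) (by linarith)] at h1
  have := ps_two
  have h2 := ps_nonneg (x := x) (by linarith)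
  nlinarith

lemma gg_le_ps (u : ℂ) : gg u ≤ 16 * ps ‖u‖ := by
  have hp := ps_nonneg (norm_nonneg u)
  by_cases h : ‖u‖ ≤ 1 / 2
  · have h1 := norm_lE_le u h
    have h2 : gg u = (lE u).re := by
      unfold gg lE
      rw [Complex.add_re, Complex.log_re]
    have h3 := Complex.abs_re_le_norm (lE u)
    have h4 := sq_le_ps (norm_nonneg u) (by linarith)
    rw [h2]
    have := le_abs_self (lE u).re
    linarith
  · push Not at h
    unfold gg
    have h1 : Real.log ‖1 - u‖ ≤ ‖u‖ := by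
      rcases (norm_nonneg (1 - u)).eq_or_lt with h0 | h0
      · rw [← h0, Real.log_zero]; positivity
      · have := Real.log_le_sub_one_of_pos h0
        have h5 : ‖1 - u‖ ≤ 1 + ‖u‖ := by
          calc ‖1 - u‖ ≤ ‖(1 : ℂ)‖ + ‖u‖ := norm_sub_le _ _
            _ = _ := by rw [norm_one]
        linarith
    have h2 := Complex.re_le_norm u
    have h3 := le_ps' h.le
    linarith

/-- bound of the imaginary part -/
lemma im_le_ps (u L : ℂ) (h1 : ‖u‖ ≤ 1 / 2 → L = Complex.log (1 - u)) (h2 : |L.im| ≤ Real.pi) :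
    |(L + u).im| ≤ 16 * ps ‖u‖ := by
  have hp := ps_nonneg (norm_nonneg u)
  by_cases h : ‖u‖ ≤ 1 / 2
  · rw [h1 h]
    have h3 := norm_lE_le u h
    have h4 := sq_le_ps (norm_nonneg u) (by linarith)
    have h5 := Complex.abs_im_le_norm (lE u)
    unfold lE at h5 h3
    linarith
  · push Not at h
    rw [Complex.add_im]
    have h3 := one_le_ps h.le
    have h4 := le_ps' h.le
    have h5 := Complex.abs_im_le_norm u
    have h6 := abs_add_le L.im u.im
    have h7 := Real.pi_lt_d2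
    nlinarith

end Pool.Agent.Q108.ZF
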