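import Pool.Agent.Q108.ZF.Pick

set_option autoImplicit false
open Filter Topology Complex ComplexConjugate Metric
open Pool.Agent.H574Leontev

namespace Pool.Agent.Q108.ZF

lemma exp_half_log_sq {τ : ℂ} (h : 0 < τ.re) : Complex.exp (Complex.log (τ * τ) / 2) = τ := by
  have hτ : τ ≠ 0 := by rintro rfl; simp at h
  have h1 : |Complex.arg τ| < Real.pi / 2 := Complex.abs_arg_lt_pi_div_two_iff.mpr (Or.inl h)
  rw [abs_lt] at h1
  rw [(Complex.log_mul_eq_add_log_iff hτ hτ).mpr ⟨by linarith, by linarith⟩]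
  rw [show (Complex.log τ + Complex.log τ) / 2 = Complex.log τ by ring]
  exact Complex.exp_log hτ

lemma sa_gt_ca : Real.cos al < Real.sin al := by
  have h1 := ca_sq
  have h2 := sa_sq
  have h3 := sqrt3_pos
  have h4 := ca_pos
  have h5 := sa_pos
  nlinarith

/-- bound of `1/g1` in the cone, `z`-plane, upper half -/
lemma g1_cone_upper {r : ℕ → ℝ} (h : Sol r) {z : ℂ} (hz : 1 ≤ ‖z‖) (hre : z.re ≤ 0)
    (him : |z.re| ≤ z.im) : ‖(g1 r z)⁻¹‖ ≤ 56 * ‖z‖ ^ 2 * ‖QW r I‖ := by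
  set τ := z * conj e1 with hτ
  have hre' : |z.re| = -z.re := abs_of_nonpos hre
  rw [hre'] at him
  have h1 : 0 < τ.re := by
    have e : τ.re = z.re * Real.cos al + z.im * Real.sin al := by
      rw [hτ, Complex.mul_re, Complex.conj_re, Complex.conj_im, e1_re, e1_im]; ring
    rw [e]
    have hy : 0 < z.im := by
      rcases lt_trichotomy 0 z.im with h0 | h0 | h0
      · exact h0
      · exfalso
        have h2 : z.re = 0 := by linarith
        have : z = 0 := Complex.ext h2 h0.symm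
        rw [this, norm_zero] at hz; linarith
      · exfalso; linarith
    have h2 := sa_gt_ca
    have h3 := ca_pos
    nlinarith
  have h2 : z = e1 * Complex.exp (Complex.log (τ * τ) / 2) := by
    rw [exp_half_log_sq h1, hτ]
    have : e1 * conj e1 = 1 := by rw [← inv_e1]; exact mul_inv_cancel₀ e1_ne
    rw [show e1 * (z * conj e1) = z * (e1 * conj e1) by ring, this, mul_one]
  have hn : ‖τ * τ‖ = ‖z‖ ^ 2 := by
    rw [norm_mul, hτ, norm_mul, Complex.norm_conj, norm_e1]; ring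
  have h3 : ‖τ * τ‖ / 2 ≤ (τ * τ).im := by
    rw [hn]
    have e : (τ * τ).im = (z.im ^ 2 - z.re ^ 2) / 2 - Real.sqrt 3 * z.re * z.im := by
      have : τ * τ = (z * z) * conj om := by
        rw [hτ, ← e1_mul_e1, map_mul]; ring
      rw [this, Complex.mul_im, Complex.conj_re, Complex.conj_im, Complex.mul_re, Complex.mul_im]
      simp only [om]
      ring
    rw [e, ← Complex.normSq_eq_norm_sq, Complex.normSq_apply]
    have h33 := sqrt3_gt
    have h5 : 0 ≤ -z.re := by linarith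
    have h6 : 0 ≤ z.im := by linarith
    have h7 : (-z.re) * (-z.re) ≤ Real.sqrt 3 * ((-z.re) * z.im) := by
      have : (-z.re) * (-z.re) ≤ (-z.re) * z.im := by gcongr
      have : 0 ≤ (-z.re) * z.im := by positivity
      nlinarith
    nlinarith
  have h4 : 1 ≤ ‖τ * τ‖ := by rw [hn]; nlinarith
  have h5 := QW_cone h h4 h3
  unfold QW at h5
  rw [← h2, norm_neg, hn] at h5
  exact h5

lemma g1_cone {r : ℕ → ℝ} (h : Sol r) {z : ℂ} (hz : 1 ≤ ‖z‖) (hre : z.re ≤ 0)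
    (him : |z.re| ≤ |z.im|) : ‖(g1 r z)⁻¹‖ ≤ 56 * ‖z‖ ^ 2 * ‖QW r I‖ := by
  rcases le_total 0 z.im with h0 | h0
  · rw [abs_of_nonneg h0] at him
    exact g1_cone_upper h hz hre him
  · rw [abs_of_nonpos h0] at him
    have h1 := g1_cone_upper h (z := conj z) (by rwa [Complex.norm_conj]) (by simpa using hre)
      (by simpa using him)
    rwa [g1_conj h.1, ← map_inv₀, Complex.norm_conj, Complex.norm_conj] at h1

lemma QI_pos {r : ℕ → ℝ} (h : Cls r) : 0 < ‖QW r I‖ := by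
  unfold QW
  rw [norm_neg, norm_inv, inv_pos, norm_pos_iff]
  obtain ⟨h0, h1⟩ := half_log_im (W := I) (by simp)
  exact g1_ne h h0 h1

/-- lower bound of the derivative -/
lemma deriv_lower {r : ℕ → ℝ} (h : Sol r) (k : ℕ) {d : ℂ} (hd : HasDerivAt (gg0 r) d (zU r k)) :
    ‖d‖⁻¹ ≤ 112 * 289 * ‖QW r I‖ * r k ^ 2 := by
  have hc := h.1
  have hr := hc.pos k
  have hr4 := hc.ge k
  set Wk := r k ^ 2 with hWk
  have hWk0 : 1 / 16 ≤ Wk := by rw [hWk]; nlinarith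
  set ρ := Wk + 1 with hρ
  have hq := QI_pos hc
  set c : ℂ := (Wk : ℂ) + (ρ : ℂ) * I with hcdef
  have hcim : c.im = ρ := by simp [hcdef]
  have hcre : c.re = Wk := by simp [hcdef]
  have hcn : ‖c‖ ≤ 2 * ρ := by
    calc ‖c‖ ≤ ‖(Wk : ℂ)‖ + ‖(ρ : ℂ) * I‖ := norm_add_le _ _
      _ = Wk + ρ := by
        rw [norm_mul, Complex.norm_I, Complex.norm_real, Complex.norm_real, Real.norm_eq_abs,
          Real.norm_eq_abs, abs_of_pos (by linarith), abs_of_pos (by linarith), mul_one]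
      _ ≤ _ := by linarith
  have hc1 : 1 ≤ ‖c‖ := by
    have := Complex.abs_im_le_norm c
    rw [hcim, abs_of_pos (by linarith)] at this
    linarith
  have hQc := QW_cone h hc1 (by rw [hcim]; linarith)
  have hbound : ∀ y : ℝ, 0 < y → y < ρ →
      y * ‖QW r ((Wk : ℂ) + (y : ℂ) * I)‖ ≤ 224 * ρ ^ 2 * ‖QW r I‖ := by
    intro y hy hyρ
    have hdist : dist ((Wk : ℂ) + (y : ℂ) * I) c = ρ - y := by
      rw [dist_eq_norm, hcdef]
      have : (Wk : ℂ) + (y : ℂ) * I - ((Wk : ℂ) + (ρ : ℂ) * I) = ((y - ρ : ℝ) : ℂ) * I := by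
        push_cast; ring
      rw [this, norm_mul, Complex.norm_I, Complex.norm_real, Real.norm_eq_abs, abs_of_neg (by linarith)]
      ring
    have hmem : (Wk : ℂ) + (y : ℂ) * I ∈ ball c ρ := by rw [mem_ball, hdist]; linarith
    have b := (QW_ball h hcim.ge hmem).1
    rw [hdist] at b
    have hρ0 : 0 < ρ := by linarith
    have e1 : 1 - (ρ - y) / ρ = y / ρ := by field_simp; ring
    have e2 : 1 + (ρ - y) / ρ ≤ 2 := by
      have : (ρ - y) / ρ ≤ 1 := by rw [div_le_one hρ0]; linarith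
      linarith
    rw [e1] at b
    have b2 : ‖QW r ((Wk : ℂ) + (y : ℂ) * I)‖ * (y / ρ) ≤ ‖QW r c‖ * 2 :=
      b.trans (by gcongr)
    have b3 : ‖QW r ((Wk : ℂ) + (y : ℂ) * I)‖ * y ≤ ‖QW r c‖ * 2 * ρ := by
      rwa [← mul_div_assoc, div_le_iff₀ hρ0] at b2
    calc y * ‖QW r ((Wk : ℂ) + (y : ℂ) * I)‖ ≤ ‖QW r c‖ * 2 * ρ := by linarith
      _ ≤ (56 * ‖c‖ * ‖QW r I‖) * 2 * ρ := by gcongr
      _ ≤ (56 * (2 * ρ) * ‖QW r I‖) * 2 * ρ := by gcongr
      _ = _ := by ring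
  -- the function along the segment
  let ψ : ℝ → ℂ := fun y => g1 r (e1 * Complex.exp (Complex.log ((Wk : ℂ) + (y : ℂ) * I) / 2))
  have hexp0 : Complex.exp (Complex.log (Wk : ℂ) / 2) = (r k : ℂ) := by
    have := exp_half_log_sq (τ := (r k : ℂ)) (by simpa using hr)
    rw [← this]
    congr 3
    rw [hWk]; push_cast; ring
  have hz0 : e1 * Complex.exp (Complex.log ((Wk : ℂ) + ((0 : ℝ) : ℂ) * I) / 2) = zU r k := by
    rw [Complex.ofReal_zero, zero_mul, add_zero, hexp0]; unfold zU; ring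
  have hψ0 : ψ 0 = 0 := by
    simp only [ψ]
    rw [hz0]
    exact (g1_eq_zero_iff hc _).mpr ⟨k, Or.inl rfl⟩
  have hg1d : HasDerivAt (g1 r) (deriv (g1 r) (zU r k)) (zU r k) := ((g1_differentiable hc) _).hasDerivAt
  have hdg : d = zU r k * deriv (g1 r) (zU r k) := by
    have h1 : HasDerivAt (gg0 r) (1 * g1 r (zU r k) + zU r k * deriv (g1 r) (zU r k)) (zU r k) :=
      (hasDerivAt_id (zU r k)).mul hg1d
    rw [hd.unique h1, (g1_eq_zero_iff hc _).mpr ⟨k, Or.inl rfl⟩]; ring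
  have hψd : HasDerivAt ψ (deriv (g1 r) (zU r k) * (e1 * ((r k : ℂ) * (I / (Wk : ℂ) / 2)))) 0 := by
    have a1 : HasDerivAt (fun y : ℝ => (Wk : ℂ) + (y : ℂ) * I) I 0 := by
      have := ((Complex.ofRealCLM.hasDerivAt (x := (0 : ℝ))).mul_const I).const_add (Wk : ℂ)
      simpa using this
    have hmem : (Wk : ℂ) + ((0 : ℝ) : ℂ) * I ∈ Complex.slitPlane := by
      left; simp; linarith
    have a2 : HasDerivAt (fun y : ℝ => Complex.log ((Wk : ℂ) + (y : ℂ) * I))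
        (I / ((Wk : ℂ) + ((0 : ℝ) : ℂ) * I)) 0 := a1.clog_real hmem
    have a3 := (a2.div_const 2).cexp.const_mul e1
    have a4 : HasDerivAt (g1 r) (deriv (g1 r) (zU r k))
        (e1 * Complex.exp (Complex.log ((Wk : ℂ) + ((0 : ℝ) : ℂ) * I) / 2)) := by
      rw [hz0]; exact hg1d
    have a5 := a4.comp_of_eq (0 : ℝ) a3 rfl
    refine a5.congr_deriv ?_
    rw [Complex.ofReal_zero, zero_mul, add_zero, hexp0]
  have hlim := (hψd.tendsto_slope_zero_right).norm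
  have hge : ∀ᶠ y : ℝ in 𝓝[>] 0, (224 * ρ ^ 2 * ‖QW r I‖)⁻¹ ≤ ‖y⁻¹ • (ψ (0 + y) - ψ 0)‖ := by
    have h1 : ∀ᶠ y : ℝ in 𝓝[>] 0, y < ρ :=
      nhdsWithin_le_nhds (eventually_lt_nhds (by linarith))
    filter_upwards [h1, self_mem_nhdsWithin] with y hy hy0
    have hy0' : 0 < y := hy0
    have hb := hbound y hy0' hy
    rw [zero_add, hψ0, sub_zero, norm_smul, norm_inv, Real.norm_eq_abs, abs_of_pos hy0']
    have hQ : ‖QW r ((Wk : ℂ) + (y : ℂ) * I)‖ = ‖ψ y‖⁻¹ := by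
      unfold QW; rw [norm_neg, norm_inv]
    rw [hQ] at hb
    have hψpos : 0 < ‖ψ y‖ := by
      rw [norm_pos_iff]
      obtain ⟨i0, i1⟩ := half_log_im (W := (Wk : ℂ) + (y : ℂ) * I) (by simpa using hy0')
      exact g1_ne hc i0 i1
    have hρ0 : 0 < ρ := by linarith
    rw [inv_le_comm₀ (by positivity) (by positivity), mul_inv, inv_inv]
    exact hb
  have hfin := ge_of_tendsto hlim hge
  rw [norm_mul, norm_mul, norm_e1, norm_mul, norm_div, norm_div, Complex.norm_I, Complex.norm_real,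
    Complex.norm_real, Real.norm_eq_abs, Real.norm_eq_abs, abs_of_pos hr,
    abs_of_pos (show 0 < Wk by linarith)] at hfin
  have hd2 : ‖d‖ = r k * ‖deriv (g1 r) (zU r k)‖ := by rw [hdg, norm_mul, norm_zU hc]
  set G := ‖deriv (g1 r) (zU r k)‖ with hG
  have hρ0 : 0 < ρ := by linarith
  have h2 : G * (1 * (r k * (1 / Wk / ‖(2 : ℂ)‖))) = ‖d‖ / (2 * Wk) := by
    rw [hd2]
    have : ‖(2 : ℂ)‖ = 2 := by norm_num
    rw [this]; field_simp
  rw [h2] at hfin
  have hd0 : 0 < ‖d‖ := by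
    have : 0 < (224 * ρ ^ 2 * ‖QW r I‖)⁻¹ := by positivity
    have h3 : 0 < ‖d‖ / (2 * Wk) := this.trans_le hfin
    by_contra hcon
    have : ‖d‖ = 0 := le_antisymm (not_lt.mp hcon) (norm_nonneg _)
    rw [this] at h3; simp at h3
  have h4 : ‖d‖⁻¹ * (2 * Wk) ≤ 224 * ρ ^ 2 * ‖QW r I‖ := by
    have := inv_anti₀ (by positivity) hfin
    rw [inv_inv, inv_div] at this
    calc ‖d‖⁻¹ * (2 * Wk) = 2 * Wk / ‖d‖ := by ring
      _ ≤ _ := this
  have hρW : ρ ≤ 17 * Wk := by linarith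
  have h5 : ρ ^ 2 ≤ 289 * Wk * Wk := by nlinarith
  have hW0 : 0 < Wk := by linarith
  have h6 : ‖d‖⁻¹ * (2 * Wk) ≤ 224 * (289 * Wk * Wk) * ‖QW r I‖ := h4.trans (by gcongr)
  have h7 : ‖d‖⁻¹ * (2 * Wk) ≤ (112 * 289 * ‖QW r I‖ * Wk) * (2 * Wk) := by
    calc _ ≤ _ := h6
      _ = _ := by ring
  exact le_of_mul_le_mul_right h7 (by positivity)

end Pool.Agent.Q108.ZF
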