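import Pool.Agent.Q108.ZF.Abs5
import Pool.Agent.Q108.ZF.Circ
import Pool.Agent.Q108.ZF.Bdry
import Pool.Agent.Q108.ZF.Pick2

set_option autoImplicit false
open Filter Topology Complex ComplexConjugate Asymptotics Bornology
open Pool.Agent.H574Leontev

namespace Pool.Agent.Q108.ZF

/-- all nonzero poles -/
noncomputable def lamS (r : ℕ → ℝ) : ℕ ⊕ ℕ → ℂ := Sum.elim (zU r) (zL r)

lemma zU_im {r : ℕ → ℝ} (h : Cls r) (k : ℕ) : 0 < (zU r k).im := by
  unfold zU
  rw [Complex.im_ofReal_mul, e1_im]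
  exact mul_pos (h.pos k) sa_pos

lemma zL_im {r : ℕ → ℝ} (h : Cls r) (k : ℕ) : (zL r k).im < 0 := by
  rw [zL_eq, Complex.conj_im]
  linarith [zU_im h k]

lemma zU_inj {r : ℕ → ℝ} (h : Sol r) : Function.Injective (zU r) := by
  intro k m hkm
  have := congrArg norm hkm
  rw [norm_zU h.1, norm_zU h.1] at this
  exact h.strictMono.injective this

lemma zL_inj {r : ℕ → ℝ} (h : Sol r) : Function.Injective (zL r) := by
  intro k m hkm
  have := congrArg norm hkm
  rw [norm_zL h.1, norm_zL h.1] at this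
  exact h.strictMono.injective this

lemma norm_lamS {r : ℕ → ℝ} (h : Cls r) (i : ℕ ⊕ ℕ) : ‖lamS r i‖ = r (Sum.elim id id i) := by
  rcases i with k | k
  · exact norm_zU h k
  · exact norm_zL h k

theorem exists_dat {r : ℕ → ℝ} (h : Sol r) :
    ∃ a : ℕ ⊕ ℕ → ℝ, Dat (gg0 r) (lamS r) a := by
  have hc := h.1
  choose c hc0 hcd using deriv_g0_zU h
  have hb : ∀ k, (c k)⁻¹ / r k ^ 4 ≤ 112 * 289 * ‖QW r I‖ * (r k ^ 2)⁻¹ := by
    intro k
    have h1 := deriv_lower h k (hcd k)
    rw [Complex.norm_real, Real.norm_eq_abs, abs_of_pos (hc0 k)] at h1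
    have hr := hc.pos k
    calc (c k)⁻¹ / r k ^ 4 ≤ (112 * 289 * ‖QW r I‖ * r k ^ 2) / r k ^ 4 := by gcongr
      _ = _ := by field_simp
  have hsum : Summable fun k => (c k)⁻¹ / r k ^ 4 := by
    refine Summable.of_nonneg_of_le (fun k => ?_) hb (hc.summable_sq.mul_left _)
    have := hc0 k
    have := hc.pos k
    positivity
  have hdiff := g0_differentiable hc
  refine ⟨Sum.elim (fun k => (c k)⁻¹) (fun k => (c k)⁻¹), ?_⟩
  refine ⟨hdiff, ?_, ?_, ?_, ?_, ?_, ?_, ?_, ?_, ?_⟩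
  · intro z
    rw [g0_eq_zero_iff hc]
    constructor
    · rintro (h0 | ⟨k, hk | hk⟩)
      · exact Or.inl h0
      · exact Or.inr ⟨Sum.inl k, hk⟩
      · exact Or.inr ⟨Sum.inr k, hk⟩
    · rintro (h0 | ⟨k | k, hk⟩)
      · exact Or.inl h0
      · exact Or.inr ⟨k, Or.inl hk⟩
      · exact Or.inr ⟨k, Or.inr hk⟩
  · rw [← deriv_g0_zero hc]
    exact (hdiff 0).hasDerivAt
  · rintro (k | k)
    · simp only [Sum.elim_inl, lamS, inv_inv]
      exact hcd k
    · simp only [Sum.elim_inr, lamS, inv_inv]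
      have h1 := (hcd k).conj_conj
      rw [Complex.conj_ofReal, ← zL_eq] at h1
      have e : (conj ∘ gg0 r ∘ conj : ℂ → ℂ) = gg0 r := by
        funext z
        simp only [Function.comp_apply]
        rw [g0_conj hc, Complex.conj_conj]
      rw [e] at h1
      exact h1
  · rintro (k | k)
    · exact inv_pos.mpr (hc0 k)
    · exact inv_pos.mpr (hc0 k)
  · rintro (k | k) (m | m) hkm
    · exact congrArg _ (zU_inj h hkm)
    · exfalso
      have := congrArg Complex.im hkm
      simp only [lamS, Sum.elim_inl, Sum.elim_inr] at this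
      linarith [zU_im hc k, zL_im hc m]
    · exfalso
      have := congrArg Complex.im hkm
      simp only [lamS, Sum.elim_inl, Sum.elim_inr] at this
      linarith [zU_im hc m, zL_im hc k]
    · exact congrArg _ (zL_inj h hkm)
  · intro i
    rw [norm_lamS hc]
    exact hc.ge _
  · rintro (k | k)
    · left
      rw [norm_lamS hc]; rfl
    · right
      rw [norm_lamS hc]; rfl
  · rw [tendsto_atTop]
    intro C
    have h1 : ∀ᶠ k in cofinite, C ≤ r k := by
      rw [Nat.cofinite_eq_atTop]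
      exact hc.tendsto.eventually_ge_atTop C
    rw [Filter.eventually_cofinite] at h1 ⊢
    refine ((h1.image Sum.inl).union (h1.image Sum.inr)).subset ?_
    rintro (k | k) hk
    · left
      refine ⟨k, ?_, rfl⟩
      have : ‖lamS r (Sum.inl k)‖ = r k := norm_lamS hc _
      rw [Set.mem_ofPred_eq, this] at hk
      exact hk
    · right
      refine ⟨k, ?_, rfl⟩
      have : ‖lamS r (Sum.inr k)‖ = r k := norm_lamS hc _
      rw [Set.mem_ofPred_eq, this] at hk
      exact hk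
  · apply Summable.sum
    · refine hsum.congr fun k => ?_
      have : ‖lamS r (Sum.inl k)‖ = r k := norm_lamS hc _
      simp only [Function.comp_apply, Sum.elim_inl, this]
    · refine hsum.congr fun k => ?_
      have : ‖lamS r (Sum.inr k)‖ = r k := norm_lamS hc _
      simp only [Function.comp_apply, Sum.elim_inr, this]

/-- **the meromorphic form**: the reciprocal of the entire function is a sum of simple fractions
with positive coefficients -/
theorem main_complex : ∃ (lam : ℕ ⊕ ℕ → ℂ) (a : ℕ ⊕ ℕ → ℝ), Function.Injective lam ∧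
    (∀ i, 0 < (lam i).re) ∧ (∀ i, 0 < a i) ∧ Tendsto (fun i => ‖lam i‖) cofinite atTop ∧
    Summable (fun i => a i / ‖lam i‖) ∧
    ∀ z, z ≠ 0 → (∀ i, z ≠ lam i) → z⁻¹ + ∑' i, (a i : ℂ) / (z - lam i) ≠ 0 := by
  obtain ⟨r, hr1, hr2⟩ := exists_moduli
  have h : Sol r := ⟨hr1, hr2⟩
  obtain ⟨a, D⟩ := exists_dat h
  have hcirc : CircH (gg0 r) (lamS r) := by
    obtain ⟨B, hB, hh⟩ := circ h
    refine ⟨B, hB, fun ρ hρ => ?_⟩
    obtain ⟨R, h1, h2, h3, h4⟩ := hh ρ hρ
    refine ⟨R, h1, h2, fun i => ?_, h4⟩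
    rw [norm_lamS hr1]
    exact h3 _
  have hpos : PosH (gg0 r) := by
    intro x hx
    have h1 := g1_pos_axis hr1 x hx
    unfold gg0
    rw [norm_inv, norm_mul, Complex.norm_real, Real.norm_eq_abs, abs_of_pos hx, one_div]
    apply inv_anti₀ hx
    nlinarith
  have hcone : ConeH (gg0 r) := by
    refine ⟨56 * ‖QW r I‖, by positivity, fun z hz hre him => ?_⟩
    have h1 := g1_cone h hz hre him
    have hz0 : 0 < ‖z‖ := by linarith
    unfold gg0
    rw [mul_inv, norm_mul, norm_inv]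
    calc ‖z‖⁻¹ * ‖(g1 r z)⁻¹‖ ≤ ‖z‖⁻¹ * (56 * ‖z‖ ^ 2 * ‖QW r I‖) := by gcongr
      _ = _ := by field_simp
  obtain ⟨hs, hrep⟩ := D.final hcirc hpos hcone
  refine ⟨lamS r, a, D.inj, fun i => ?_, D.apos, D.tend, hs, fun z h0 hne => ?_⟩
  · have h1 := D.re_ge i
    have h2 := D.pos i
    linarith
  · rw [← hrep z h0 hne]
    apply inv_ne_zero
    rw [Ne, D.zero_iff, not_or]
    exact ⟨h0, fun ⟨i, hi⟩ => hne i hi⟩

end Pool.Agent.Q108.ZF
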