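import Pool.Agent.Q108.ZF.Half

set_option autoImplicit false
open Filter Topology Complex ComplexConjugate Metric
open Pool.Agent.H574Leontev

namespace Pool.Agent.Q108.ZF

/-- Schwarz-Pick for maps of a disc into the upper half-plane, strict form -/
lemma pick_strict {c : ℂ} {R : ℝ} {Q : ℂ → ℂ} (hd : DifferentiableOn ℂ Q (ball c R))
    (him : ∀ z ∈ ball c R, 0 < (Q z).im) {z : ℂ} (hz : z ∈ ball c R) :
    ‖Q z‖ * (1 - dist z c / R) ≤ ‖Q c‖ * (1 + dist z c / R) ∧
    ‖Q c‖ * (1 - dist z c / R) ≤ ‖Q z‖ * (1 + dist z c / R) := by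
  have hR : 0 < R := (dist_nonneg).trans_lt hz
  have hc : c ∈ ball c R := mem_ball_self hR
  have hden : ∀ w ∈ ball c R, Q w - conj (Q c) ≠ 0 := by
    intro w hw h0
    have := congrArg Complex.im h0
    simp only [Complex.sub_im, Complex.conj_im, Complex.zero_im] at this
    have := him w hw
    have := him c hc
    linarith
  let B : ℂ → ℂ := fun w => (Q w - Q c) / (Q w - conj (Q c))
  have hBd : DifferentiableOn ℂ B (ball c R) :=
    (hd.sub_const _).div (hd.sub_const _) hden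
  have hBc : B c = 0 := by simp [B]
  have hmaps : Set.MapsTo B (ball c R) (ball (B c) 1) := by
    intro w hw
    rw [hBc, mem_ball_zero_iff]
    simp only [B]
    rw [norm_div, div_lt_one (norm_pos_iff.mpr (hden w hw))]
    have h1 := him w hw
    have h2 := him c hc
    have h3 : ‖Q w - Q c‖ ^ 2 < ‖Q w - conj (Q c)‖ ^ 2 := by
      rw [← Complex.normSq_eq_norm_sq, ← Complex.normSq_eq_norm_sq, Complex.normSq_apply,
        Complex.normSq_apply]
      simp only [Complex.sub_re, Complex.sub_im, Complex.conj_re, Complex.conj_im]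
      nlinarith
    exact lt_of_pow_lt_pow_left₀ 2 (norm_nonneg _) h3
  have hs := Complex.dist_le_div_mul_dist_of_mapsTo_ball hBd
    (hmaps.mono_right ball_subset_closedBall) hz
  rw [hBc, dist_zero_right] at hs
  set t := dist z c / R with ht
  have hBz : ‖B z‖ ≤ t := by rw [ht]; calc ‖B z‖ ≤ _ := hs
    _ = _ := by ring
  have ht0 : 0 ≤ t := by positivity
  have e1 : Q z - Q c = B z * (Q z - conj (Q c)) := by
    simp only [B]; rw [div_mul_cancel₀ _ (hden z hz)]
  have hcc : ‖conj (Q c)‖ = ‖Q c‖ := Complex.norm_conj _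
  have hn : ‖Q z - Q c‖ ≤ t * (‖Q z‖ + ‖Q c‖) := by
    rw [e1, norm_mul]
    apply mul_le_mul hBz _ (norm_nonneg _) ht0
    calc ‖Q z - conj (Q c)‖ ≤ ‖Q z‖ + ‖conj (Q c)‖ := norm_sub_le _ _
      _ = _ := by rw [hcc]
  have h4 : ‖Q z‖ ≤ ‖Q z - Q c‖ + ‖Q c‖ := by
    have := norm_add_le (Q z - Q c) (Q c)
    rwa [sub_add_cancel] at this
  have h5 : ‖Q c‖ ≤ ‖Q z - Q c‖ + ‖Q z‖ := by
    have := norm_sub_le (Q z) (Q z - Q c)
    rw [sub_sub_cancel] at this
    linarith
  constructor <;> nlinarith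

/-- Schwarz-Pick, closed form -/
lemma pick {c : ℂ} {R : ℝ} {Q : ℂ → ℂ} (hd : DifferentiableOn ℂ Q (ball c R))
    (him : ∀ z ∈ ball c R, 0 ≤ (Q z).im) {z : ℂ} (hz : z ∈ ball c R) :
    ‖Q z‖ * (1 - dist z c / R) ≤ ‖Q c‖ * (1 + dist z c / R) ∧
    ‖Q c‖ * (1 - dist z c / R) ≤ ‖Q z‖ * (1 + dist z c / R) := by
  have hR : 0 < R := (dist_nonneg).trans_lt hz
  have ht0 : 0 ≤ dist z c / R := by positivity
  have ht1 : dist z c / R < 1 := by rw [div_lt_one hR]; exact hz
  have key : ∀ δ : ℝ, 0 < δ →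
      ‖Q z + δ * I‖ * (1 - dist z c / R) ≤ ‖Q c + δ * I‖ * (1 + dist z c / R) ∧
      ‖Q c + δ * I‖ * (1 - dist z c / R) ≤ ‖Q z + δ * I‖ * (1 + dist z c / R) := by
    intro δ hδ
    exact pick_strict (Q := fun w => Q w + δ * I) (hd.add_const _) (fun w hw => by
      have := him w hw
      simp only [Complex.add_im, Complex.mul_im, Complex.ofReal_re, Complex.I_im, Complex.ofReal_im,
        Complex.I_re]
      linarith) hz
  have hn : ∀ δ : ℝ, 0 < δ → ‖(δ : ℂ) * I‖ = δ := by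
    intro δ hδ
    simp [abs_of_pos hδ]
  have up : ∀ (w : ℂ) (δ : ℝ), 0 < δ → ‖w + δ * I‖ ≤ ‖w‖ + δ := by
    intro w δ hδ
    have := norm_add_le w (δ * I)
    rwa [hn δ hδ] at this
  have dn : ∀ (w : ℂ) (δ : ℝ), 0 < δ → ‖w‖ - δ ≤ ‖w + δ * I‖ := by
    intro w δ hδ
    have := norm_sub_le (w + δ * I) (δ * I)
    rw [add_sub_cancel_right, hn δ hδ] at this
    linarith
  constructor
  · apply le_of_forall_pos_le_add
    intro η hη
    have h := (key (η / 2) (by linarith)).1
    have h1 := up (Q c) (η / 2) (by linarith)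
    have h2 := dn (Q z) (η / 2) (by linarith)
    nlinarith
  · apply le_of_forall_pos_le_add
    intro η hη
    have h := (key (η / 2) (by linarith)).2
    have h1 := up (Q z) (η / 2) (by linarith)
    have h2 := dn (Q c) (η / 2) (by linarith)
    nlinarith

/-- the inverse function in the half-plane coordinate -/
noncomputable def QW (r : ℕ → ℝ) (W : ℂ) : ℂ := -(g1 r (e1 * Complex.exp (Complex.log W / 2)))⁻¹

lemma half_log_im {W : ℂ} (hW : 0 < W.im) : 0 < (Complex.log W / 2).im ∧ (Complex.log W / 2).im < be := by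
  have h1 : (Complex.log W / 2).im = Complex.arg W / 2 := by
    have : Complex.log W / 2 = Complex.log W * ((1 / 2 : ℝ) : ℂ) := by push_cast; ring
    rw [this, Complex.im_mul_ofReal, Complex.log_im]; ring
  rw [h1]
  have h2 : 0 < Complex.arg W := by
    rcases lt_trichotomy 0 (Complex.arg W) with h | h | h
    · exact h
    · exfalso
      have := (Complex.arg_eq_zero_iff.mp h.symm).2
      linarith
    · exfalso
      have := Complex.arg_neg_iff.mp h
      linarith
  have h3 := Complex.arg_le_pi W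
  have hpi := Real.pi_pos
  constructor
  · linarith
  · unfold be; linarith

lemma g1_ne {r : ℕ → ℝ} (hc : Cls r) {ζ : ℂ} (h0 : 0 < ζ.im) (h1 : ζ.im < be) :
    g1 r (e1 * Complex.exp ζ) ≠ 0 := by
  set z := e1 * Complex.exp ζ with hz
  intro hcon
  rw [g1_eq_zero_iff hc] at hcon
  obtain ⟨m, hm | hm⟩ := hcon
  · have h3 := uu_im_pos hc m h0 h1.le
    have : uu r m ζ = z / zU r m := by
      unfold uu zU
      rw [hz, mul_comm (r m : ℂ) e1, mul_div_mul_left _ _ e1_ne]
    rw [this, hm, div_self (zU_ne hc m)] at h3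
    simp at h3
  · have h3 := uu_om_re hc m h0.le h1.le
    have : uu r m ζ * om = z / zL r m := by
      unfold uu zL
      rw [hz, ← e1_mul_e1, div_mul_eq_div_div_swap, div_eq_mul_inv _ (conj e1), inv_conj_e1]
      ring
    rw [this, hm, div_self (zL_ne hc m)] at h3
    norm_num at h3

lemma QW_im {r : ℕ → ℝ} (h : Sol r) {W : ℂ} (hW : 0 < W.im) : 0 ≤ (QW r W).im := by
  obtain ⟨h0, h1⟩ := half_log_im hW
  have h2 := g1_im_nonneg h h0 h1
  unfold QW
  rw [Complex.neg_im, Complex.inv_im]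
  have := Complex.normSq_nonneg (g1 r (e1 * Complex.exp (Complex.log W / 2)))
  have : 0 ≤ (g1 r (e1 * Complex.exp (Complex.log W / 2))).im /
    Complex.normSq (g1 r (e1 * Complex.exp (Complex.log W / 2))) := by positivity
  rw [neg_div]
  linarith

lemma QW_differentiableAt {r : ℕ → ℝ} (hc : Cls r) {W : ℂ} (hW : 0 < W.im) :
    DifferentiableAt ℂ (QW r) W := by
  obtain ⟨h0, h1⟩ := half_log_im hW
  have hne := g1_ne hc h0 h1
  unfold QW
  have hlog : DifferentiableAt ℂ Complex.log W :=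
    Complex.differentiableAt_log (Or.inr hW.ne')
  have h2 : DifferentiableAt ℂ (fun W => e1 * Complex.exp (Complex.log W / 2)) W := by fun_prop
  exact (((g1_differentiable hc _).comp W h2).inv hne).neg

lemma QW_ball {r : ℕ → ℝ} (h : Sol r) {c : ℂ} {R : ℝ} (hcR : R ≤ c.im) {z : ℂ}
    (hz : z ∈ ball c R) :
    ‖QW r z‖ * (1 - dist z c / R) ≤ ‖QW r c‖ * (1 + dist z c / R) ∧
    ‖QW r c‖ * (1 - dist z c / R) ≤ ‖QW r z‖ * (1 + dist z c / R) := by
  have him : ∀ w ∈ ball c R, 0 < w.im := by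
    intro w hw
    have h1 : |(w - c).im| < R := (Complex.abs_im_le_norm _).trans_lt (by rwa [← dist_eq_norm])
    rw [Complex.sub_im, abs_lt] at h1
    linarith
  exact pick (fun w hw => (QW_differentiableAt h.1 (him w hw)).differentiableWithinAt)
    (fun w hw => QW_im h (him w hw)) hz

/-- bound of `1 / g1` in the cone -/
lemma QW_cone {r : ℕ → ℝ} (h : Sol r) {W : ℂ} (hW : 1 ≤ ‖W‖) (hW2 : ‖W‖ / 2 ≤ W.im) :
    ‖QW r W‖ ≤ 56 * ‖W‖ * ‖QW r I‖ := by
  set M := 2 * ‖W‖ with hM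
  set c : ℂ := (M : ℂ) * I with hc
  have hM2 : 2 ≤ M := by linarith
  have hcim : c.im = M := by simp [hc]
  have hcre : c.re = 0 := by simp [hc]
  -- first step
  have hd1 : dist W c ^ 2 ≤ 3 * ‖W‖ ^ 2 := by
    rw [dist_eq_norm, ← Complex.normSq_eq_norm_sq, Complex.normSq_apply, Complex.sub_re, Complex.sub_im,
      hcim, hcre]
    have h1 : ‖W‖ ^ 2 = W.re * W.re + W.im * W.im := by
      rw [← Complex.normSq_eq_norm_sq, Complex.normSq_apply]
    have h2 : 0 < ‖W‖ := by linarith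
    nlinarith
  have ht1 : dist W c / M ≤ 13 / 15 := by
    rw [div_le_iff₀ (by linarith)]
    refine (sq_le_sq₀ dist_nonneg (by linarith)).mp (hd1.trans ?_)
    rw [hM]
    nlinarith [sq_nonneg ‖W‖]
  have hz1 : W ∈ ball c M := by
    rw [mem_ball]
    have := ht1
    rw [div_le_iff₀ (by linarith)] at this
    linarith
  have b1 := (QW_ball h hcim.ge hz1).1
  have hz2 : I ∈ ball c M := by
    rw [mem_ball, dist_eq_norm]
    have : I - c = ((1 - M : ℝ) : ℂ) * I := by rw [hc]; push_cast; ring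
    rw [this, norm_mul, Complex.norm_I, Complex.norm_real, Real.norm_eq_abs, abs_of_neg (by linarith)]
    linarith
  have hd2 : dist I c = M - 1 := by
    rw [dist_eq_norm]
    have : I - c = ((1 - M : ℝ) : ℂ) * I := by rw [hc]; push_cast; ring
    rw [this, norm_mul, Complex.norm_I, Complex.norm_real, Real.norm_eq_abs, abs_of_neg (by linarith)]
    ring
  have b2 := (QW_ball h hcim.ge hz2).2
  rw [hd2] at b2
  have hq1 : 0 ≤ ‖QW r W‖ := norm_nonneg _
  have hq2 : 0 ≤ ‖QW r c‖ := norm_nonneg _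
  have hq3 : 0 ≤ ‖QW r I‖ := norm_nonneg _
  have ht0 : 0 ≤ dist W c / M := by positivity
  have s1 : ‖QW r W‖ ≤ 14 * ‖QW r c‖ := by
    have i1 : ‖QW r W‖ * (2 / 15) ≤ ‖QW r W‖ * (1 - dist W c / M) := by
      apply mul_le_mul_of_nonneg_left _ hq1; linarith
    have i2 : ‖QW r c‖ * (1 + dist W c / M) ≤ ‖QW r c‖ * (28 / 15) := by
      apply mul_le_mul_of_nonneg_left _ hq2; linarith
    linarith
  have s2 : ‖QW r c‖ ≤ 2 * M * ‖QW r I‖ := by
    have e1 : (1 - (M - 1) / M) = 1 / M := by field_simp; ring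
    have e2 : (1 + (M - 1) / M) = (2 * M - 1) / M := by field_simp; ring
    rw [e1, e2, mul_one_div, mul_div_assoc', div_le_div_iff_of_pos_right (by linarith)] at b2
    nlinarith
  calc ‖QW r W‖ ≤ 14 * ‖QW r c‖ := s1
    _ ≤ 14 * (2 * M * ‖QW r I‖) := by gcongr
    _ = 56 * ‖W‖ * ‖QW r I‖ := by rw [hM]; ring

end Pool.Agent.Q108.ZF
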