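import Pool.Agent.Q108.ZF.Theta
import Pool.Agent.H574Leontev.Prod

set_option autoImplicit false
open Filter Topology Complex ComplexConjugate
open Pool.Agent.H574Leontev

namespace Pool.Agent.Q108.ZF

/-- zeros on the upper ray -/
noncomputable def zU (r : ℕ → ℝ) (k : ℕ) : ℂ := r k * e1
/-- zeros on the lower ray -/
noncomputable def zL (r : ℕ → ℝ) (k : ℕ) : ℂ := r k * conj e1

lemma zL_eq (r : ℕ → ℝ) (k : ℕ) : zL r k = conj (zU r k) := by simp [zL, zU]

lemma norm_zU {r : ℕ → ℝ} (h : Cls r) (k : ℕ) : ‖zU r k‖ = r k := by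
  simp [zU, norm_e1, abs_of_pos (h.pos k)]

lemma norm_zL {r : ℕ → ℝ} (h : Cls r) (k : ℕ) : ‖zL r k‖ = r k := by
  rw [zL_eq, Complex.norm_conj, norm_zU h]

lemma zU_ne {r : ℕ → ℝ} (h : Cls r) (k : ℕ) : zU r k ≠ 0 := by
  rw [← norm_pos_iff, norm_zU h]; exact h.pos k

lemma zL_ne {r : ℕ → ℝ} (h : Cls r) (k : ℕ) : zL r k ≠ 0 := by
  rw [← norm_pos_iff, norm_zL h]; exact h.pos k

lemma sqU {r : ℕ → ℝ} (h : Cls r) : SqSummable (zU r) := by
  unfold SqSummable
  refine h.summable_sq.congr fun k => ?_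
  rw [norm_inv, norm_zU h, inv_pow]

lemma sqL {r : ℕ → ℝ} (h : Cls r) : SqSummable (zL r) := by
  unfold SqSummable
  refine h.summable_sq.congr fun k => ?_
  rw [norm_inv, norm_zL h, inv_pow]

/-- the entire function without the zero at the origin -/
noncomputable def g1 (r : ℕ → ℝ) (z : ℂ) : ℂ := Complex.exp (bb * z) * WW (zU r) z * WW (zL r) z

/-- the entire function -/
noncomputable def gg0 (r : ℕ → ℝ) (z : ℂ) : ℂ := z * g1 r z

lemma g1_differentiable {r : ℕ → ℝ} (h : Cls r) : Differentiable ℂ (g1 r) := by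
  have h1 := (sqU h).differentiable
  have h2 := (sqL h).differentiable
  unfold g1
  fun_prop

lemma g0_differentiable {r : ℕ → ℝ} (h : Cls r) : Differentiable ℂ (gg0 r) := by
  have := g1_differentiable h
  unfold gg0
  fun_prop

lemma g1_eq_zero_iff {r : ℕ → ℝ} (h : Cls r) (z : ℂ) :
    g1 r z = 0 ↔ ∃ k, z = zU r k ∨ z = zL r k := by
  unfold g1
  rw [mul_eq_zero, mul_eq_zero, WW_eq_zero_iff (sqU h), WW_eq_zero_iff (sqL h)]
  constructor
  · rintro ((h1 | ⟨k, hk⟩) | ⟨k, hk⟩)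
    · exact absurd h1 (Complex.exp_ne_zero _)
    · exact ⟨k, Or.inl ((div_eq_one_iff_eq (zU_ne h k)).mp hk)⟩
    · exact ⟨k, Or.inr ((div_eq_one_iff_eq (zL_ne h k)).mp hk)⟩
  · rintro ⟨k, hk | hk⟩
    · exact Or.inl (Or.inr ⟨k, by rw [hk, div_self (zU_ne h k)]⟩)
    · exact Or.inr ⟨k, by rw [hk, div_self (zL_ne h k)]⟩

lemma g0_eq_zero_iff {r : ℕ → ℝ} (h : Cls r) (z : ℂ) :
    gg0 r z = 0 ↔ z = 0 ∨ ∃ k, z = zU r k ∨ z = zL r k := by
  unfold gg0
  rw [mul_eq_zero, g1_eq_zero_iff h]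

lemma WW_at_zero {ι : Type*} (lam : ι → ℂ) : WW lam 0 = 1 := by
  unfold WW; simp [E1_zero]

lemma g1_zero (r : ℕ → ℝ) : g1 r 0 = 1 := by
  unfold g1; simp [WW_at_zero]

lemma deriv_g0_zero {r : ℕ → ℝ} (h : Cls r) : deriv (gg0 r) 0 = 1 := by
  have h1 : HasDerivAt (gg0 r) (1 * g1 r 0 + 0 * deriv (g1 r) 0) 0 :=
    (hasDerivAt_id (0 : ℂ)).mul ((g1_differentiable h) 0).hasDerivAt
  rw [h1.deriv, g1_zero]; ring

lemma E1_conj (u : ℂ) : E1 (conj u) = conj (E1 u) := by
  unfold E1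
  simp [← Complex.exp_conj]

lemma WW_conj {ι : Type*} {lam : ι → ℂ} (hs : SqSummable lam) (z : ℂ) :
    conj (WW lam z) = WW (fun i => conj (lam i)) (conj z) := by
  have h1 := ((hs.multipliable z).hasProd.map (starRingEnd ℂ) Complex.continuous_conj)
  unfold WW
  rw [← h1.tprod_eq]
  refine tprod_congr fun i => ?_
  simp only [Function.comp_apply]
  rw [← E1_conj, map_div₀]

lemma g1_conj {r : ℕ → ℝ} (h : Cls r) (z : ℂ) : g1 r (conj z) = conj (g1 r z) := by
  unfold g1
  rw [map_mul, map_mul, WW_conj (sqU h), WW_conj (sqL h), ← Complex.exp_conj]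
  have e1 : (fun i => conj (zU r i)) = zL r := by funext i; rw [zL_eq]
  have e2 : (fun i => conj (zL r i)) = zU r := by funext i; rw [zL_eq, Complex.conj_conj]
  rw [e1, e2]
  simp only [map_mul, Complex.conj_ofReal]
  ring

lemma g0_conj {r : ℕ → ℝ} (h : Cls r) (z : ℂ) : gg0 r (conj z) = conj (gg0 r z) := by
  unfold gg0; rw [g1_conj h, map_mul]

/-- one real factor -/
lemma real_factor (s c : ℝ) (hs : 0 ≤ s) (hc0 : 0 ≤ c) (hc : c ≤ 1 / 2) :
    1 ≤ (1 - 2 * s * c + s ^ 2) * Real.exp (2 * s * c) := by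
  set x := 2 * s * c with hx
  have hx0 : 0 ≤ x := by positivity
  have h2 : 1 + x + x ^ 2 / 2 ≤ Real.exp x := Real.quadratic_le_exp_of_nonneg hx0
  have h3 : x ^ 2 / 2 ≤ s ^ 2 := by
    rw [hx]
    have : c ^ 2 ≤ 1 / 4 := by nlinarith
    nlinarith [sq_nonneg s]
  have h4 : 0 < 1 - x + x ^ 2 / 2 := by nlinarith [sq_nonneg (x - 1)]
  calc (1 : ℝ) ≤ (1 - x + x ^ 2 / 2) * (1 + x + x ^ 2 / 2) := by nlinarith [sq_nonneg (x ^ 2)]
    _ ≤ (1 - x + s ^ 2) * Real.exp x := by
        apply mul_le_mul _ h2 (by positivity) (by linarith)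
        linarith

lemma gg_real_nonneg (s : ℝ) (hs : 0 ≤ s) (e : ℂ) (he : ‖e‖ = 1) (he1 : 0 ≤ e.re)
    (he2 : e.re ≤ 1 / 2) : 0 ≤ gg ((s : ℂ) * e) := by
  unfold gg
  have h1 : ‖1 - (s : ℂ) * e‖ ^ 2 = 1 - 2 * s * e.re + s ^ 2 := by
    rw [← Complex.normSq_eq_norm_sq, Complex.normSq_apply]
    have : e.re * e.re + e.im * e.im = 1 := by
      rw [← Complex.normSq_apply, Complex.normSq_eq_norm_sq, he]; norm_num
    simp only [Complex.sub_re, Complex.one_re, Complex.mul_re, Complex.ofReal_re, Complex.ofReal_im,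
      Complex.sub_im, Complex.one_im, Complex.mul_im]
    linear_combination (s ^ 2) * this
  have h2 := real_factor s e.re hs he1 he2
  rw [← h1] at h2
  have hpos : 0 < ‖1 - (s : ℂ) * e‖ := by
    by_contra hcon
    have : ‖1 - (s : ℂ) * e‖ = 0 := le_antisymm (not_lt.mp hcon) (norm_nonneg _)
    rw [this] at h2
    norm_num at h2
  have h3 : 0 ≤ Real.log (‖1 - (s : ℂ) * e‖ ^ 2 * Real.exp (2 * s * e.re)) := Real.log_nonneg h2
  rw [Real.log_mul (by positivity) (Real.exp_pos _).ne', Real.log_exp, Real.log_pow] at h3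
  simp only [Complex.mul_re, Complex.ofReal_re, Complex.ofReal_im]
  push_cast at h3
  linarith

lemma inv_e1 : e1⁻¹ = conj e1 := by
  rw [Complex.inv_def, Complex.normSq_eq_norm_sq, norm_e1]; simp

lemma inv_conj_e1 : (conj e1)⁻¹ = e1 := by
  rw [← inv_e1, inv_inv]

lemma div_zU (r : ℕ → ℝ) (k : ℕ) (x : ℝ) : (x : ℂ) / zU r k = ((x / r k : ℝ) : ℂ) * conj e1 := by
  unfold zU
  rw [div_mul_eq_div_div, div_eq_mul_inv ((x : ℂ) / _), inv_e1]; push_cast; rfl

lemma div_zL (r : ℕ → ℝ) (k : ℕ) (x : ℝ) : (x : ℂ) / zL r k = ((x / r k : ℝ) : ℂ) * e1 := by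
  unfold zL
  rw [div_mul_eq_div_div, div_eq_mul_inv ((x : ℂ) / _), inv_conj_e1]; push_cast; rfl

/-- on the positive axis `|g1| ≥ 1` -/
lemma g1_pos_axis {r : ℕ → ℝ} (h : Cls r) (x : ℝ) (hx : 0 < x) : 1 ≤ ‖g1 r x‖ := by
  have hca := ca_pos
  have hca2 := ca_lt
  have hsa := sa_pos
  have neU : ∀ k, (x : ℂ) / zU r k ≠ 1 := by
    intro k hk
    rw [div_zU] at hk
    have := congrArg Complex.im hk
    simp only [Complex.mul_im, Complex.ofReal_re, Complex.ofReal_im, Complex.conj_im, e1_im,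
      Complex.one_im] at this
    have h2 := h.pos k
    have : 0 < x / r k * Real.sin al := by positivity
    linarith
  have neL : ∀ k, (x : ℂ) / zL r k ≠ 1 := by
    intro k hk
    rw [div_zL] at hk
    have := congrArg Complex.im hk
    simp only [Complex.mul_im, Complex.ofReal_re, Complex.ofReal_im, e1_im,
      Complex.one_im] at this
    have h2 := h.pos k
    have : 0 < x / r k * Real.sin al := by positivity
    linarith
  unfold g1
  rw [norm_mul, norm_mul, norm_WW (sqU h) _ neU, norm_WW (sqL h) _ neL, Complex.norm_exp]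
  have t1 : 0 ≤ ∑' k, gg ((x : ℂ) / zU r k) := by
    refine tsum_nonneg fun k => ?_
    rw [div_zU]
    exact gg_real_nonneg _ (div_nonneg hx.le (h.pos k).le) _ (by rw [Complex.norm_conj, norm_e1])
      (by rw [Complex.conj_re, e1_re]; exact hca.le) (by rw [Complex.conj_re, e1_re]; exact hca2.le)
  have t2 : 0 ≤ ∑' k, gg ((x : ℂ) / zL r k) := by
    refine tsum_nonneg fun k => ?_
    rw [div_zL]
    exact gg_real_nonneg _ (div_nonneg hx.le (h.pos k).le) _ norm_e1
      (by rw [e1_re]; exact hca.le) (by rw [e1_re]; exact hca2.le)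
  have t3 : 0 ≤ (((bb : ℝ) : ℂ) * x).re := by
    simp only [Complex.mul_re, Complex.ofReal_re, Complex.ofReal_im]
    have := bb_pos
    nlinarith
  have i1 := Real.one_le_exp t1
  have i2 := Real.one_le_exp t2
  have i3 := Real.one_le_exp t3
  calc (1 : ℝ) = 1 * 1 * 1 := by norm_num
    _ ≤ _ := by gcongr

/-- the logarithm of the elementary factor -/
noncomputable def lE (u : ℂ) : ℂ := Complex.log (1 - u) + u

lemma exp_lE (u : ℂ) (hu : u ≠ 1) : Complex.exp (lE u) = E1 u := by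
  unfold lE E1
  rw [Complex.exp_add, Complex.exp_log (sub_ne_zero.mpr hu.symm)]

lemma norm_lE_le (u : ℂ) (hu : ‖u‖ ≤ 1 / 2) : ‖lE u‖ ≤ ‖u‖ ^ 2 := by
  have h := Complex.norm_log_one_add_sub_self_le (z := -u) (by rw [norm_neg]; linarith)
  rw [norm_neg] at h
  have e : lE u = Complex.log (1 + -u) - -u := by unfold lE; ring_nf
  rw [e]
  refine h.trans ?_
  have : (1 - ‖u‖)⁻¹ ≤ 2 := by
    rw [inv_le_comm₀ (by linarith) (by norm_num)]; linarith
  have h2 : 0 ≤ ‖u‖ ^ 2 := by positivity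
  calc ‖u‖ ^ 2 * (1 - ‖u‖)⁻¹ / 2 ≤ ‖u‖ ^ 2 * 2 / 2 := by gcongr
    _ = _ := by ring

lemma summable_lE {ι : Type*} {lam : ι → ℂ} (hs : SqSummable lam) (z : ℂ) :
    Summable fun i => lE (z / lam i) := by
  have h := hs.eventually_small (2 * ‖z‖) (by positivity)
  refine Summable.of_norm_bounded_eventually (g := fun i => ‖z‖ ^ 2 * ‖(lam i)⁻¹‖ ^ 2)
    (hs.mul_left _) ?_
  filter_upwards [h] with i hi
  have h1 : ‖(2 * z) / lam i‖ ≤ 1 := hi (2 * z) (by rw [norm_mul]; simp)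
  have h2 : ‖z / lam i‖ ≤ 1 / 2 := by
    rw [mul_div_assoc, norm_mul] at h1
    simp at h1
    rw [norm_div]
    linarith
  calc ‖lE (z / lam i)‖ ≤ ‖z / lam i‖ ^ 2 := norm_lE_le _ h2
    _ = _ := by rw [div_eq_mul_inv, norm_mul]; ring

lemma WW_eq_exp {ι : Type*} {lam : ι → ℂ} (hs : SqSummable lam) (z : ℂ)
    (hz : ∀ i, z / lam i ≠ 1) : WW lam z = Complex.exp (∑' i, lE (z / lam i)) := by
  have h := (summable_lE hs z).hasSum.cexp
  unfold WW
  rw [← h.tprod_eq]
  refine tprod_congr fun i => ?_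
  simp only [Function.comp_apply]
  rw [exp_lE _ (hz i)]

lemma e1_mul_e1 : e1 * e1 = om := by rw [← e1_sq]; ring

lemma zU_div_zL {r : ℕ → ℝ} (k m : ℕ) : zU r k / zL r m = ((r k / r m : ℝ) : ℂ) * om := by
  unfold zU zL
  rw [mul_div_mul_comm, div_eq_mul_inv e1, inv_conj_e1, e1_mul_e1]
  push_cast; rfl

lemma zU_div_zU {r : ℕ → ℝ} (k m : ℕ) : zU r k / zU r m = ((r k / r m : ℝ) : ℂ) := by
  unfold zU
  rw [mul_div_mul_right _ _ e1_ne]
  push_cast; rfl

lemma w_eq_im (s : ℝ) : w s = (lE ((s : ℂ) * om)).im := rfl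

/-- the solution of the phase equations -/
def Sol (r : ℕ → ℝ) : Prop := Cls r ∧ ∀ k, theta r (r k) = Real.pi * (k + 1)

lemma Sol.strictMono {r : ℕ → ℝ} (h : Sol r) : StrictMono r := by
  intro k m hkm
  by_contra hcon
  push Not at hcon
  have := theta_mono h.1 (h.1.pos m).le hcon
  rw [h.2, h.2] at this
  have h2 : (k : ℝ) < m := by exact_mod_cast hkm
  have := Real.pi_pos
  nlinarith

lemma zL_at (r : ℕ → ℝ) (h : Sol r) (k : ℕ) :
    ∃ R : ℝ, WW (zL r) (zU r k) = Complex.exp R * Complex.exp ((Real.pi * (k + 1) - r k : ℝ) * I) := by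
  have hc := h.1
  have hne : ∀ m, zU r k / zL r m ≠ 1 := by
    intro m hm
    rw [zU_div_zL] at hm
    have h3 := congrArg Complex.re hm
    simp only [Complex.mul_re, Complex.ofReal_re, Complex.ofReal_im, om, Complex.one_re] at h3
    have h4 : 0 < r k / r m := div_pos (hc.pos k) (hc.pos m)
    have h5 := sqrt3_pos
    nlinarith [mul_pos h4 h5]
  rw [WW_eq_exp (sqL hc) _ hne]
  refine ⟨(∑' m, lE (zU r k / zL r m)).re, ?_⟩
  rw [← Complex.exp_add]
  congr 1
  have him : (∑' m, lE (zU r k / zL r m)).im = Real.pi * (k + 1) - r k := by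
    rw [Complex.im_tsum (summable_lE (sqL hc) _)]
    have h1 := h.2 k
    unfold theta at h1
    have h2 : ∑' m, (lE (zU r k / zL r m)).im = ∑' m, w (r k / r m) := by
      refine tsum_congr fun m => ?_
      rw [zU_div_zL, w_eq_im]
    rw [h2]; linarith
  rw [← him]
  exact (Complex.re_add_im _).symm

lemma zU_at (r : ℕ → ℝ) (h : Sol r) (k : ℕ) :
    ∃ X : ℝ, 0 < X ∧ WW (Function.update (zU r) k 0) (zU r k) = (-1) ^ k * X := by
  have hc := h.1
  have hsm := h.strictMono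
  have hs := (sqU hc).update k
  set lam := Function.update (zU r) k 0 with hlam
  have hne : ∀ m, zU r k / lam m ≠ 1 := by
    intro m hm
    by_cases hmk : m = k
    · subst hmk; simp [hlam] at hm
    · rw [hlam, Function.update_of_ne hmk, zU_div_zU] at hm
      have : r k / r m = 1 := by exact_mod_cast hm
      rw [div_eq_one_iff_eq (hc.pos m).ne'] at this
      exact hmk (hsm.injective this).symm
  refine ⟨‖WW lam (zU r k)‖, norm_pos_iff.mpr (WW_ne_zero hs _ hne), ?_⟩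
  have hm := hs.multipliable (zU r k)
  have hp1 : HasProd (fun m => ((‖E1 (zU r k / lam m)‖ : ℝ) : ℂ)) ((‖WW lam (zU r k)‖ : ℝ) : ℂ) := by
    have := hm.hasProd.norm
    exact this.map Complex.ofRealHom Complex.continuous_ofReal
  have hp2 : HasProd (fun m : ℕ => if m < k then (-1 : ℂ) else 1) ((-1) ^ k) := by
    have : HasProd (fun m : ℕ => if m < k then (-1 : ℂ) else 1)
        (∏ m ∈ Finset.range k, (if m < k then (-1 : ℂ) else 1)) :=
      hasProd_prod_of_ne_finset_one (fun m hm => by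
        simp only [Finset.mem_range, not_lt] at hm
        exact if_neg (by omega))
    have e : ∏ m ∈ Finset.range k, (if m < k then (-1 : ℂ) else 1) = (-1) ^ k := by
      rw [Finset.prod_congr rfl (g := fun _ => (-1 : ℂ)) (fun m hm => if_pos (Finset.mem_range.mp hm))]
      simp
    rwa [e] at this
  have hp3 := hp2.mul hp1
  have e : (fun m => (if m < k then (-1 : ℂ) else 1) * ((‖E1 (zU r k / lam m)‖ : ℝ) : ℂ)) =
      fun m => E1 (zU r k / lam m) := by
    funext m
    by_cases hmk : m = k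
    · subst hmk
      simp [hlam, E1_zero]
    · rw [hlam, Function.update_of_ne hmk, zU_div_zU]
      have hreal : E1 ((r k / r m : ℝ) : ℂ) = (((1 - r k / r m) * Real.exp (r k / r m) : ℝ) : ℂ) := by
        unfold E1; push_cast; rfl
      rw [hreal, Complex.norm_real, Real.norm_eq_abs]
      have hm0 := hc.pos m
      split_ifs with hlt
      · have h1 : r m < r k := hsm hlt
        have h2 : 1 - r k / r m < 0 := by
          rw [sub_neg, lt_div_iff₀ hm0]; linarith
        have h3 : (1 - r k / r m) * Real.exp (r k / r m) < 0 :=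
          mul_neg_of_neg_of_pos h2 (Real.exp_pos _)
        rw [abs_of_neg h3]; push_cast; ring
      · have h1 : r k < r m := hsm (by omega)
        have h2 : 0 < 1 - r k / r m := by
          rw [sub_pos, div_lt_iff₀ hm0]; linarith
        have h3 : 0 < (1 - r k / r m) * Real.exp (r k / r m) := by positivity
        rw [abs_of_pos h3]; push_cast; ring
  rw [e] at hp3
  have h4 : WW lam (zU r k) = (-1) ^ k * ((‖WW lam (zU r k)‖ : ℝ) : ℂ) := hp3.tprod_eq
  exact h4

/-- **the derivative at the zeros of the upper ray is a positive number** -/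
lemma deriv_g0_zU {r : ℕ → ℝ} (h : Sol r) (k : ℕ) :
    ∃ c : ℝ, 0 < c ∧ HasDerivAt (gg0 r) (c : ℂ) (zU r k) := by
  have hc := h.1
  obtain ⟨R, hR⟩ := zL_at r h k
  obtain ⟨X, hX, hX2⟩ := zU_at r h k
  have h1 := hasDerivAt_WW_zero (sqU hc) k (zU_ne hc k)
  have hzero : WW (zU r) (zU r k) = 0 := WW_eq_zero k (div_self (zU_ne hc k))
  have h2 : HasDerivAt (fun z => z * Complex.exp (bb * z) * WW (zL r) z)
    (deriv (fun z => z * Complex.exp (bb * z) * WW (zL r) z) (zU r k)) (zU r k) := by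
    have := (sqL hc).differentiable
    apply DifferentiableAt.hasDerivAt
    fun_prop
  have h3 := h2.mul h1
  have e : (fun z => z * Complex.exp (bb * z) * WW (zL r) z) * WW (zU r) = gg0 r := by
    funext z
    simp only [Pi.mul_apply, gg0, g1]; ring
  rw [e, hzero, mul_zero, zero_add, hX2, hR] at h3
  refine ⟨Real.exp (bb * (r k * Real.cos al)) * Real.exp R * Real.exp 1 * X, by positivity, ?_⟩
  refine h3.congr_deriv ?_
  have hz := zU_ne hc k
  have hexp : Complex.exp (bb * zU r k) =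
      Complex.exp ((bb * (r k * Real.cos al) : ℝ)) * Complex.exp ((r k : ℝ) * I) := by
    rw [← Complex.exp_add]
    congr 1
    have hb := bb_sa
    apply Complex.ext
    · simp [zU, e1_re, e1_im, -Complex.ofReal_cos, -Complex.ofReal_sin]
    · simp [zU, e1_re, e1_im, -Complex.ofReal_cos, -Complex.ofReal_sin]
      linear_combination (r k) * hb
  have hpi : Complex.exp ((r k : ℝ) * I) * Complex.exp ((Real.pi * (k + 1) - r k : ℝ) * I) =
      (-1) ^ (k + 1) := by
    rw [← Complex.exp_add]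
    have : ((r k : ℝ) : ℂ) * I + ((Real.pi * (k + 1) - r k : ℝ) : ℂ) * I =
        ((k + 1 : ℕ) : ℂ) * (Real.pi * I) := by push_cast; ring
    rw [this, Complex.exp_nat_mul, Complex.exp_pi_mul_I]
  rw [hexp]
  have hsign : ((-1 : ℂ)) ^ (k + 1) * (-1) ^ k = -1 := by
    rw [← pow_add]
    exact Odd.neg_one_pow (by rw [show k + 1 + k = 2 * k + 1 by ring]; exact ⟨k, rfl⟩)
  have : zU r k * (Complex.exp ((bb * (r k * Real.cos al) : ℝ)) * Complex.exp ((r k : ℝ) * I)) *
      (Complex.exp R * Complex.exp ((Real.pi * (k + 1) - r k : ℝ) * I)) *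
      (-Complex.exp 1 / zU r k * ((-1) ^ k * X)) =
      -(Complex.exp ((bb * (r k * Real.cos al) : ℝ)) * Complex.exp R * Complex.exp 1 * X) *
      ((Complex.exp ((r k : ℝ) * I) * Complex.exp ((Real.pi * (k + 1) - r k : ℝ) * I)) * (-1) ^ k) := by
    field_simp
  rw [this, hpi, hsign]
  push_cast
  ring

end Pool.Agent.Q108.ZF
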