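import Pool.Agent.Q108.ZF.LogM

set_option autoImplicit false
open Filter Topology Complex ComplexConjugate
open Pool.Agent.H574Leontev

namespace Pool.Agent.Q108.ZF

/-! ### summability -/

lemma ps_lo (k : ℕ) : ps (1 / lo k) = ps 4 * (((k + 1 : ℕ) : ℝ) ^ (16 / 15 : ℝ))⁻¹ := by
  have h1 : (1 : ℝ) / lo k = 4 * ((((k + 1 : ℕ) : ℝ)) ^ (2 / 3 : ℝ))⁻¹ := by
    unfold lo cb
    rw [← Real.rpow_natCast, ← Real.rpow_mul (Nat.cast_nonneg _)]
    norm_num
    ring
  rw [h1, ps_mul (by norm_num) (by positivity)]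
  congr 1
  unfold ps
  rw [← Real.rpow_neg (by positivity), ← Real.rpow_mul (by positivity),
    ← Real.rpow_neg (by positivity)]
  norm_num

lemma summable_ps_lo : Summable (fun k => ps (1 / lo k)) := by
  have h : Summable (fun n : ℕ => ((n : ℝ) ^ (16 / 15 : ℝ))⁻¹) :=
    Real.summable_nat_rpow_inv.mpr (by norm_num)
  have h2 := ((summable_nat_add_iff 1).mpr h).mul_left (ps 4)
  exact h2.congr fun k => (ps_lo k).symm

lemma ps_mono {x y : ℝ} (hx : 0 ≤ x) (h : x ≤ y) : ps x ≤ ps y :=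
  Real.rpow_le_rpow hx h (by norm_num)

lemma Cls.summable_ps {r : ℕ → ℝ} (h : Cls r) : Summable (fun k => ps (1 / r k)) := by
  refine Summable.of_nonneg_of_le (fun k => ps_nonneg (by have := h.pos k; positivity))
    (fun k => ?_) summable_ps_lo
  apply ps_mono (by have := h.pos k; positivity)
  exact one_div_le_one_div_of_le (lo_pos k) (h k)

/-- the sum of the reciprocal moduli with exponent `8/5` -/
noncomputable def M0 (r : ℕ → ℝ) : ℝ := ∑' k, ps (1 / r k)

lemma M0_nonneg {r : ℕ → ℝ} (h : Cls r) : 0 ≤ M0 r :=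
  tsum_nonneg fun k => ps_nonneg (by have := h.pos k; positivity)

/-- growth constant -/
noncomputable def DD (r : ℕ → ℝ) : ℝ := 2 + 32 * M0 r

lemma DD_pos {r : ℕ → ℝ} (h : Cls r) : 0 < DD r := by
  have := M0_nonneg h; unfold DD; linarith

lemma le_one_add_ps {x : ℝ} (hx : 0 ≤ x) : x ≤ 1 + ps x := by
  rcases le_total x 1 with h | h
  · have := ps_nonneg hx; linarith
  · have := le_ps h; linarith

lemma growth_cmp {A η : ℝ} (hA : 0 < A) (hη : 0 < η) :
    ∃ X₁ : ℝ, 1 ≤ X₁ ∧ ∀ X, X₁ ≤ X → A * (1 + ps X) ≤ η * X ^ (5 / 3 : ℝ) := by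
  refine ⟨max 1 ((2 * A / η) ^ (15 : ℝ)), le_max_left _ _, ?_⟩
  intro X hX
  have h1 : 1 ≤ X := (le_max_left _ _).trans hX
  have h2 : (2 * A / η) ^ (15 : ℝ) ≤ X := (le_max_right _ _).trans hX
  have h3 : 2 * A / η ≤ X ^ (1 / 15 : ℝ) := by
    have : ((2 * A / η) ^ (15 : ℝ)) ^ (1 / 15 : ℝ) ≤ X ^ (1 / 15 : ℝ) :=
      Real.rpow_le_rpow (by positivity) h2 (by norm_num)
    rwa [← Real.rpow_mul (by positivity), show (15 : ℝ) * (1 / 15) = 1 by norm_num, Real.rpow_one] at this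
  have h4 : X ^ (5 / 3 : ℝ) = ps X * X ^ (1 / 15 : ℝ) := by
    unfold ps
    rw [← Real.rpow_add (by linarith)]
    norm_num
  have h5 : 1 ≤ ps X := (le_ps h1).trans' h1
  rw [h4]
  rw [div_le_iff₀ hη] at h3
  have h6 : 0 ≤ ps X := by linarith
  calc A * (1 + ps X) ≤ A * (2 * ps X) := by gcongr; linarith
    _ = (2 * A) * ps X := by ring
    _ ≤ (X ^ (1 / 15 : ℝ) * η) * ps X := by gcongr
    _ = _ := by ring

lemma growth_bdd {A η : ℝ} (hA : 0 < A) (hη : 0 < η) :
    ∃ M : ℝ, 0 ≤ M ∧ ∀ X, 0 ≤ X → A * (1 + ps X) ≤ η * X ^ (5 / 3 : ℝ) + M := by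
  obtain ⟨X₁, h1, h2⟩ := growth_cmp hA hη
  refine ⟨A * (1 + ps X₁), by have := ps_nonneg (x := X₁) (by linarith); positivity, ?_⟩
  intro X hX
  have h3 : 0 ≤ X ^ (5 / 3 : ℝ) := Real.rpow_nonneg hX _
  rcases le_total X₁ X with h | h
  · have := h2 X h
    have h4 := ps_nonneg (x := X₁) (by linarith)
    have : 0 ≤ A * (1 + ps X₁) := by positivity
    linarith [h2 X h]
  · have h4 := ps_mono hX h
    have : A * (1 + ps X) ≤ A * (1 + ps X₁) := by gcongr
    have : 0 ≤ η * X ^ (5 / 3 : ℝ) := by positivity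
    linarith

/-! ### the functions in the strip -/

noncomputable def be : ℝ := 7 * Real.pi / 12

lemma be_pos : 0 < be := by unfold be; have := Real.pi_pos; positivity

noncomputable def uu (r : ℕ → ℝ) (m : ℕ) (ζ : ℂ) : ℂ := Complex.exp ζ / r m

noncomputable def nice (r : ℕ → ℝ) (N : ℕ) (ζ : ℂ) : ℂ :=
  bb * (e1 * Complex.exp ζ) + ∑ m ∈ Finset.range N,
    (uu r m ζ + (Complex.log (1 - uu r m ζ * om) + uu r m ζ * om))

noncomputable def LN (r : ℕ → ℝ) (N : ℕ) (ζ : ℂ) : ℂ :=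
  nice r N ζ + ∑ m ∈ Finset.range N, lm (1 - uu r m ζ)

noncomputable def KK (ζ : ℂ) : ℂ := Complex.exp ((5 / 3 : ℝ) * (ζ - (be / 2 : ℝ) * I))

lemma uu_re (r : ℕ → ℝ) (m : ℕ) (ζ : ℂ) :
    (uu r m ζ).re = Real.exp ζ.re * Real.cos ζ.im / r m := by
  unfold uu
  rw [Complex.div_ofReal_re, Complex.exp_re]

lemma uu_im (r : ℕ → ℝ) (m : ℕ) (ζ : ℂ) :
    (uu r m ζ).im = Real.exp ζ.re * Real.sin ζ.im / r m := by
  unfold uu
  rw [Complex.div_ofReal_im, Complex.exp_im]

lemma norm_uu {r : ℕ → ℝ} (h : Cls r) (m : ℕ) (ζ : ℂ) :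
    ‖uu r m ζ‖ = Real.exp ζ.re * (1 / r m) := by
  unfold uu
  rw [norm_div, Complex.norm_exp, Complex.norm_real, Real.norm_eq_abs, abs_of_pos (h.pos m)]
  ring

lemma uu_im_nonneg {r : ℕ → ℝ} (h : Cls r) (m : ℕ) {ζ : ℂ} (h0 : 0 ≤ ζ.im) (h1 : ζ.im ≤ be) :
    0 ≤ (uu r m ζ).im := by
  rw [uu_im]
  have := h.pos m
  have : 0 ≤ Real.sin ζ.im := Real.sin_nonneg_of_nonneg_of_le_pi h0 (by
    unfold be at h1; have := Real.pi_pos; linarith)
  positivity

lemma uu_im_pos {r : ℕ → ℝ} (h : Cls r) (m : ℕ) {ζ : ℂ} (h0 : 0 < ζ.im) (h1 : ζ.im ≤ be) :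
    0 < (uu r m ζ).im := by
  rw [uu_im]
  have := h.pos m
  have : 0 < Real.sin ζ.im := Real.sin_pos_of_pos_of_lt_pi h0 (by
    unfold be at h1; have := Real.pi_pos; linarith)
  positivity

lemma uu_om_re {r : ℕ → ℝ} (h : Cls r) (m : ℕ) {ζ : ℂ} (h0 : 0 ≤ ζ.im) (h1 : ζ.im ≤ be) :
    (uu r m ζ * om).re ≤ 0 := by
  rw [Complex.mul_re, uu_re, uu_im]
  have h2 := h.pos m
  have h3 : 0 ≤ Real.cos (ζ.im - Real.pi / 6) := by
    apply Real.cos_nonneg_of_mem_Icc
    unfold be at h1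
    have := Real.pi_pos
    constructor <;> linarith
  rw [Real.cos_sub, Real.cos_pi_div_six, Real.sin_pi_div_six] at h3
  simp only [om]
  have h4 : Real.exp ζ.re * Real.cos ζ.im / r m * -(Real.sqrt 3 / 2) -
      Real.exp ζ.re * Real.sin ζ.im / r m * (1 / 2) =
      -((Real.exp ζ.re / r m) * (Real.cos ζ.im * (Real.sqrt 3 / 2) + Real.sin ζ.im * (1 / 2))) := by
    ring
  rw [h4]
  have : 0 ≤ (Real.exp ζ.re / r m) * (Real.cos ζ.im * (Real.sqrt 3 / 2) + Real.sin ζ.im * (1 / 2)) := by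
    positivity
  linarith

lemma one_sub_uu_om_re {r : ℕ → ℝ} (h : Cls r) (m : ℕ) {ζ : ℂ} (h0 : 0 ≤ ζ.im) (h1 : ζ.im ≤ be) :
    0 < (1 - uu r m ζ * om).re := by
  have := uu_om_re h m h0 h1
  rw [Complex.sub_re, Complex.one_re]; linarith

lemma uu_differentiable (r : ℕ → ℝ) (m : ℕ) : Differentiable ℂ (uu r m) := by
  unfold uu; fun_prop

lemma nice_differentiableAt {r : ℕ → ℝ} (h : Cls r) (N : ℕ) {ζ : ℂ} (h0 : 0 ≤ ζ.im)
    (h1 : ζ.im ≤ be) : DifferentiableAt ℂ (nice r N) ζ := by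
  unfold nice
  apply DifferentiableAt.add
  · fun_prop
  · apply DifferentiableAt.fun_sum
    intro m _
    have hu := (uu_differentiable r m) ζ
    refine hu.add (DifferentiableAt.add ?_ (hu.mul_const _))
    exact DifferentiableAt.clog (by fun_prop) (Or.inl (one_sub_uu_om_re h m h0 h1))

lemma KK_differentiable : Differentiable ℂ KK := by
  unfold KK; fun_prop

lemma KK_re (ζ : ℂ) : (KK ζ).re =
    Real.exp (5 / 3 * ζ.re) * Real.cos (5 / 3 * (ζ.im - be / 2)) := by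
  unfold KK
  rw [Complex.exp_re]
  congr 2
  · simp
  · simp

noncomputable def ka : ℝ := Real.cos (35 * Real.pi / 72)

lemma ka_pos : 0 < ka := by
  apply Real.cos_pos_of_mem_Ioo
  have := Real.pi_pos
  constructor <;> linarith

lemma KK_re_ge {ζ : ℂ} (h0 : 0 ≤ ζ.im) (h1 : ζ.im ≤ be) :
    ka * (Real.exp ζ.re) ^ (5 / 3 : ℝ) ≤ (KK ζ).re := by
  rw [KK_re, ← Real.exp_mul, mul_comm ζ.re, mul_comm ka]
  gcongr
  unfold ka
  rw [← Real.cos_abs (5 / 3 * (ζ.im - be / 2))]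
  have hpi := Real.pi_pos
  apply Real.cos_le_cos_of_nonneg_of_le_pi (abs_nonneg _) (by linarith)
  rw [abs_le]
  unfold be at *
  constructor <;> linarith

/-- the comparison function -/
noncomputable def FF (r : ℕ → ℝ) (c : ℂ) (ε : ℝ) (N : ℕ) (ζ : ℂ) : ℂ :=
  (∏ m ∈ Finset.range N, phi c (1 - uu r m ζ)) * Complex.exp (c * nice r N ζ - ε * KK ζ)

lemma FF_eq {r : ℕ → ℝ} (c : ℂ) (ε : ℝ) (N : ℕ) (ζ : ℂ) (hne : ∀ m < N, 1 - uu r m ζ ≠ 0) :
    FF r c ε N ζ = Complex.exp (c * LN r N ζ - ε * KK ζ) := by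
  unfold FF LN
  rw [Finset.prod_congr rfl (g := fun m => Complex.exp (c * lm (1 - uu r m ζ)))
    (fun m hm => phi_of_ne c (hne m (Finset.mem_range.mp hm))), ← Complex.exp_sum, ← Complex.exp_add]
  congr 1
  rw [mul_add, Finset.mul_sum]
  ring

lemma norm_FF {r : ℕ → ℝ} (ε s : ℝ) (N : ℕ) (ζ : ℂ) (hne : ∀ m < N, 1 - uu r m ζ ≠ 0) :
    ‖FF r (ε - s * I) ε N ζ‖ =
      Real.exp (ε * (LN r N ζ).re + s * (LN r N ζ).im - ε * (KK ζ).re) := by
  rw [FF_eq _ _ _ _ hne, Complex.norm_exp]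
  congr 1
  simp

lemma FF_zero {r : ℕ → ℝ} (c : ℂ) (ε : ℝ) (N : ℕ) (ζ : ℂ) {m : ℕ} (hm : m < N)
    (h : 1 - uu r m ζ = 0) : FF r c ε N ζ = 0 := by
  unfold FF
  rw [Finset.prod_eq_zero (Finset.mem_range.mpr hm) (by rw [h, phi_zero]), zero_mul]

lemma FF_diffContOnCl {r : ℕ → ℝ} (h : Cls r) {ε s : ℝ} (hε : 0 < ε) (hs : |s| ≤ 1) (N : ℕ) :
    DiffContOnCl ℂ (FF r (ε - s * I) ε N) (Complex.im ⁻¹' Set.Ioo 0 be) := by
  have hcl : closure (Complex.im ⁻¹' Set.Ioo 0 be) = Complex.im ⁻¹' Set.Icc 0 be := by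
    rw [Complex.closure_preimage_im, closure_Ioo be_pos.ne]
  constructor
  · intro ζ hζ
    have h0 : 0 < ζ.im := hζ.1
    have h1 : ζ.im ≤ be := le_of_lt hζ.2
    apply DifferentiableAt.differentiableWithinAt
    unfold FF
    apply DifferentiableAt.mul
    · apply DifferentiableAt.fun_finsetProd
      intro m _
      have h2 : (1 - uu r m ζ).im < 0 := by
        have := uu_im_pos h m h0 h1
        rw [Complex.sub_im, Complex.one_im]; linarith
      have h3 : DifferentiableAt ℂ (phi (ε - s * I)) (1 - uu r m ζ) :=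
        (phi_differentiableOn _ _ h2).differentiableAt
          ((isOpen_lt Complex.continuous_im continuous_const).mem_nhds h2)
      have h4 := (uu_differentiable r m) ζ
      exact h3.comp ζ (h4.const_sub 1)
    · have := nice_differentiableAt h N h0.le h1
      have := KK_differentiable ζ
      fun_prop
  · rw [hcl]
    unfold FF
    apply ContinuousOn.mul
    · apply continuousOn_finsetProd
      intro m _
      refine (phi_continuousOn hε hs).comp (t := {v : ℂ | v.im ≤ 0}) ?_ ?_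
      · exact (continuous_const.sub (uu_differentiable r m).continuous).continuousOn
      · intro ξ hξ
        have := uu_im_nonneg h m hξ.1 hξ.2
        simp only [Set.mem_setOf_eq, Complex.sub_im, Complex.one_im]; linarith
    · intro ζ hζ
      have h0 : 0 ≤ ζ.im := hζ.1
      have h1 : ζ.im ≤ be := hζ.2
      apply ContinuousAt.continuousWithinAt
      have := (nice_differentiableAt h N h0 h1).continuousAt
      have := KK_differentiable.continuous.continuousAt (x := ζ)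
      fun_prop

/-! ### growth -/

lemma sum_ps {r : ℕ → ℝ} (h : Cls r) (N : ℕ) (X : ℝ) (hX : 0 ≤ X) :
    ∑ m ∈ Finset.range N, ps (X * (1 / r m)) ≤ ps X * M0 r := by
  have e : ∀ m, ps (X * (1 / r m)) = ps X * ps (1 / r m) := fun m =>
    ps_mul hX (by have := h.pos m; positivity)
  simp only [e]
  rw [← Finset.mul_sum]
  have h1 : ∑ m ∈ Finset.range N, ps (1 / r m) ≤ M0 r :=
    h.summable_ps.sum_le_tsum _ fun k _ => ps_nonneg (by have := h.pos k; positivity)
  have := ps_nonneg hX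
  gcongr

lemma LN_re_le {r : ℕ → ℝ} (h : Cls r) (N : ℕ) (ζ : ℂ) :
    (LN r N ζ).re ≤ DD r * (1 + ps (Real.exp ζ.re)) := by
  set X := Real.exp ζ.re with hX
  have hX0 : 0 < X := Real.exp_pos _
  have e : (LN r N ζ).re = bb * (e1 * Complex.exp ζ).re +
      ∑ m ∈ Finset.range N, (gg (uu r m ζ) + gg (uu r m ζ * om)) := by
    unfold LN nice
    rw [Complex.add_re, Complex.add_re, Complex.re_sum, Complex.re_sum, Complex.re_ofReal_mul, add_assoc,
      ← Finset.sum_add_distrib]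
    congr 1
    refine Finset.sum_congr rfl fun m _ => ?_
    rw [Complex.add_re, Complex.add_re, lm_re, Complex.log_re]
    unfold gg
    ring
  rw [e]
  have h1 : bb * (e1 * Complex.exp ζ).re ≤ 2 * X := by
    have h2 : (e1 * Complex.exp ζ).re ≤ X := by
      refine (Complex.re_le_norm _).trans ?_
      rw [norm_mul, norm_e1, Complex.norm_exp, one_mul]
    have h3 := bb_pos
    have h4 := bb_lt
    nlinarith
  have h2 : ∑ m ∈ Finset.range N, (gg (uu r m ζ) + gg (uu r m ζ * om)) ≤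
      ∑ m ∈ Finset.range N, 32 * ps (X * (1 / r m)) := by
    refine Finset.sum_le_sum fun m _ => ?_
    have i1 := gg_le_ps (uu r m ζ)
    have i2 := gg_le_ps (uu r m ζ * om)
    rw [norm_mul, norm_om, mul_one] at i2
    rw [norm_uu h] at i1 i2
    linarith
  rw [← Finset.mul_sum] at h2
  have h3 := sum_ps h N X hX0.le
  have h4 := le_one_add_ps hX0.le
  have h5 := M0_nonneg h
  have h6 := ps_nonneg hX0.le
  unfold DD
  nlinarith

lemma LN_im_le {r : ℕ → ℝ} (h : Cls r) (N : ℕ) {ζ : ℂ} (h0 : 0 ≤ ζ.im) (h1 : ζ.im ≤ be) :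
    |(LN r N ζ).im| ≤ DD r * (1 + ps (Real.exp ζ.re)) := by
  set X := Real.exp ζ.re with hX
  have hX0 : 0 < X := Real.exp_pos _
  have e : (LN r N ζ).im = bb * (e1 * Complex.exp ζ).im +
      ∑ m ∈ Finset.range N, ((lm (1 - uu r m ζ) + uu r m ζ).im +
        (Complex.log (1 - uu r m ζ * om) + uu r m ζ * om).im) := by
    unfold LN nice
    rw [Complex.add_im, Complex.add_im, Complex.im_sum, Complex.im_sum, Complex.im_ofReal_mul, add_assoc,
      ← Finset.sum_add_distrib]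
    congr 1
    refine Finset.sum_congr rfl fun m _ => ?_
    simp only [Complex.add_im]
    ring
  rw [e]
  have i1 : |bb * (e1 * Complex.exp ζ).im| ≤ 2 * X := by
    have h2 : |(e1 * Complex.exp ζ).im| ≤ X := by
      refine (Complex.abs_im_le_norm _).trans ?_
      rw [norm_mul, norm_e1, Complex.norm_exp, one_mul]
    have h3 := bb_pos
    have h4 := bb_lt
    rw [abs_mul, abs_of_pos h3]
    nlinarith [abs_nonneg (e1 * Complex.exp ζ).im]
  have i2 : |∑ m ∈ Finset.range N, ((lm (1 - uu r m ζ) + uu r m ζ).im +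
        (Complex.log (1 - uu r m ζ * om) + uu r m ζ * om).im)| ≤
      ∑ m ∈ Finset.range N, 32 * ps (X * (1 / r m)) := by
    refine (Finset.abs_sum_le_sum_abs _ _).trans (Finset.sum_le_sum fun m _ => ?_)
    have hv : (1 - uu r m ζ).im ≤ 0 := by
      have := uu_im_nonneg h m h0 h1
      rw [Complex.sub_im, Complex.one_im]; linarith
    have j1 := im_le_ps (uu r m ζ) (lm (1 - uu r m ζ)) (fun hu => by
      apply lm_eq_of_re
      rw [Complex.sub_re, Complex.one_re]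
      have := Complex.re_le_norm (uu r m ζ)
      linarith) (by
      rw [abs_le]
      have := lm_im_nonpos hv
      have := lm_im_ge hv
      have := Real.pi_pos
      constructor <;> linarith)
    have j2 := im_le_ps (uu r m ζ * om) (Complex.log (1 - uu r m ζ * om)) (fun _ => rfl) (by
      rw [Complex.log_im]; exact Complex.abs_arg_le_pi _)
    rw [norm_mul, norm_om, mul_one] at j2
    rw [norm_uu h] at j1 j2
    refine (abs_add_le _ _).trans ?_
    linarith
  rw [← Finset.mul_sum] at i2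
  have h3 := sum_ps h N X hX0.le
  have h4 := le_one_add_ps hX0.le
  have h5 := M0_nonneg h
  have h6 := ps_nonneg hX0.le
  refine (abs_add_le _ _).trans ?_
  unfold DD
  nlinarith

end Pool.Agent.Q108.ZF
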