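import Pool.Agent.Q108.ZF.Base

set_option autoImplicit false
open Filter Topology

namespace Pool.Agent.Q108.ZF

/-- cube root of a natural number -/
noncomputable def cb (n : ℕ) : ℝ := (n : ℝ) ^ ((1 : ℝ) / 3)

lemma cb_cube (n : ℕ) : cb n ^ 3 = n := by
  unfold cb
  rw [← Real.rpow_natCast, ← Real.rpow_mul (Nat.cast_nonneg n)]
  norm_num

lemma cb_nonneg (n : ℕ) : 0 ≤ cb n := Real.rpow_nonneg (Nat.cast_nonneg n) _

lemma cb_pos (n : ℕ) (hn : 0 < n) : 0 < cb n := Real.rpow_pos_of_pos (by exact_mod_cast hn) _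

lemma cb_mono {m n : ℕ} (h : m ≤ n) : cb m ≤ cb n :=
  Real.rpow_le_rpow (Nat.cast_nonneg m) (by exact_mod_cast h) (by norm_num)

lemma cb_one : cb 1 = 1 := by simp [cb]

lemma one_le_cb (n : ℕ) (hn : 1 ≤ n) : 1 ≤ cb n := by
  rw [← cb_one]; exact cb_mono hn

lemma cb_key (j : ℕ) : 1 ≤ 3 * cb (j + 1) ^ 2 * (cb (j + 1) - cb j) := by
  have h1 := cb_cube (j + 1)
  have h2 := cb_cube j
  have h3 := cb_nonneg j
  have h4 := cb_mono (Nat.le_succ j)
  push_cast at h1
  have h5 : (cb (j + 1) - cb j) * (cb (j + 1) ^ 2 + cb (j + 1) * cb j + cb j ^ 2) = 1 := by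
    have : (cb (j + 1) - cb j) * (cb (j + 1) ^ 2 + cb (j + 1) * cb j + cb j ^ 2) =
      cb (j + 1) ^ 3 - cb j ^ 3 := by ring
    rw [this, h1, h2]; ring
  have h6 : cb (j + 1) ^ 2 + cb (j + 1) * cb j + cb j ^ 2 ≤ 3 * cb (j + 1) ^ 2 := by
    simp only [Nat.succ_eq_add_one] at h4
    nlinarith [cb_nonneg (j + 1)]
  have h7 : 0 ≤ cb (j + 1) - cb j := by
    simp only [Nat.succ_eq_add_one] at h4; linarith
  calc (1 : ℝ) = (cb (j + 1) - cb j) * (cb (j + 1) ^ 2 + cb (j + 1) * cb j + cb j ^ 2) := h5.symm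
    _ ≤ (cb (j + 1) - cb j) * (3 * cb (j + 1) ^ 2) := by gcongr
    _ = _ := by ring

lemma cb_tel1 (j : ℕ) : (cb (j + 1) ^ 2)⁻¹ ≤ 3 * (cb (j + 1) - cb j) := by
  have h1 := cb_key j
  have h2 := cb_pos (j + 1) (Nat.succ_pos j)
  rw [inv_le_iff_one_le_mul₀ (by positivity)]
  linarith

lemma cb_tel2 (j : ℕ) (hj : 0 < j) :
    (cb (j + 1) ^ 4)⁻¹ ≤ 3 * ((cb j)⁻¹ - (cb (j + 1))⁻¹) := by
  have h1 := cb_key j
  have h2 := cb_pos (j + 1) (Nat.succ_pos j)
  have h3 := cb_pos j hj
  have h4 : cb j ≤ cb (j + 1) := cb_mono (Nat.le_succ j)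
  rw [inv_le_iff_one_le_mul₀ (by positivity)]
  have h5 : 3 * ((cb j)⁻¹ - (cb (j + 1))⁻¹) * cb (j + 1) ^ 4 =
      (3 * cb (j + 1) ^ 2 * (cb (j + 1) - cb j)) * (cb (j + 1) / cb j) := by
    field_simp
  rw [h5]
  have h6 : 1 ≤ cb (j + 1) / cb j := by rw [le_div_iff₀ h3]; linarith
  nlinarith

/-- the lower barrier -/
noncomputable def lo (k : ℕ) : ℝ := cb (k + 1) ^ 2 / 4

lemma lo_pos (k : ℕ) : 0 < lo k := by
  have := cb_pos (k + 1) (Nat.succ_pos k); unfold lo; positivity

lemma lo_ge (k : ℕ) : 1 / 4 ≤ lo k := by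
  have := one_le_cb (k + 1) (by omega); unfold lo; nlinarith

lemma summable_lo_sq : Summable (fun k => (lo k ^ 2)⁻¹) := by
  have h : Summable (fun k => (cb (k + 1) ^ 4)⁻¹) := by
    refine summable_of_sum_range_le (c := 4) (fun k => by positivity) ?_
    intro n
    have key : ∀ n : ℕ, ∑ i ∈ Finset.range (n + 1), (cb (i + 1) ^ 4)⁻¹ ≤ 4 - 3 * (cb (n + 1))⁻¹ := by
      intro n
      induction n with
      | zero => simp [cb_one]; norm_num
      | succ n ih =>
        rw [Finset.sum_range_succ]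
        have := cb_tel2 (n + 1) (Nat.succ_pos n)
        linarith
    cases n with
    | zero => simp
    | succ n =>
      have := key n
      have h2 := cb_pos (n + 1) (Nat.succ_pos n)
      have : 0 < (cb (n + 1))⁻¹ := by positivity
      linarith [key n]
  refine (h.mul_left 16).congr fun k => ?_
  unfold lo
  have := cb_pos (k + 1) (Nat.succ_pos k)
  field_simp
  norm_num

/-- admissible sequences -/
def Cls (r : ℕ → ℝ) : Prop := ∀ k, lo k ≤ r k

lemma Cls.pos {r : ℕ → ℝ} (h : Cls r) (k : ℕ) : 0 < r k := (lo_pos k).trans_le (h k)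

lemma Cls.ge {r : ℕ → ℝ} (h : Cls r) (k : ℕ) : 1 / 4 ≤ r k := (lo_ge k).trans (h k)

lemma Cls.summable_sq {r : ℕ → ℝ} (h : Cls r) : Summable (fun k => (r k ^ 2)⁻¹) := by
  refine Summable.of_nonneg_of_le (fun k => by positivity) (fun k => ?_) summable_lo_sq
  have := lo_pos k
  have := h k
  gcongr

lemma w_term_nonneg {r : ℕ → ℝ} (h : Cls r) {t : ℝ} (ht : 0 ≤ t) (j : ℕ) : 0 ≤ w (t / r j) :=
  w_nonneg _ (div_nonneg ht (h.pos j).le)

lemma w_term_le {r : ℕ → ℝ} (h : Cls r) {t : ℝ} (ht : 0 ≤ t) (j : ℕ) :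
    w (t / r j) ≤ Real.sqrt 3 / 4 * t ^ 2 * (r j ^ 2)⁻¹ := by
  have := w_le_sq (t / r j) (div_nonneg ht (h.pos j).le)
  calc w (t / r j) ≤ _ := this
    _ = _ := by rw [div_pow]; ring

lemma w_summable {r : ℕ → ℝ} (h : Cls r) {t : ℝ} (ht : 0 ≤ t) :
    Summable (fun j => w (t / r j)) :=
  Summable.of_nonneg_of_le (w_term_nonneg h ht) (w_term_le h ht) (h.summable_sq.mul_left _)

/-- the phase -/
noncomputable def theta (r : ℕ → ℝ) (t : ℝ) : ℝ := t + ∑' j, w (t / r j)

lemma theta_ge {r : ℕ → ℝ} (h : Cls r) {t : ℝ} (ht : 0 ≤ t) : t ≤ theta r t := by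
  unfold theta
  have : 0 ≤ ∑' j, w (t / r j) := tsum_nonneg (w_term_nonneg h ht)
  linarith

lemma theta_sub_ge {r : ℕ → ℝ} (h : Cls r) {s t : ℝ} (hs : 0 ≤ s) (hst : s ≤ t) :
    t - s ≤ theta r t - theta r s := by
  unfold theta
  have : ∑' j, w (s / r j) ≤ ∑' j, w (t / r j) := by
    refine (w_summable h hs).tsum_le_tsum (fun j => ?_) (w_summable h (hs.trans hst))
    have hr := h.pos j
    exact w_mono (Set.mem_Ici.mpr (by positivity)) (Set.mem_Ici.mpr (by have := hs.trans hst; positivity))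
      (by gcongr)
  linarith

lemma theta_mono {r : ℕ → ℝ} (h : Cls r) {s t : ℝ} (hs : 0 ≤ s) (hst : s ≤ t) :
    theta r s ≤ theta r t := by
  have := theta_sub_ge h hs hst; linarith

lemma theta_sub_le {r : ℕ → ℝ} (h : Cls r) {s t : ℝ} (hs : 0 ≤ s) (hst : s ≤ t) :
    theta r t - theta r s ≤ (t - s) + Real.sqrt 3 / 4 * (t ^ 2 - s ^ 2) * ∑' j, (r j ^ 2)⁻¹ := by
  unfold theta
  have h1 : ∑' j, w (t / r j) - ∑' j, w (s / r j) ≤
      Real.sqrt 3 / 4 * (t ^ 2 - s ^ 2) * ∑' j, (r j ^ 2)⁻¹ := by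
    rw [← (w_summable h (hs.trans hst)).tsum_sub (w_summable h hs), ← tsum_mul_left]
    refine ((w_summable h (hs.trans hst)).sub (w_summable h hs)).tsum_le_tsum (fun j => ?_)
      (h.summable_sq.mul_left _)
    have hr := h.pos j
    have := w_sub_le (s / r j) (t / r j) (by positivity) (by gcongr)
    calc w (t / r j) - w (s / r j) ≤ _ := this
      _ = _ := by rw [div_pow, div_pow]; ring
  linarith

lemma theta_continuousAt {r : ℕ → ℝ} (h : Cls r) {t : ℝ} (ht : 0 < t) :
    ContinuousAt (theta r) t := by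
  rw [Metric.continuousAt_iff]
  intro ε hε
  set M := ∑' j, (r j ^ 2)⁻¹ with hM
  have hM0 : 0 ≤ M := tsum_nonneg fun j => by positivity
  set C := 1 + Real.sqrt 3 / 4 * (2 * t + 1) * M with hC
  have h3 := sqrt3_pos
  have hC1 : 1 ≤ C := by
    have : 0 ≤ Real.sqrt 3 / 4 * (2 * t + 1) * M := by positivity
    linarith
  have key : ∀ s u : ℝ, 0 ≤ s → s ≤ u → u ≤ t + 1 → s ≤ t → |theta r u - theta r s| ≤ C * (u - s) := by
    intro s u hs hsu hu hst
    rw [abs_of_nonneg (by have := theta_mono h hs hsu; linarith)]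
    refine (theta_sub_le h hs hsu).trans ?_
    rw [← hM]
    have e1 : u ^ 2 - s ^ 2 = (u - s) * (u + s) := by ring
    rw [e1]
    have : (u - s) * (u + s) ≤ (u - s) * (2 * t + 1) := by
      apply mul_le_mul_of_nonneg_left _ (by linarith); linarith
    calc u - s + Real.sqrt 3 / 4 * ((u - s) * (u + s)) * M
        ≤ u - s + Real.sqrt 3 / 4 * ((u - s) * (2 * t + 1)) * M := by gcongr
      _ = C * (u - s) := by rw [hC]; ring
  refine ⟨min (min (ε / C) 1) t, by positivity, ?_⟩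
  intro s hs
  rw [Real.dist_eq] at hs ⊢
  have hs1 : |s - t| < ε / C := hs.trans_le ((min_le_left _ _).trans (min_le_left _ _))
  have hs2 : |s - t| < 1 := hs.trans_le ((min_le_left _ _).trans (min_le_right _ _))
  have hs3 : |s - t| < t := hs.trans_le (min_le_right _ _)
  rw [abs_lt] at hs2 hs3
  have hC0 : 0 < C := by linarith
  rcases le_total s t with hst | hst
  · rw [abs_sub_comm]
    refine (key s t (by linarith) hst (by linarith) hst).trans_lt ?_
    rw [abs_sub_comm, abs_of_nonneg (by linarith), lt_div_iff₀ hC0] at hs1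
    linarith
  · refine (key t s ht.le hst (by linarith) le_rfl).trans_lt ?_
    rw [abs_of_nonneg (by linarith), lt_div_iff₀ hC0] at hs1
    linarith

lemma theta_anti {r s : ℕ → ℝ} (hr : Cls r) (hs : Cls s) (hrs : ∀ j, r j ≤ s j) {t : ℝ}
    (ht : 0 ≤ t) : theta s t ≤ theta r t := by
  unfold theta
  have : ∑' j, w (t / s j) ≤ ∑' j, w (t / r j) := by
    refine (w_summable hs ht).tsum_le_tsum (fun j => ?_) (w_summable hr ht)
    have h1 := hr.pos j
    have h2 := hs.pos j
    exact w_mono (Set.mem_Ici.mpr (by positivity)) (Set.mem_Ici.mpr (by positivity))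
      (div_le_div_of_nonneg_left ht h1 (hrs j))
  linarith

lemma Cls_lo : Cls lo := fun _ => le_rfl

/-- the lower barrier is a subsolution -/
lemma theta_lo (k : ℕ) : theta lo (lo k) ≤ Real.pi * (k + 1) := by
  set K := k + 1 with hK
  have hcK : 0 < cb K := cb_pos K (Nat.succ_pos k)
  have hcK1 : 1 ≤ cb K := one_le_cb K (by omega)
  have hK3 : cb K ^ 3 = (k : ℝ) + 1 := by rw [cb_cube]; push_cast [hK]; ring
  have h3 := sqrt3_pos
  have hterm : ∀ j, w (lo k / lo j) ≤
      if j < K then 1 / 2 * cb K ^ 2 * (cb (j + 1) ^ 2)⁻¹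
      else Real.sqrt 3 / 4 * cb K ^ 4 * (cb (j + 1) ^ 4)⁻¹ := by
    intro j
    have hj := cb_pos (j + 1) (Nat.succ_pos j)
    have e : lo k / lo j = cb K ^ 2 * (cb (j + 1) ^ 2)⁻¹ := by
      unfold lo; rw [← hK]; field_simp
    have e0 : 0 ≤ lo k / lo j := div_nonneg (lo_pos k).le (lo_pos j).le
    split_ifs
    · refine (w_le_half _ e0).trans ?_
      rw [e]; apply le_of_eq; ring
    · refine (w_le_sq _ e0).trans ?_
      rw [e]; apply le_of_eq
      field_simp
  have hS1 : ∀ n, n ≤ K → ∑ j ∈ Finset.range n, w (lo k / lo j) ≤ 3 / 2 * cb K ^ 2 * cb n := by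
    intro n
    induction n with
    | zero => intro _; simp; have := cb_nonneg 0; positivity
    | succ n ih =>
      intro hn
      rw [Finset.sum_range_succ]
      have h1 := ih (by omega)
      have h2 := hterm n
      rw [if_pos (by omega)] at h2
      have h4 : 1 / 2 * cb K ^ 2 * (cb (n + 1) ^ 2)⁻¹ ≤
          1 / 2 * cb K ^ 2 * (3 * (cb (n + 1) - cb n)) :=
        mul_le_mul_of_nonneg_left (cb_tel1 n) (by positivity)
      nlinarith
  have hS2 : ∀ n, K ≤ n → ∑ j ∈ Finset.range n, w (lo k / lo j) ≤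
      3 / 2 * cb K ^ 3 + Real.sqrt 3 / 4 * cb K ^ 4 * (3 * ((cb K)⁻¹ - (cb n)⁻¹)) := by
    intro n hn
    induction n, hn using Nat.le_induction with
    | base =>
      have := hS1 K le_rfl
      simp only [sub_self, mul_zero, add_zero]
      linarith [this, show 3 / 2 * cb K ^ 2 * cb K = 3 / 2 * cb K ^ 3 by ring]
    | succ n hn ih =>
      rw [Finset.sum_range_succ]
      have h2 := hterm n
      rw [if_neg (by omega)] at h2
      have h4 : Real.sqrt 3 / 4 * cb K ^ 4 * (cb (n + 1) ^ 4)⁻¹ ≤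
          Real.sqrt 3 / 4 * cb K ^ 4 * (3 * ((cb n)⁻¹ - (cb (n + 1))⁻¹)) :=
        mul_le_mul_of_nonneg_left (cb_tel2 n (by omega)) (by positivity)
      nlinarith
  have hS3 : ∀ n, ∑ j ∈ Finset.range n, w (lo k / lo j) ≤
      3 / 2 * cb K ^ 3 + 3 * Real.sqrt 3 / 4 * cb K ^ 3 := by
    intro n
    rcases le_total n K with hn | hn
    · refine (hS1 n hn).trans ?_
      have := cb_mono hn
      calc 3 / 2 * cb K ^ 2 * cb n ≤ 3 / 2 * cb K ^ 2 * cb K := by gcongr
        _ ≤ _ := by nlinarith [pow_pos hcK 3]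
    · refine (hS2 n hn).trans ?_
      have hcn : 0 < (cb n)⁻¹ := by
        have := cb_pos n (by omega); positivity
      have e : Real.sqrt 3 / 4 * cb K ^ 4 * (3 * ((cb K)⁻¹ - (cb n)⁻¹)) ≤
          Real.sqrt 3 / 4 * cb K ^ 4 * (3 * (cb K)⁻¹) := by gcongr; linarith
      have e2 : Real.sqrt 3 / 4 * cb K ^ 4 * (3 * (cb K)⁻¹) = 3 * Real.sqrt 3 / 4 * cb K ^ 3 := by
        field_simp
      linarith
  have hT : ∑' j, w (lo k / lo j) ≤ 3 / 2 * cb K ^ 3 + 3 * Real.sqrt 3 / 4 * cb K ^ 3 :=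
    Real.tsum_le_of_sum_range_le (w_term_nonneg Cls_lo (lo_pos k).le) hS3
  unfold theta
  have hlo : lo k ≤ 1 / 4 * cb K ^ 3 := by
    unfold lo
    have : cb K ^ 2 ≤ cb K ^ 3 := pow_le_pow_right₀ hcK1 (by norm_num)
    linarith
  have h33 := sqrt3_lt
  have hpi := Real.pi_gt_three
  have hpi2 := Real.pi_gt_d2
  rw [← hK3]
  have hc3 : 0 < cb K ^ 3 := by positivity
  nlinarith

/-- **existence of the moduli** -/
theorem exists_moduli : ∃ r : ℕ → ℝ, Cls r ∧ ∀ k, theta r (r k) = Real.pi * (k + 1) := by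
  classical
  let P : Set (ℕ → ℝ) := {s | ∀ k, lo k ≤ s k ∧ s k ≤ 4 * (k + 1) ∧ theta s (s k) ≤ Real.pi * (k + 1)}
  have hlo : lo ∈ P := by
    intro k
    refine ⟨le_rfl, ?_, theta_lo k⟩
    have := theta_ge Cls_lo (lo_pos k).le
    have h2 := theta_lo k
    have h3 := Real.pi_lt_four
    have : (0 : ℝ) < k + 1 := by positivity
    nlinarith
  let r : ℕ → ℝ := fun k => sSup ((fun s : ℕ → ℝ => s k) '' P)
  have hbdd : ∀ k, BddAbove ((fun s : ℕ → ℝ => s k) '' P) := by
    intro k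
    refine ⟨4 * (k + 1), ?_⟩
    rintro _ ⟨s, hs, rfl⟩
    exact (hs k).2.1
  have hle : ∀ s ∈ P, ∀ k, s k ≤ r k := fun s hs k => le_csSup (hbdd k) ⟨s, hs, rfl⟩
  have hne : ∀ k, ((fun s : ℕ → ℝ => s k) '' P).Nonempty := fun k => ⟨_, lo, hlo, rfl⟩
  have hcls : Cls r := fun k => hle lo hlo k
  have hclsP : ∀ s ∈ P, Cls s := fun s hs k => (hs k).1
  have hr4 : ∀ k, r k ≤ 4 * (k + 1) := by
    intro k
    refine csSup_le (hne k) ?_
    rintro _ ⟨s, hs, rfl⟩
    exact (hs k).2.1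
  have h1 : ∀ k, theta r (r k) ≤ Real.pi * (k + 1) := by
    intro k
    have hc := theta_continuousAt hcls (hcls.pos k)
    by_contra hcon
    push Not at hcon
    have hev : ∀ᶠ t in 𝓝 (r k), Real.pi * (k + 1) < theta r t := hc.eventually_const_lt hcon
    rw [Metric.eventually_nhds_iff] at hev
    obtain ⟨δ, hδ, hev⟩ := hev
    obtain ⟨_, ⟨s, hs, rfl⟩, hsk⟩ := exists_lt_of_lt_csSup (hne k) (show r k - δ < r k by linarith)
    have h2 : Real.pi * (k + 1) < theta r (s k) := by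
      apply hev
      rw [Real.dist_eq, abs_sub_comm, abs_of_nonneg (by linarith [hle s hs k])]
      simp only at hsk
      linarith
    have h3 := theta_anti (hclsP s hs) hcls (hle s hs) ((hclsP s hs).pos k).le
    have h4 := (hs k).2.2
    linarith
  refine ⟨r, hcls, fun k => le_antisymm (h1 k) ?_⟩
  by_contra hcon
  push Not at hcon
  have hc := theta_continuousAt hcls (hcls.pos k)
  have hev : ∀ᶠ t in 𝓝 (r k), theta r t < Real.pi * (k + 1) := hc.eventually_lt_const hcon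
  rw [Metric.eventually_nhds_iff] at hev
  obtain ⟨δ, hδ, hev⟩ := hev
  have hk4 : r k < 4 * (k + 1) := by
    have := theta_ge hcls (hcls.pos k).le
    have h3 := Real.pi_lt_four
    have : (0 : ℝ) < k + 1 := by positivity
    nlinarith
  let η := min (δ / 2) (4 * (k + 1) - r k)
  have hη : 0 < η := lt_min (by linarith) (by linarith)
  let s : ℕ → ℝ := Function.update r k (r k + η)
  have hrs : ∀ j, r j ≤ s j := by
    intro j
    by_cases hj : j = k
    · subst hj; simp only [s, Function.update_self]; linarith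
    · simp only [s, Function.update_of_ne hj]; exact le_rfl
  have hscls : Cls s := fun j => (hcls j).trans (hrs j)
  have hsP : s ∈ P := by
    intro j
    refine ⟨hscls j, ?_, ?_⟩
    · by_cases hj : j = k
      · subst hj
        simp only [s, Function.update_self]
        have : η ≤ 4 * (j + 1) - r j := min_le_right _ _
        linarith
      · simp only [s, Function.update_of_ne hj]; exact hr4 j
    · refine (theta_anti hcls hscls hrs (hscls.pos j).le).trans ?_
      by_cases hj : j = k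
      · subst hj
        simp only [s, Function.update_self]
        apply le_of_lt
        apply hev
        rw [Real.dist_eq]
        have : η ≤ δ / 2 := min_le_left _ _
        rw [show r j + η - r j = η by ring, abs_of_pos hη]
        linarith
      · simp only [s, Function.update_of_ne hj]; exact h1 j
  have := hle s hsP k
  simp only [s, Function.update_self] at this
  linarith

end Pool.Agent.Q108.ZF
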